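import Pool.Agent.Helper11.Stc.Defs

set_option autoImplicit false
set_option linter.unusedVariables false
set_option linter.unusedSectionVars false

/-!
# A spanning tree of a multigraph from parent darts; balanced dart sets (module B7, helper36)
-/

namespace Pool.Agent.Helper11.Stc.Asm

open Finset Classical

section Core

variable {D F : Type*} [Fintype D] [Fintype F] [DecidableEq D] [DecidableEq F] {α : D → D}
  {f : D → F} {par : F → D} {tau : F → ℕ} {r0 r1 : F}

/-- the parent of a vertex -/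
noncomputable def stp (α : D → D) (f : D → F) (par : F → D) (r0 r1 : F) (v : F) : F :=
  if v = r0 ∨ v = r1 then v else f (α (par v))

/-- `v` is an ancestor of `u` -/
def Anc (α : D → D) (f : D → F) (par : F → D) (r0 r1 : F) (u v : F) : Prop :=
  ∃ k : ℕ, (stp α f par r0 r1)^[k] u = v

theorem Anc.refl (u : F) : Anc α f par r0 r1 u u := ⟨0, rfl⟩

theorem Anc.trans {u v w : F} (h : Anc α f par r0 r1 u v) (h' : Anc α f par r0 r1 v w) :
    Anc α f par r0 r1 u w := by
  obtain ⟨k, rfl⟩ := h
  obtain ⟨l, rfl⟩ := h'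
  exact ⟨l + k, by rw [Function.iterate_add_apply]⟩

theorem Anc.of_stp {u v : F} (h : Anc α f par r0 r1 (stp α f par r0 r1 u) v) :
    Anc α f par r0 r1 u v := by
  obtain ⟨k, rfl⟩ := h
  exact ⟨k + 1, by rw [Function.iterate_succ_apply]⟩

theorem Anc.cases {u v : F} (h : Anc α f par r0 r1 u v) :
    u = v ∨ Anc α f par r0 r1 (stp α f par r0 r1 u) v := by
  obtain ⟨k, rfl⟩ := h
  rcases k with _ | k
  · exact Or.inl rfl
  · exact Or.inr ⟨k, by rw [Function.iterate_succ_apply]⟩

/-- the data of a rooted spanning tree with root edge `r0 r1` -/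
structure Tree (α : D → D) (f : D → F) (par : F → D) (tau : F → ℕ) (r0 r1 : F) : Prop where
  inv : ∀ d, α (α d) = d
  ne : ∀ d, α d ≠ d
  hr : r0 ≠ r1
  hf : ∀ v, f (par v) = v
  root : α (par r0) = par r1
  lt : ∀ v, v ≠ r0 → v ≠ r1 → tau (f (α (par v))) < tau v

theorem Tree.root' (h : Tree α f par tau r0 r1) : α (par r1) = par r0 := by
  rw [← h.root, h.inv]

theorem Tree.stp_r0 (h : Tree α f par tau r0 r1) : stp α f par r0 r1 r0 = r0 := by
  unfold stp; rw [if_pos (Or.inl rfl)]

theorem Tree.stp_r1 (h : Tree α f par tau r0 r1) : stp α f par r0 r1 r1 = r1 := by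
  unfold stp; rw [if_pos (Or.inr rfl)]

theorem Tree.stp_le (h : Tree α f par tau r0 r1) (u : F) :
    tau (stp α f par r0 r1 u) ≤ tau u := by
  unfold stp
  split_ifs with hu
  · exact le_rfl
  · push Not at hu
    exact (h.lt u hu.1 hu.2).le

theorem Tree.anc_le (h : Tree α f par tau r0 r1) {u v : F} (huv : Anc α f par r0 r1 u v) :
    tau v ≤ tau u := by
  obtain ⟨k, rfl⟩ := huv
  induction k with
  | zero => exact le_rfl
  | succ k ih =>
    rw [Function.iterate_succ_apply']
    exact (h.stp_le _).trans ih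

theorem Tree.anc_r0 (h : Tree α f par tau r0 r1) {v : F} (hv : Anc α f par r0 r1 r0 v) :
    v = r0 := by
  obtain ⟨k, rfl⟩ := hv
  induction k with
  | zero => rfl
  | succ k ih => rw [Function.iterate_succ_apply', ih, h.stp_r0]

theorem Tree.anc_r1 (h : Tree α f par tau r0 r1) {v : F} (hv : Anc α f par r0 r1 r1 v) :
    v = r1 := by
  obtain ⟨k, rfl⟩ := hv
  induction k with
  | zero => rfl
  | succ k ih => rw [Function.iterate_succ_apply', ih, h.stp_r1]

/-- `par v` leaves the set of descendants of `v` -/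
theorem Tree.par_cross (h : Tree α f par tau r0 r1) (v : F) :
    ¬ Anc α f par r0 r1 (f (α (par v))) v := by
  intro hv
  by_cases h0 : v = r0
  · subst h0
    rw [h.root, h.hf] at hv
    exact h.hr (h.anc_r1 hv)
  by_cases h1 : v = r1
  · subst h1
    rw [h.root', h.hf] at hv
    exact h.hr (h.anc_r0 hv).symm
  have := h.anc_le hv
  have := h.lt v h0 h1
  omega

/-- two ancestors of the same vertex with the same value of `tau` coincide -/
theorem Tree.anc_inj (h : Tree α f par tau r0 r1) {u v v' : F} (hv : Anc α f par r0 r1 u v)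
    (hv' : Anc α f par r0 r1 u v') (h0 : v ≠ r0) (h1 : v ≠ r1) (h0' : v' ≠ r0) (h1' : v' ≠ r1)
    (ht : tau v = tau v') : v = v' := by
  have key : ∀ v v' : F, Anc α f par r0 r1 v v' → v ≠ r0 → v ≠ r1 → tau v = tau v' → v = v' := by
    intro v v' hvv h0 h1 ht
    rcases hvv.cases with h2 | h2
    · exact h2
    · exfalso
      have h3 := h.anc_le h2
      unfold stp at h3
      rw [if_neg (by tauto)] at h3
      have := h.lt v h0 h1
      omega
  obtain ⟨k, hk⟩ := hv
  obtain ⟨l, hl⟩ := hv'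
  rcases le_total k l with hkl | hkl
  · refine key v v' ⟨l - k, ?_⟩ h0 h1 ht
    rw [← hk, ← Function.iterate_add_apply, Nat.sub_add_cancel hkl, hl]
  · refine (key v' v ⟨k - l, ?_⟩ h0' h1' ht.symm).symm
    rw [← hl, ← Function.iterate_add_apply, Nat.sub_add_cancel hkl, hk]

/-- the darts of the tree -/
noncomputable def TD (α : D → D) (par : F → D) : Finset D :=
  univ.image par ∪ univ.image fun v => α (par v)

theorem mem_TD {d : D} : d ∈ TD α par ↔ ∃ v, d = par v ∨ d = α (par v) := by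
  unfold TD
  rw [mem_union, mem_image, mem_image]
  constructor
  · rintro (⟨v, _, h⟩ | ⟨v, _, h⟩)
    · exact ⟨v, Or.inl h.symm⟩
    · exact ⟨v, Or.inr h.symm⟩
  · rintro ⟨v, h | h⟩
    · exact Or.inl ⟨v, mem_univ _, h.symm⟩
    · exact Or.inr ⟨v, mem_univ _, h.symm⟩

theorem Tree.mem_TD' (h : Tree α f par tau r0 r1) {d : D} (hd : d ∈ TD α par) :
    ∃ v, v ≠ r0 ∧ (d = par v ∨ d = α (par v)) := by
  obtain ⟨v, hv⟩ := mem_TD.1 hd
  by_cases h0 : v = r0
  · subst h0
    refine ⟨r1, h.hr.symm, ?_⟩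
    rcases hv with hv | hv
    · right; rw [hv, h.root']
    · left; rw [hv, h.root]
  · exact ⟨v, h0, hv⟩

theorem Tree.TD_alpha (h : Tree α f par tau r0 r1) {d : D} (hd : d ∈ TD α par) :
    α d ∈ TD α par := by
  obtain ⟨v, hv | hv⟩ := mem_TD.1 hd
  · exact mem_TD.2 ⟨v, Or.inr (by rw [hv])⟩
  · exact mem_TD.2 ⟨v, Or.inl (by rw [hv, h.inv])⟩

theorem Tree.par_inj (h : Tree α f par tau r0 r1) : Function.Injective par := by
  intro u v huv
  rw [← h.hf u, huv, h.hf]

theorem Tree.TD_card (h : Tree α f par tau r0 r1) :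
    (TD α par).card = 2 * (Fintype.card F - 1) := by
  have hT : TD α par = univ.image par ∪ ((univ.erase r0).erase r1).image fun v => α (par v) := by
    ext d
    rw [mem_TD, mem_union, mem_image, mem_image]
    constructor
    · rintro ⟨v, hv | hv⟩
      · exact Or.inl ⟨v, mem_univ _, hv.symm⟩
      · by_cases h0 : v = r0
        · subst h0
          exact Or.inl ⟨r1, mem_univ _, by rw [hv, h.root]⟩
        · by_cases h1 : v = r1
          · subst h1
            exact Or.inl ⟨r0, mem_univ _, by rw [hv, h.root']⟩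
          · exact Or.inr ⟨v, mem_erase.2 ⟨h1, mem_erase.2 ⟨h0, mem_univ _⟩⟩, hv.symm⟩
    · rintro (⟨v, _, h⟩ | ⟨v, _, h⟩)
      · exact ⟨v, Or.inl h.symm⟩
      · exact ⟨v, Or.inr h.symm⟩
  have hdis : Disjoint (univ.image par)
      (((univ.erase r0).erase r1).image fun v => α (par v)) := by
    rw [disjoint_left]
    intro d hd hd'
    rw [mem_image] at hd hd'
    obtain ⟨u, _, hu⟩ := hd
    obtain ⟨v, hv, hv'⟩ := hd'
    rw [mem_erase, mem_erase] at hv
    have e1 : par u = α (par v) := by rw [hu, hv']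
    have e2 : f (α (par v)) = u := by rw [← e1, h.hf]
    have e3 : α (par u) = par v := by rw [e1, h.inv]
    by_cases h0 : u = r0
    · subst h0
      rw [h.root] at e3
      exact hv.1 (h.par_inj e3).symm
    by_cases h1 : u = r1
    · subst h1
      rw [h.root'] at e3
      exact hv.2.1 (h.par_inj e3).symm
    have h2 := h.lt v hv.2.1 hv.1
    have h3 := h.lt u h0 h1
    rw [e3, h.hf] at h3
    rw [e2] at h2
    omega
  rw [hT, card_union_of_disjoint hdis, card_image_of_injective _ h.par_inj, card_univ,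
    card_image_of_injOn, card_erase_of_mem, card_erase_of_mem (mem_univ _), card_univ]
  · have h2 : 1 < Fintype.card F := Fintype.one_lt_card_iff.2 ⟨r0, r1, h.hr⟩
    omega
  · exact mem_erase.2 ⟨h.hr.symm, mem_univ _⟩
  · intro u _ v _ huv
    have : α (α (par u)) = α (α (par v)) := congrArg α huv
    rw [h.inv, h.inv] at this
    exact h.par_inj this

/-- the only dart of the tree leaving the set of descendants of `v` is `par v` -/
theorem Tree.out (h : Tree α f par tau r0 r1) {d : D} (hd : d ∈ TD α par) {v : F}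
    (h1 : Anc α f par r0 r1 (f d) v) (h2 : ¬ Anc α f par r0 r1 (f (α d)) v) : d = par v := by
  have key : ∀ u, d = par u → d = par v := by
    intro u hu
    have h1' := h1
    rw [hu, h.hf] at h1'
    by_cases h0 : u = r0
    · subst h0
      rw [h.anc_r0 h1', hu]
    by_cases h1 : u = r1
    · subst h1
      rw [h.anc_r1 h1', hu]
    rcases h1'.cases with h3 | h3
    · rw [hu, h3]
    · exfalso
      unfold stp at h3
      rw [if_neg (by tauto), ← hu] at h3
      exact h2 h3
  obtain ⟨u, hu | hu⟩ := mem_TD.1 hd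
  · exact key u hu
  by_cases h0 : u = r0
  · subst h0
    exact key r1 (by rw [hu, h.root])
  by_cases h1' : u = r1
  · subst h1'
    exact key r0 (by rw [hu, h.root'])
  exfalso
  rw [hu, h.inv, h.hf] at h2
  apply h2
  apply Anc.of_stp
  unfold stp
  rw [if_neg (by tauto), ← hu]
  exact h1

/-- the only dart of the tree entering the set of descendants of `v` is `α (par v)` -/
theorem Tree.into (h : Tree α f par tau r0 r1) {d : D} (hd : d ∈ TD α par) {v : F}
    (h1 : ¬ Anc α f par r0 r1 (f d) v) (h2 : Anc α f par r0 r1 (f (α d)) v) :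
    d = α (par v) := by
  rw [← h.out (h.TD_alpha hd) h2 (by rw [h.inv]; exact h1), h.inv]

/-- balanced sets of darts cross every set equally often in both directions -/
theorem balanced_cross {Z : Finset D}
    (hZ : ∀ x, (Z.filter (fun d => f d = x)).card = (Z.filter (fun d => f (α d) = x)).card)
    (S : Finset F) : (Z.filter fun d => f d ∈ S ∧ f (α d) ∉ S).card =
      (Z.filter fun d => f d ∉ S ∧ f (α d) ∈ S).card := by
  have e1 : (Z.filter fun d => f d ∈ S).card = (Z.filter fun d => f (α d) ∈ S).card := by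
    have h1 : (Z.filter fun d => f d ∈ S).card =
        ∑ x ∈ S, (Z.filter fun d => f d = x).card := by
      rw [card_eq_sum_card_fiberwise (f := f) (t := S)]
      · refine sum_congr rfl fun x hx => ?_
        congr 1
        ext d
        rw [mem_filter, mem_filter, mem_filter]
        constructor
        · rintro ⟨⟨h1, h2⟩, h3⟩; exact ⟨h1, h3⟩
        · rintro ⟨h1, h3⟩; exact ⟨⟨h1, h3 ▸ hx⟩, h3⟩
      · intro d hd
        exact (mem_filter.1 (mem_coe.1 hd)).2
    have h2 : (Z.filter fun d => f (α d) ∈ S).card =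
        ∑ x ∈ S, (Z.filter fun d => f (α d) = x).card := by
      rw [card_eq_sum_card_fiberwise (f := fun d => f (α d)) (t := S)]
      · refine sum_congr rfl fun x hx => ?_
        congr 1
        ext d
        rw [mem_filter, mem_filter, mem_filter]
        constructor
        · rintro ⟨⟨h1, h2⟩, h3⟩; exact ⟨h1, h3⟩
        · rintro ⟨h1, h3⟩; exact ⟨⟨h1, h3 ▸ hx⟩, h3⟩
      · intro d hd
        exact (mem_filter.1 (mem_coe.1 hd)).2
    rw [h1, h2]
    exact sum_congr rfl fun x _ => hZ x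
  have e2 := card_filter_add_card_filter_not (s := Z.filter fun d => f d ∈ S)
    (fun d => f (α d) ∈ S)
  have e3 := card_filter_add_card_filter_not (s := Z.filter fun d => f (α d) ∈ S)
    (fun d => f d ∈ S)
  rw [filter_filter, filter_filter] at e2 e3
  have e4 : (Z.filter fun d => f (α d) ∈ S ∧ f d ∈ S) =
      Z.filter fun d => f d ∈ S ∧ f (α d) ∈ S := filter_congr fun d _ => and_comm
  have e5 : (Z.filter fun d => f (α d) ∈ S ∧ ¬ f d ∈ S) =
      Z.filter fun d => f d ∉ S ∧ f (α d) ∈ S := filter_congr fun d _ => and_comm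
  rw [e4, e5] at e3
  omega

/-- if every dart of `Z` which crosses the descendants of `v` is in the tree, then `Z` does not
use `par v` -/
theorem Tree.notMem (h : Tree α f par tau r0 r1) {Z : Finset D} (ha : ∀ d ∈ Z, α d ∉ Z)
    (hZ : ∀ x, (Z.filter (fun d => f d = x)).card = (Z.filter (fun d => f (α d) = x)).card)
    {v : F} (hv : ∀ d ∈ Z, ¬ (Anc α f par r0 r1 (f d) v ↔ Anc α f par r0 r1 (f (α d)) v) →
      d ∈ TD α par) : par v ∉ Z ∧ α (par v) ∉ Z := by
  set S : Finset F := univ.filter fun u => Anc α f par r0 r1 u v with hS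
  have hmem : ∀ u, u ∈ S ↔ Anc α f par r0 r1 u v := by
    intro u; rw [hS, mem_filter]; exact ⟨fun h => h.2, fun h => ⟨mem_univ _, h⟩⟩
  have hbal := balanced_cross hZ S
  have hout : ∀ d ∈ Z.filter (fun d => f d ∈ S ∧ f (α d) ∉ S), d = par v := by
    intro d hd
    rw [mem_filter, hmem, hmem] at hd
    exact h.out (hv d hd.1 (by tauto)) hd.2.1 hd.2.2
  have hin : ∀ d ∈ Z.filter (fun d => f d ∉ S ∧ f (α d) ∈ S), d = α (par v) := by
    intro d hd
    rw [mem_filter, hmem, hmem] at hd
    exact h.into (hv d hd.1 (by tauto)) hd.2.1 hd.2.2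
  have c1 : f (par v) ∈ S := by rw [hmem, h.hf]; exact Anc.refl v
  have c2 : f (α (par v)) ∉ S := by rw [hmem]; exact h.par_cross v
  constructor
  · intro hp
    have h1 : par v ∈ Z.filter (fun d => f d ∈ S ∧ f (α d) ∉ S) := mem_filter.2 ⟨hp, c1, c2⟩
    have h2 : 0 < (Z.filter fun d => f d ∉ S ∧ f (α d) ∈ S).card := by
      rw [← hbal]; exact card_pos.2 ⟨_, h1⟩
    obtain ⟨d, hd⟩ := card_pos.1 h2
    have h3 := hin d hd
    rw [h3] at hd
    exact ha _ hp (mem_filter.1 hd).1
  · intro hp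
    have h1 : α (par v) ∈ Z.filter (fun d => f d ∉ S ∧ f (α d) ∈ S) :=
      mem_filter.2 ⟨hp, c2, by rw [h.inv]; exact c1⟩
    have h2 : 0 < (Z.filter fun d => f d ∈ S ∧ f (α d) ∉ S).card := by
      rw [hbal]; exact card_pos.2 ⟨_, h1⟩
    obtain ⟨d, hd⟩ := card_pos.1 h2
    have h3 := hout d hd
    rw [h3] at hd
    exact ha _ (mem_filter.1 hd).1 hp

theorem Tree.empty_of_subset (h : Tree α f par tau r0 r1) {Z : Finset D}
    (ha : ∀ d ∈ Z, α d ∉ Z)
    (hZ : ∀ x, (Z.filter (fun d => f d = x)).card = (Z.filter (fun d => f (α d) = x)).card)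
    (hsub : Z ⊆ TD α par) : Z = ∅ := by
  rw [eq_empty_iff_forall_notMem]
  intro d hd
  obtain ⟨v, hv⟩ := mem_TD.1 (hsub hd)
  have := h.notMem ha hZ (v := v) fun d hd _ => hsub hd
  rcases hv with hv | hv
  · exact this.1 (hv ▸ hd)
  · exact this.2 (hv ▸ hd)

/-- the main count: a balanced set inside the tree plus one edge -/
theorem Tree.card_le (h : Tree α f par tau r0 r1) {Z : Finset D} (ha : ∀ d ∈ Z, α d ∉ Z)
    (hZ : ∀ x, (Z.filter (fun d => f d = x)).card = (Z.filter (fun d => f (α d) = x)).card)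
    {d0 : D} (hsub : ∀ d ∈ Z, d ∈ TD α par ∨ d = d0 ∨ d = α d0) (B : Finset F)
    (hB : ∀ v, v ≠ r0 → ¬ (Anc α f par r0 r1 (f d0) v ↔ Anc α f par r0 r1 (f (α d0)) v) →
      v ∈ B) : Z.card ≤ 1 + B.card := by
  by_cases hd0 : d0 ∈ TD α par
  · have : Z = ∅ := by
      refine h.empty_of_subset ha hZ fun d hd => ?_
      rcases hsub d hd with h1 | h1 | h1
      · exact h1
      · rw [h1]; exact hd0
      · rw [h1]; exact h.TD_alpha hd0
    rw [this, card_empty]
    exact Nat.zero_le _
  -- every other dart of `Z` is `par v` or `α (par v)` with `v ∈ B`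
  have hmem : ∀ d ∈ Z, d ≠ d0 → d ≠ α d0 → ∃ v ∈ B, d = par v ∨ d = α (par v) := by
    intro d hd h1 h2
    have hdT : d ∈ TD α par := (hsub d hd).resolve_right (by tauto)
    obtain ⟨v, hv0, hv⟩ := h.mem_TD' hdT
    refine ⟨v, hB v hv0 ?_, hv⟩
    intro hiff
    have := h.notMem ha hZ (v := v) (by
      intro d' hd' hne
      rcases hsub d' hd' with h3 | h3 | h3
      · exact h3
      · exfalso; apply hne; rw [h3]; exact hiff
      · exfalso; apply hne; rw [h3, h.inv]; exact hiff.symm)
    rcases hv with hv | hv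
    · exact this.1 (hv ▸ hd)
    · exact this.2 (hv ▸ hd)
  have hZ1 : (Z.filter fun d => d = d0 ∨ d = α d0).card ≤ 1 := by
    rw [card_le_one]
    intro a ha' b hb
    rw [mem_filter] at ha' hb
    rcases ha'.2 with h1 | h1 <;> rcases hb.2 with h2 | h2
    · rw [h1, h2]
    · exfalso; exact ha a ha'.1 (by rw [h1, ← h2]; exact hb.1)
    · exfalso; exact ha b hb.1 (by rw [h2, ← h1]; exact ha'.1)
    · rw [h1, h2]
  have hZ2 : (Z.filter fun d => ¬ (d = d0 ∨ d = α d0)).card ≤ B.card := by
    have hex : ∀ d : D, ∃ v : F, d ∈ Z.filter (fun d => ¬ (d = d0 ∨ d = α d0)) →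
        v ∈ B ∧ (d = par v ∨ d = α (par v)) := by
      intro d
      by_cases hd : d ∈ Z.filter fun d => ¬ (d = d0 ∨ d = α d0)
      · rw [mem_filter, not_or] at hd
        obtain ⟨v, h1, h2⟩ := hmem d hd.1 hd.2.1 hd.2.2
        exact ⟨v, fun _ => ⟨h1, h2⟩⟩
      · exact ⟨r0, fun h' => absurd h' hd⟩
    choose g hg using hex
    refine card_le_card_of_injOn g (fun d hd => (hg d hd).1) ?_
    intro a haa b hbb hab
    have h1 := (hg a haa).2
    have h2 := (hg b hbb).2
    rw [← hab] at h2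
    rw [mem_coe, mem_filter] at haa hbb
    rcases h1 with h1 | h1 <;> rcases h2 with h2 | h2
    · rw [h1, h2]
    · exfalso; exact ha a haa.1 (by rw [h1, ← h2]; exact hbb.1)
    · exfalso; exact ha b hbb.1 (by rw [h2, ← h1]; exact haa.1)
    · rw [h1, h2]
  have := card_filter_add_card_filter_not (s := Z) (fun d => d = d0 ∨ d = α d0)
  omega

/-- the number of ancestors of `u` is bounded by `tau u` -/
theorem Tree.card_anc (h : Tree α f par tau r0 r1) (u : F) :
    (univ.filter fun v => v ≠ r0 ∧ v ≠ r1 ∧ Anc α f par r0 r1 u v).card ≤ tau u := by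
  rw [← card_range (tau u)]
  refine card_le_card_of_injOn (fun v => tau v - 1) ?_ ?_
  · intro v hv
    rw [mem_coe, mem_filter] at hv
    have h1 := h.anc_le hv.2.2.2
    have h2 := h.lt v hv.2.1 hv.2.2.1
    rw [mem_coe, mem_range]
    dsimp only
    omega
  · intro v hv v' hv' hvv
    rw [mem_coe, mem_filter] at hv hv'
    have h2 := h.lt v hv.2.1 hv.2.2.1
    have h2' := h.lt v' hv'.2.1 hv'.2.2.1
    refine h.anc_inj hv.2.2.2 hv'.2.2.2 hv.2.1 hv.2.2.1 hv'.2.1 hv'.2.2.1 ?_
    have : tau v - 1 = tau v' - 1 := hvv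
    omega

/-! ### classes -/

variable {V0 : Type*} {π : F → V0} {a : V0 → F} {r s : F → ℕ}

/-- the classes are subtrees rooted at `a b` -/
structure Classes (α : D → D) (f : D → F) (par : F → D) (r0 r1 : F) (π : F → V0) (a : V0 → F)
    (r : F → ℕ) : Prop where
  a0 : r0 = a (π r0)
  a1 : r1 = a (π r1)
  ra : ∀ v, r (a (π v)) = 0
  pa : ∀ v, π (a (π v)) = π v
  in_class : ∀ v, v ≠ a (π v) → π (f (α (par v))) = π v ∧ r v = r (f (α (par v))) + 1

theorem Classes.ne0 (hc : Classes α f par r0 r1 π a r) {v : F} (hv : v ≠ a (π v)) :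
    v ≠ r0 ∧ v ≠ r1 := by
  constructor
  · rintro rfl; exact hv hc.a0
  · rintro rfl; exact hv hc.a1

theorem Classes.stp_eq (hc : Classes α f par r0 r1 π a r) {v : F} (hv : v ≠ a (π v)) :
    stp α f par r0 r1 v = f (α (par v)) := by
  unfold stp
  rw [if_neg (by have := hc.ne0 hv; tauto)]

theorem Classes.anc_a (hc : Classes α f par r0 r1 π a r) : ∀ (k : ℕ) (u : F), r u = k →
    Anc α f par r0 r1 u (a (π u)) := by
  intro k
  induction k with
  | zero =>
    intro u hu
    by_cases h1 : u = a (π u)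
    · rw [← h1]; exact Anc.refl u
    · have := (hc.in_class u h1).2
      omega
  | succ k ih =>
    intro u hu
    by_cases h1 : u = a (π u)
    · rw [← h1]; exact Anc.refl u
    · have h2 := hc.in_class u h1
      apply Anc.of_stp
      rw [hc.stp_eq h1, ← h2.1]
      exact ih _ (by omega)

theorem Classes.exit (hc : Classes α f par r0 r1 π a r) : ∀ (k : ℕ) (u v : F),
    (stp α f par r0 r1)^[k] u = v → (π v = π u ∧ v ≠ a (π u)) ∨ Anc α f par r0 r1 (a (π u)) v := by
  intro k
  induction k with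
  | zero =>
    rintro u v rfl
    by_cases h1 : u = a (π u)
    · right
      rw [← h1]; exact Anc.refl u
    · exact Or.inl ⟨rfl, h1⟩
  | succ k ih =>
    intro u v h
    by_cases h1 : u = a (π u)
    · right
      rw [← h1]
      exact ⟨k + 1, h⟩
    · have h2 := hc.in_class u h1
      rw [Function.iterate_succ_apply, hc.stp_eq h1] at h
      have := ih _ v h
      rw [h2.1] at this
      exact this

/-- vertices of the same class have the same ancestors outside the class -/
theorem Classes.same (hc : Classes α f par r0 r1 π a r) {u u' v : F} (hu : π u = π u')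
    (h1 : Anc α f par r0 r1 u v) (h2 : ¬ Anc α f par r0 r1 u' v) :
    π v = π u ∧ v ≠ a (π u) := by
  obtain ⟨k, hk⟩ := h1
  rcases hc.exit k u v hk with h3 | h3
  · exact h3
  · exfalso
    apply h2
    refine Anc.trans (hc.anc_a _ u' rfl) ?_
    rw [← hu]
    exact h3

/-- the number of ancestors of `u` inside its class -/
theorem Classes.card_anc (h : Tree α f par tau r0 r1) (hc : Classes α f par r0 r1 π a r)
    {c : V0 → ℕ} (htau : ∀ v, tau v = c (π v) + r v) (u : F) :
    (univ.filter fun v => (π v = π u ∧ v ≠ a (π u)) ∧ Anc α f par r0 r1 u v).card ≤ r u := by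
  rw [← card_range (r u)]
  refine card_le_card_of_injOn (fun v => r v - 1) ?_ ?_
  · intro v hv
    rw [mem_coe, mem_filter] at hv
    obtain ⟨_, ⟨h1, h2⟩, h3⟩ := hv
    have h4 := h.anc_le h3
    rw [htau, htau, h1] at h4
    rw [← h1] at h2
    have h5 := (hc.in_class v h2).2
    rw [mem_coe, mem_range]
    dsimp only
    omega
  · intro v hv v' hv' hvv
    rw [mem_coe, mem_filter] at hv hv'
    obtain ⟨_, ⟨h1, h2⟩, h3⟩ := hv
    obtain ⟨_, ⟨h1', h2'⟩, h3'⟩ := hv'
    have e1 := h1
    have e2 := h1'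
    rw [← h1] at h2
    rw [← h1'] at h2'
    have h5 := (hc.in_class v h2).2
    have h5' := (hc.in_class v' h2').2
    have h6 : r v - 1 = r v' - 1 := hvv
    refine h.anc_inj h3 h3' (hc.ne0 h2).1 (hc.ne0 h2).2 (hc.ne0 h2').1 (hc.ne0 h2').2 ?_
    rw [htau, htau, e1, e2]
    omega

/-- different classes -/
theorem card_le_diff (h : Tree α f par tau r0 r1) {Z : Finset D} (ha : ∀ d ∈ Z, α d ∉ Z)
    (hZ : ∀ x, (Z.filter (fun d => f d = x)).card = (Z.filter (fun d => f (α d) = x)).card)
    {d0 : D} (hsub : ∀ d ∈ Z, d ∈ TD α par ∨ d = d0 ∨ d = α d0) :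
    Z.card ≤ tau (f d0) + tau (f (α d0)) + 2 := by
  have h1 := h.card_le ha hZ hsub
    ((({r1} : Finset F) ∪ univ.filter fun v => v ≠ r0 ∧ v ≠ r1 ∧ Anc α f par r0 r1 (f d0) v) ∪
      univ.filter fun v => v ≠ r0 ∧ v ≠ r1 ∧ Anc α f par r0 r1 (f (α d0)) v) (by
    intro v hv0 hv
    rw [mem_union, mem_union, mem_singleton, mem_filter, mem_filter]
    by_cases hv1 : v = r1
    · exact Or.inl (Or.inl hv1)
    · by_cases h2 : Anc α f par r0 r1 (f d0) v
      · exact Or.inl (Or.inr ⟨mem_univ _, hv0, hv1, h2⟩)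
      · exact Or.inr ⟨mem_univ _, hv0, hv1, by tauto⟩)
  have h2 := card_union_le (({r1} : Finset F) ∪ univ.filter fun v => v ≠ r0 ∧ v ≠ r1 ∧
    Anc α f par r0 r1 (f d0) v)
    (univ.filter fun v => v ≠ r0 ∧ v ≠ r1 ∧ Anc α f par r0 r1 (f (α d0)) v)
  have h3 := card_union_le ({r1} : Finset F) (univ.filter fun v => v ≠ r0 ∧ v ≠ r1 ∧
    Anc α f par r0 r1 (f d0) v)
  have h4 := h.card_anc (f d0)
  have h5 := h.card_anc (f (α d0))
  rw [card_singleton] at h3
  omega

/-- the same class -/
theorem card_le_same (h : Tree α f par tau r0 r1) (hc : Classes α f par r0 r1 π a r)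
    {c : V0 → ℕ} (htau : ∀ v, tau v = c (π v) + r v) {Z : Finset D} (ha : ∀ d ∈ Z, α d ∉ Z)
    (hZ : ∀ x, (Z.filter (fun d => f d = x)).card = (Z.filter (fun d => f (α d) = x)).card)
    {d0 : D} (hsub : ∀ d ∈ Z, d ∈ TD α par ∨ d = d0 ∨ d = α d0)
    (hd : π (f d0) = π (f (α d0))) :
    Z.card ≤ r (f d0) + r (f (α d0)) + 1 := by
  have h1 := h.card_le ha hZ hsub
    ((univ.filter fun v => (π v = π (f d0) ∧ v ≠ a (π (f d0))) ∧ Anc α f par r0 r1 (f d0) v) ∪
      univ.filter fun v => (π v = π (f (α d0)) ∧ v ≠ a (π (f (α d0)))) ∧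
        Anc α f par r0 r1 (f (α d0)) v) (by
    intro v hv0 hv
    rw [mem_union, mem_filter, mem_filter]
    by_cases h2 : Anc α f par r0 r1 (f d0) v
    · exact Or.inl ⟨mem_univ _, hc.same hd h2 (by tauto), h2⟩
    · exact Or.inr ⟨mem_univ _, hc.same hd.symm (by tauto) h2, by tauto⟩)
  have h2 := card_union_le (univ.filter fun v => (π v = π (f d0) ∧ v ≠ a (π (f d0))) ∧
    Anc α f par r0 r1 (f d0) v) (univ.filter fun v => (π v = π (f (α d0)) ∧
      v ≠ a (π (f (α d0)))) ∧ Anc α f par r0 r1 (f (α d0)) v)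
  have h4 := hc.card_anc h htau (f d0)
  have h5 := hc.card_anc h htau (f (α d0))
  omega

end Core

end Pool.Agent.Helper11.Stc.Asm
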