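import Pool.Agent.Helper11.Stc.Defs
import Pool.Agent.Helper11.Stc.AssemblyCore7

set_option autoImplicit false
set_option linter.unusedVariables false

/-!
# The spanning tree of the dual multigraph (module B7, helper36)
-/

namespace Pool.Agent.Helper11.Stc

open Finset

universe u

theorem three_le_deg {D F : Type*} [Fintype D] [Fintype F] [DecidableEq F]
    {α : D → D} {f : D → F} (h : MG α f) (hF : 2 ≤ Fintype.card F) (x : F) : 3 ≤ deg f x := by
  have h1 : ({x} : Finset F) ≠ univ := by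
    intro he
    have := congrArg Finset.card he
    rw [card_singleton, card_univ] at this
    omega
  refine (h.three {x} (singleton_nonempty x) h1).trans (card_le_card ?_)
  intro d hd
  unfold cutD at hd
  rw [mem_filter, mem_singleton] at hd
  exact mem_filter.2 ⟨mem_univ _, hd.2.1⟩

theorem sum_deg {D F : Type*} [Fintype D] [Fintype F] [DecidableEq F]
    {α : D → D} {f : D → F} (h : MG α f) (hF : 2 ≤ Fintype.card F) :
    ∑ x, (deg f x - 2) + 2 * Fintype.card F = Fintype.card D := by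
  have h1 : Fintype.card D = ∑ x, deg f x := by
    rw [← card_univ (α := D)]
    exact card_eq_sum_card_fiberwise (f := f) (t := univ) fun d _ => mem_coe.2 (mem_univ _)
  have h2 : ∑ x, deg f x = ∑ x, (deg f x - 2) + ∑ x : F, 2 := by
    rw [← sum_add_distrib]
    refine sum_congr rfl fun x _ => ?_
    have := three_le_deg h hF x
    omega
  rw [h1, h2, sum_const, card_univ, smul_eq_mul]
  ring

/-- `mg_main` from the statements of the modules B5 (`exists_torso`), B6 (`blob_depth`) and B4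
(`torso_main`). -/
theorem mg_main_of {D F : Type u} [Fintype D] [DecidableEq D] [Fintype F] [DecidableEq F]
    {α : D → D} {f : D → F} (h : MG α f) (hF : 1 ≤ Fintype.card F)
    (n : ℕ) (hn2 : 2 ≤ n) (hn : Fintype.card D + 4 = 2 * Fintype.card F + 2 * n)
    (exists_torso : 2 ≤ Fintype.card F →
      ∃ (V0 : Type u) (_ : Fintype V0) (_ : DecidableEq V0) (π : F → V0) (w : V0 → ℕ),
      Function.Surjective π ∧ 2 ≤ Fintype.card V0 ∧
      Torso α (fun d => π (f d)) (fun b => ∑ x ∈ univ.filter (fun x => π x = b), (deg f x - 2)) w ∧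
      (∀ b, (w b = 0 ∧ ∀ x y, π x = b → π y = b → x = y) ∨
        (0 < w b ∧ (cutD α f (univ.filter (fun x => π x = b))).card = 3 ∧
          ∑ x ∈ univ.filter (fun x => π x = b), (deg f x - 2) = 2 * w b + 1 ∧
          2 * (2 * w b + 1) ≤ ∑ x, (deg f x - 2))))
    (blob_depth : ∀ (A : Finset F), (cutD α f A).card = 3 →
      ∀ (w : ℕ), ∑ x ∈ A, (deg f x - 2) = 2 * w + 1 →
      ∀ (a : F), a ∈ A → (∃ d, f d = a ∧ f (α d) ∉ A) →
      ∃ r : F → ℕ, r a = 0 ∧
      (∀ x ∈ A, x ≠ a → ∃ d, f d = x ∧ f (α d) ∈ A ∧ r x = r (f (α d)) + 1) ∧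
      (∀ x ∈ A, r x ≤ w))
    (torso_main : ∀ (V0 : Type u) [Fintype V0] [DecidableEq V0] (f0 : D → V0) (μ w : V0 → ℕ),
      Torso α f0 μ w → 2 ≤ Fintype.card V0 → ∀ (n : ℕ), ∑ b, μ b + 4 = 2 * n →
      ∃ (x y : V0) (s : V0 → ℕ), (∃ d, f0 d = y ∧ f0 (α d) = x) ∧ x ≠ y ∧ s x = 0 ∧ s y = 0 ∧
      (∀ b, b ≠ x → b ≠ y → ∃ d, f0 d = b ∧ s b = s (f0 (α d)) + w (f0 (α d)) + 1) ∧
      (∀ d, f0 d ≠ f0 (α d) →
        s (f0 d) + w (f0 d) + s (f0 (α d)) + w (f0 (α d)) + 2 ≤ 2 * (n / 2))) :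
    ∃ T : Finset D, (∀ d ∈ T, α d ∈ T) ∧ T.card = 2 * (Fintype.card F - 1) ∧
      (∀ Z : Finset D, (∀ d ∈ Z, α d ∉ Z) →
        (∀ x, (Z.filter (fun d => f d = x)).card = (Z.filter (fun d => f (α d) = x)).card) →
        Z ⊆ T → Z = ∅) ∧
      (∀ d0 : D, ∀ Z : Finset D, (∀ d ∈ Z, α d ∉ Z) →
        (∀ x, (Z.filter (fun d => f d = x)).card = (Z.filter (fun d => f (α d) = x)).card) →
        (∀ d ∈ Z, d ∈ T ∨ d = d0 ∨ d = α d0) → Z.card ≤ 2 * (n / 2)) := by
  rcases Nat.lt_or_ge (Fintype.card F) 2 with h1 | h2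
  · refine ⟨∅, fun d hd => absurd hd (notMem_empty d), by rw [card_empty]; omega, ?_, ?_⟩
    · intro Z _ _ hZ
      exact subset_empty.1 hZ
    · intro d0 Z ha _ hZ
      have : Z.card ≤ 1 := by
        rw [card_le_one]
        intro a haa b hbb
        have e1 := (hZ a haa).resolve_left (notMem_empty a)
        have e2 := (hZ b hbb).resolve_left (notMem_empty b)
        rcases e1 with e1 | e1 <;> rcases e2 with e2 | e2
        · rw [e1, e2]
        · exfalso; exact ha a haa (by rw [e1, ← e2]; exact hbb)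
        · exfalso; exact ha b hbb (by rw [e2, ← e1]; exact haa)
        · rw [e1, e2]
      omega
  obtain ⟨V0, i1, i2, π, w, hsurj, hV0, htorso, hclass⟩ := exists_torso h2
  have hsum := sum_deg h h2
  have hn' : ∑ b, ∑ x ∈ univ.filter (fun x => π x = b), (deg f x - 2) + 4 = 2 * n := by
    rw [sum_fiberwise]
    omega
  obtain ⟨x, y, s, ⟨e0, he0, he0'⟩, hxy, hsx, hsy, hs, hbound⟩ :=
    torso_main V0 _ _ w htorso hV0 n hn'
  -- the entry dart of every class
  have hδ : ∀ b, ∃ d, π (f d) = b ∧ π (f (α d)) ≠ b ∧ (b = y → d = e0) ∧ (b = x → d = α e0) ∧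
      (b ≠ x → b ≠ y → s b = s (π (f (α d))) + w (π (f (α d))) + 1) := by
    intro b
    by_cases hby : b = y
    · subst hby
      exact ⟨e0, he0, by rw [he0']; exact hxy, fun _ => rfl, fun hb => absurd hb hxy.symm,
        fun _ hb => absurd rfl hb⟩
    by_cases hbx : b = x
    · subst hbx
      refine ⟨α e0, he0', ?_, fun hb => absurd hb hby, fun _ => rfl, fun hb => absurd rfl hb⟩
      rw [h.inv, he0]
      exact hxy.symm
    obtain ⟨d, hd1, hd2⟩ := hs b hbx hby
    refine ⟨d, hd1, ?_, fun hb => absurd hb hby, fun hb => absurd hb hbx, fun _ _ => hd2⟩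
    intro he
    rw [he] at hd2
    omega
  choose δ hδ1 hδ2 hδ3 hδ4 hδ5 using hδ
  -- the depth inside every class
  have hR : ∀ b, ∃ r : F → ℕ, r (f (δ b)) = 0 ∧
      (∀ v, π v = b → v ≠ f (δ b) → ∃ d, f d = v ∧ π (f (α d)) = b ∧ r v = r (f (α d)) + 1) ∧
      (∀ v, π v = b → r v ≤ w b) := by
    intro b
    rcases hclass b with ⟨hw, hsing⟩ | ⟨hw, hcut, hmass, _⟩
    · exact ⟨fun _ => 0, rfl, fun v hv hne => absurd (hsing v _ hv (hδ1 b)) hne,
        fun v _ => Nat.zero_le _⟩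
    · obtain ⟨r, hr0, hr1, hr2⟩ := blob_depth (univ.filter fun x => π x = b) hcut (w b) hmass
        (f (δ b)) (mem_filter.2 ⟨mem_univ _, hδ1 b⟩)
        ⟨δ b, rfl, fun hm => hδ2 b (mem_filter.1 hm).2⟩
      refine ⟨r, hr0, fun v hv hne => ?_, fun v hv => hr2 v (mem_filter.2 ⟨mem_univ _, hv⟩)⟩
      obtain ⟨d, hd1, hd2, hd3⟩ := hr1 v (mem_filter.2 ⟨mem_univ _, hv⟩) hne
      exact ⟨d, hd1, (mem_filter.1 hd2).2, hd3⟩
  choose R hR0 hR1 hR2 using hR
  have hpar : ∀ v, ∃ d, f d = v ∧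
      (v ≠ f (δ (π v)) → π (f (α d)) = π v ∧ R (π v) v = R (π (f (α d))) (f (α d)) + 1) ∧
      (v = f (δ (π v)) → d = δ (π v)) := by
    intro v
    by_cases hv : v = f (δ (π v))
    · exact ⟨δ (π v), hv.symm, fun hne => absurd hv hne, fun _ => rfl⟩
    · obtain ⟨d, hd1, hd2, hd3⟩ := hR1 (π v) v rfl hv
      refine ⟨d, hd1, fun _ => ⟨hd2, ?_⟩, fun he => absurd he hv⟩
      rw [hd2]
      exact hd3
  choose par hpar1 hpar2 hpar3 using hpar
  have ha0 : f (α e0) = f (δ x) := by rw [hδ4 x rfl]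
  have ha1 : f e0 = f (δ y) := by rw [hδ3 y rfl]
  have hp0 : par (f (α e0)) = α e0 := by
    rw [hpar3 (f (α e0)) (by rw [he0', ← ha0]), he0', hδ4 x rfl]
  have hp1 : par (f e0) = e0 := by
    rw [hpar3 (f e0) (by rw [he0, ← ha1]), he0, hδ3 y rfl]
  have htree : Asm.Tree α f par (fun v => s (π v) + R (π v) v) (f (α e0)) (f e0) := by
    refine ⟨h.inv, h.ne, ?_, hpar1, ?_, ?_⟩
    · intro he
      apply hxy
      rw [← he0, ← he0', he]
    · rw [hp0, hp1, h.inv]
    · intro v hv0 hv1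
      by_cases hv : v = f (δ (π v))
      · have hx : π v ≠ x := by
          intro he
          rw [he, ← ha0] at hv
          exact hv0 hv
        have hy : π v ≠ y := by
          intro he
          rw [he, ← ha1] at hv
          exact hv1 hv
        have e1 := hδ5 (π v) hx hy
        have e2 := hR2 (π (f (α (δ (π v))))) (f (α (δ (π v)))) rfl
        rw [hpar3 v hv]
        omega
      · have e1 := hpar2 v hv
        have e2 := e1.2
        rw [e1.1] at e2 ⊢
        omega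
  have hcl : Asm.Classes α f par (f (α e0)) (f e0) π (fun b => f (δ b)) (fun v => R (π v) v) := by
    refine ⟨?_, ?_, ?_, ?_, ?_⟩
    · rw [he0', ← ha0]
    · rw [he0, ← ha1]
    · intro v
      rw [hδ1]
      exact hR0 _
    · intro v
      exact hδ1 _
    · exact hpar2
  refine ⟨Asm.TD α par, fun d hd => htree.TD_alpha hd, htree.TD_card,
    fun Z ha hZ hsub => htree.empty_of_subset ha hZ hsub, fun d0 Z ha hZ hsub => ?_⟩
  by_cases hd : π (f d0) = π (f (α d0))
  · have e1 := Asm.card_le_same htree hcl (c := s) (fun v => rfl) ha hZ hsub hd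
    have e2 := hR2 (π (f d0)) (f d0) rfl
    have e3 := hR2 (π (f d0)) (f (α d0)) hd.symm
    rw [← hd] at e1
    rcases hclass (π (f d0)) with ⟨hw, -⟩ | ⟨hw, -, -, hw2⟩
    · omega
    · omega
  · have e1 := Asm.card_le_diff htree ha hZ hsub
    have e2 := hR2 (π (f d0)) (f d0) rfl
    have e3 := hR2 (π (f (α d0))) (f (α d0)) rfl
    have e4 := hbound d0 hd
    omega

end Pool.Agent.Helper11.Stc
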