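import Pool.Agent.Helper11.Stc.Defs

set_option autoImplicit false

/-!
# The bipyramid is planar: explicit rotation system
-/

namespace Pool.Agent.Helper11.Stc

open Finset

namespace BP

/-- the six kinds of darts: along the rim forwards and backwards, to and from the first pole,
to and from the second pole. -/
inductive K : Type
  | rf | rb | ta | fa | tb | fb
  deriving DecidableEq

instance : Fintype K := ⟨{K.rf, K.rb, K.ta, K.fa, K.tb, K.fb}, by intro x; cases x <;> simp⟩

theorem card_K : Fintype.card K = 6 := rfl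

variable {m : ℕ}

/-- tail of a model dart -/
def tl : ZMod m × K → ZMod m ⊕ Bool
  | (i, K.rf) => Sum.inl i
  | (i, K.rb) => Sum.inl (i + 1)
  | (i, K.ta) => Sum.inl i
  | (_, K.fa) => Sum.inr false
  | (i, K.tb) => Sum.inl i
  | (_, K.fb) => Sum.inr true

/-- head of a model dart -/
def hd : ZMod m × K → ZMod m ⊕ Bool
  | (i, K.rf) => Sum.inl (i + 1)
  | (i, K.rb) => Sum.inl i
  | (_, K.ta) => Sum.inr false
  | (i, K.fa) => Sum.inl i
  | (_, K.tb) => Sum.inr true
  | (i, K.fb) => Sum.inl i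

/-- reversal -/
def rv : ZMod m × K → ZMod m × K
  | (i, K.rf) => (i, K.rb)
  | (i, K.rb) => (i, K.rf)
  | (i, K.ta) => (i, K.fa)
  | (i, K.fa) => (i, K.ta)
  | (i, K.tb) => (i, K.fb)
  | (i, K.fb) => (i, K.tb)

/-- rotation -/
def rot : ZMod m × K → ZMod m × K
  | (i, K.rf) => (i, K.ta)
  | (i, K.ta) => (i - 1, K.rb)
  | (i, K.rb) => (i + 1, K.tb)
  | (i, K.tb) => (i, K.rf)
  | (i, K.fa) => (i + 1, K.fa)
  | (i, K.fb) => (i - 1, K.fb)

/-- inverse rotation -/
def rotInv : ZMod m × K → ZMod m × K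
  | (i, K.ta) => (i, K.rf)
  | (i, K.rb) => (i + 1, K.ta)
  | (i, K.tb) => (i - 1, K.rb)
  | (i, K.rf) => (i, K.tb)
  | (i, K.fa) => (i - 1, K.fa)
  | (i, K.fb) => (i + 1, K.fb)

/-- face label -/
def lab : ZMod m × K → ZMod m × Bool
  | (i, K.rf) => (i, true)
  | (i, K.tb) => (i - 1, true)
  | (i, K.fb) => (i, true)
  | (i, K.rb) => (i, false)
  | (i, K.ta) => (i, false)
  | (i, K.fa) => (i - 1, false)

/-- representative of a face -/
def rep : ZMod m × Bool → ZMod m × K
  | (i, true) => (i, K.rf)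
  | (i, false) => (i, K.rb)

theorem rotInv_rot (x : ZMod m × K) : rotInv (rot x) = x := by
  rcases x with ⟨i, k⟩; cases k <;> simp [rot, rotInv]

theorem rot_rotInv (x : ZMod m × K) : rot (rotInv x) = x := by
  rcases x with ⟨i, k⟩; cases k <;> simp [rot, rotInv]

theorem tl_rot (x : ZMod m × K) : tl (rot x) = tl x := by
  rcases x with ⟨i, k⟩; cases k <;> simp [rot, tl]

theorem tl_rv (x : ZMod m × K) : tl (rv x) = hd x := by
  rcases x with ⟨i, k⟩; cases k <;> simp [rv, tl, hd]

theorem hd_rv (x : ZMod m × K) : hd (rv x) = tl x := by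
  rcases x with ⟨i, k⟩; cases k <;> simp [rv, tl, hd]

theorem lab_rep (y : ZMod m × Bool) : lab (rep y) = y := by
  rcases y with ⟨i, b⟩; cases b <;> simp [rep, lab]

theorem lab_face (x : ZMod m × K) : lab (rot (rv x)) = lab x := by
  rcases x with ⟨i, k⟩; cases k <;> simp [rot, rv, lab]

theorem one_ne (hm : 3 ≤ m) : (1 : ZMod m) ≠ 0 := by
  have : Fact (1 < m) := ⟨by omega⟩
  exact one_ne_zero

theorem two_ne (hm : 3 ≤ m) : (1 + 1 : ZMod m) ≠ 0 := by
  intro h
  have h2 : ((2 : ℕ) : ZMod m) = 0 := by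
    push_cast; rw [← h]; norm_num
  rw [ZMod.natCast_eq_zero_iff] at h2
  exact absurd (Nat.le_of_dvd (by norm_num) h2) (by omega)

theorem adj_tl_hd (hm : 3 ≤ m) (x : ZMod m × K) : (bipyr m).Adj (tl x) (hd x) := by
  have h1 := one_ne hm
  rcases x with ⟨i, k⟩
  cases k <;> simp [bipyr, tl, hd, SimpleGraph.fromRel_adj, h1]

/-- the dart of a model dart -/
def toDart (hm : 3 ≤ m) (x : ZMod m × K) : (bipyr m).Dart :=
  ⟨(tl x, hd x), adj_tl_hd hm x⟩

theorem toDart_inj (hm : 3 ≤ m) : Function.Injective (toDart hm) := by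
  have h2 := two_ne hm
  have h2' : ∀ i : ZMod m, i ≠ i + 1 + 1 := by
    intro i h
    apply h2
    have := congrArg (fun t => t - i) h
    simp only [sub_self] at this
    rw [this]; ring
  rintro ⟨i, k⟩ ⟨j, l⟩ h
  have h3 : (tl (i, k), hd (i, k)) = (tl (j, l), hd (j, l)) := congrArg SimpleGraph.Dart.toProd h
  rw [Prod.mk.injEq] at h3
  obtain ⟨ha, hb⟩ := h3
  cases k <;> cases l <;> simp [tl, hd] at ha hb ⊢ <;> try assumption
  · subst ha; exact absurd hb.symm (h2' _)
  · subst hb; exact absurd ha.symm (h2' _)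

theorem toDart_surj (hm : 3 ≤ m) : Function.Surjective (toDart hm) := by
  rintro ⟨⟨p, q⟩, h⟩
  have h' := h
  rcases p with i | a <;> rcases q with j | b
  · simp [bipyr, SimpleGraph.fromRel_adj] at h'
    rcases h'.2 with h3 | h3
    · refine ⟨(i, K.rf), ?_⟩
      ext <;> simp [toDart, tl, hd, h3]
    · refine ⟨(j, K.rb), ?_⟩
      ext <;> simp [toDart, tl, hd, h3]
  · cases b
    · exact ⟨(i, K.ta), rfl⟩
    · exact ⟨(i, K.tb), rfl⟩
  · cases a
    · exact ⟨(j, K.fa), rfl⟩
    · exact ⟨(j, K.fb), rfl⟩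
  · simp [bipyr, SimpleGraph.fromRel_adj] at h'

/-- the model darts are the darts -/
noncomputable def eqv (hm : 3 ≤ m) : ZMod m × K ≃ (bipyr m).Dart :=
  Equiv.ofBijective (toDart hm) ⟨toDart_inj hm, toDart_surj hm⟩

theorem eqv_apply (hm : 3 ≤ m) (x : ZMod m × K) : eqv hm x = toDart hm x := rfl

/-- the rotation as a permutation of the model -/
def rotP : Equiv.Perm (ZMod m × K) where
  toFun := rot
  invFun := rotInv
  left_inv := rotInv_rot
  right_inv := rot_rotInv

/-- the rotation system -/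
noncomputable def sg (hm : 3 ≤ m) : Equiv.Perm (bipyr m).Dart :=
  ((eqv hm).symm.trans rotP).trans (eqv hm)

theorem sg_apply (hm : 3 ≤ m) (x : ZMod m × K) : sg hm (toDart hm x) = toDart hm (rot x) := by
  have h : (eqv hm).symm (toDart hm x) = x := by
    rw [← eqv_apply, Equiv.symm_apply_apply]
  simp only [sg, Equiv.trans_apply, h]
  rfl

theorem toDart_symm (hm : 3 ≤ m) (x : ZMod m × K) :
    (toDart hm x).symm = toDart hm (rv x) := by
  ext <;> simp [toDart, tl_rv, hd_rv]

theorem step {X : Type*} (φ : Equiv.Perm X) (x y : X) (h : φ x = y) : φ.SameCycle x y :=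
  ⟨1, by simpa using h⟩

theorem sc_const {X Y : Type*} (φ : Equiv.Perm X) (L : X → Y) (h : ∀ d, L (φ d) = L d)
    {x y : X} (hs : φ.SameCycle x y) : L x = L y := by
  obtain ⟨i, rfl⟩ := hs
  induction i using Int.induction_on with
  | zero => simp
  | succ i ih => rw [add_comm, zpow_add, zpow_one, Equiv.Perm.mul_apply, h, ih]
  | pred i ih =>
    have h2 : L (φ⁻¹ ((φ ^ (-(i : ℤ))) x)) = L ((φ ^ (-(i : ℤ))) x) := by
      rw [← h (φ⁻¹ ((φ ^ (-(i : ℤ))) x))]
      simp
    rw [sub_eq_add_neg, add_comm, zpow_add, zpow_neg_one, Equiv.Perm.mul_apply, h2, ih]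

theorem same_tail (hm : 3 ≤ m) (x y : ZMod m × K) (h : tl x = tl y) :
    (sg hm).SameCycle (toDart hm x) (toDart hm y) := by
  have : NeZero m := ⟨by omega⟩
  -- canonical darts
  have hfa : ∀ n : ℕ, (sg hm).SameCycle (toDart hm (0, K.fa)) (toDart hm ((n : ZMod m), K.fa)) := by
    intro n
    induction n with
    | zero => simp [Equiv.Perm.SameCycle.refl]
    | succ n ih =>
      refine ih.trans (step _ _ _ ?_)
      rw [sg_apply]; simp [rot]
  have hfb : ∀ n : ℕ, (sg hm).SameCycle (toDart hm ((n : ZMod m), K.fb)) (toDart hm (0, K.fb)) := by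
    intro n
    induction n with
    | zero => simp [Equiv.Perm.SameCycle.refl]
    | succ n ih =>
      refine Equiv.Perm.SameCycle.trans (step _ _ _ ?_) ih
      rw [sg_apply]; simp [rot]
  have key : ∀ x : ZMod m × K, (sg hm).SameCycle (toDart hm x) (toDart hm
      (match tl x with
        | Sum.inl i => (i, K.rf)
        | Sum.inr false => (0, K.fa)
        | Sum.inr true => (0, K.fb))) := by
    rintro ⟨i, k⟩
    cases k
    · exact Equiv.Perm.SameCycle.refl _ _
    · refine (step _ _ (toDart hm (i + 1, K.tb)) ?_).trans (step _ _ _ ?_)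
      · rw [sg_apply]; simp [rot]
      · rw [sg_apply]; simp [rot, tl]
    · refine Equiv.Perm.SameCycle.symm (step _ _ _ ?_)
      rw [sg_apply]; simp [rot, tl]
    · have := hfa i.val
      rw [ZMod.natCast_zmod_val] at this
      exact this.symm
    · refine (step _ _ _ ?_)
      rw [sg_apply]; simp [rot, tl]
    · have := hfb i.val
      rw [ZMod.natCast_zmod_val] at this
      exact this
  have hx := key x
  have hy := key y
  rw [h] at hx
  exact hx.trans hy.symm

/-- the face permutation -/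
noncomputable def ph (hm : 3 ≤ m) : Equiv.Perm (bipyr m).Dart :=
  sg hm * Function.Involutive.toPerm SimpleGraph.Dart.symm SimpleGraph.Dart.symm_involutive

theorem ph_apply (hm : 3 ≤ m) (x : ZMod m × K) :
    ph hm (toDart hm x) = toDart hm (rot (rv x)) := by
  rw [ph, Equiv.Perm.mul_apply]
  rw [show (Function.Involutive.toPerm SimpleGraph.Dart.symm SimpleGraph.Dart.symm_involutive)
    (toDart hm x) = (toDart hm x).symm from rfl, toDart_symm, sg_apply]

theorem same_face (hm : 3 ≤ m) (x : ZMod m × K) :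
    (ph hm).SameCycle (toDart hm (rep (lab x))) (toDart hm x) := by
  rcases x with ⟨i, k⟩
  cases k
  · exact Equiv.Perm.SameCycle.refl _ _
  · exact Equiv.Perm.SameCycle.refl _ _
  · refine step _ _ _ ?_
    rw [ph_apply]; simp [lab, rep, rot, rv]
  · refine (step _ _ (toDart hm (i - 1, K.ta)) ?_).trans (step _ _ _ ?_)
    · rw [ph_apply]; simp [lab, rep, rot, rv]
    · rw [ph_apply]; simp [rot, rv]
  · refine step _ _ _ ?_
    rw [ph_apply]; simp [lab, rep, rot, rv]
  · refine (step _ _ (toDart hm (i + 1, K.tb)) ?_).trans (step _ _ _ ?_)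
    · rw [ph_apply]; simp [lab, rep, rot, rv]
    · rw [ph_apply]; simp [rot, rv]

theorem card_faces (hm : 3 ≤ m) :
    Nat.card (Quotient (Equiv.Perm.SameCycle.setoid (ph hm))) = 2 * m := by
  have : NeZero m := ⟨by omega⟩
  let L : (bipyr m).Dart → ZMod m × Bool := fun d => lab ((eqv hm).symm d)
  have hLT : ∀ x, L (toDart hm x) = lab x := by
    intro x
    show lab ((eqv hm).symm (toDart hm x)) = lab x
    rw [← eqv_apply, Equiv.symm_apply_apply]
  have hL : ∀ d, L (ph hm d) = L d := by
    intro d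
    obtain ⟨x, rfl⟩ := toDart_surj hm d
    rw [ph_apply, hLT, hLT, lab_face]
  let Q : Quotient (Equiv.Perm.SameCycle.setoid (ph hm)) → ZMod m × Bool :=
    Quotient.lift L (fun a b hab => sc_const (ph hm) L hL hab)
  have hQ : Function.Bijective Q := by
    constructor
    · intro a b
      refine Quotient.inductionOn₂ a b ?_
      intro d e hde
      have hde' : L d = L e := hde
      apply Quotient.sound
      show (ph hm).SameCycle d e
      obtain ⟨x, rfl⟩ := toDart_surj hm d
      obtain ⟨y, rfl⟩ := toDart_surj hm e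
      rw [hLT, hLT] at hde'
      have h1 := same_face hm x
      have h2 := same_face hm y
      rw [hde'] at h1
      exact h1.symm.trans h2
    · intro y
      refine ⟨Quotient.mk _ (toDart hm (rep y)), ?_⟩
      show L (toDart hm (rep y)) = y
      rw [hLT, lab_rep]
  rw [Nat.card_congr (Equiv.ofBijective Q hQ), Nat.card_prod]
  simp [mul_comm]

theorem card_edges (hm : 3 ≤ m) : Nat.card (bipyr m).edgeSet = 3 * m := by
  classical
  have : NeZero m := ⟨by omega⟩
  have h1 := (bipyr m).dart_card_eq_twice_card_edges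
  have h2 : Fintype.card (bipyr m).Dart = m * 6 := by
    rw [← Fintype.card_congr (eqv hm), Fintype.card_prod, ZMod.card, card_K]
  have h3 : Nat.card (bipyr m).edgeSet = (bipyr m).edgeFinset.card := by
    rw [Nat.card_eq_fintype_card, ← SimpleGraph.edgeFinset_card]
  omega

end BP

/-- The bipyramid is planar. -/
theorem bipyr_planar (m : ℕ) (hm : 3 ≤ m) : IsPlanarMap (bipyr m) := by
  have : NeZero m := ⟨by omega⟩
  refine ⟨BP.sg hm, ?_, ?_, ?_⟩
  · intro d
    obtain ⟨x, rfl⟩ := BP.toDart_surj hm d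
    rw [BP.sg_apply]
    exact BP.tl_rot x
  · intro d d' h
    obtain ⟨x, rfl⟩ := BP.toDart_surj hm d
    obtain ⟨y, rfl⟩ := BP.toDart_surj hm d'
    exact BP.same_tail hm x y h
  · have h1 := BP.card_faces hm
    have h2 := BP.card_edges hm
    unfold BP.ph at h1
    rw [h1, h2]
    have h3 : Nat.card (ZMod m ⊕ Bool) = m + 2 := by
      rw [Nat.card_sum]; simp
    rw [h3]
    push_cast
    ring

end Pool.Agent.Helper11.Stc
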