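import Pool.Agent.Helper11.Stc.Times

set_option autoImplicit false

namespace Pool.Agent.Helper11.Stc

open Finset

section
variable {D F : Type*} [Fintype D] [Fintype F] [DecidableEq F] {α : D → D} {f : D → F}
  {μ w : F → ℕ} {x y : F} {s : F → ℕ}

omit [DecidableEq F] in
theorem sum_ite_range_le (T a c : ℕ) : ∑ t ∈ range T, (if t = a then c else 0) ≤ c := by
  rw [sum_ite_eq']
  split_ifs <;> omega

theorem Ut_card_two {u v : F} (huv : u ≠ v) {t : ℕ} (hu : t < s u) (hv : t < s v) :
    2 ≤ (Ut s t).card := by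
  have : ({u, v} : Finset F) ⊆ Ut s t := by
    intro b hb
    rw [mem_insert, mem_singleton] at hb
    rw [mem_Ut]
    rcases hb with rfl | rfl
    · exact hu
    · exact hv
  have h2 := card_le_card this
  rwa [card_pair huv] at h2

/-- pointwise lower bounds of the level masses, for a pair `u, v` with `s u ≤ s v ≤ s u + w u + 1` -/
theorem pointwise (h : Torso α f μ w) (ht : Times α f w x y s) (hxy : x ≠ y) {u v : F}
    (huv : u ≠ v) (hle : s u ≤ s v) (hadj : s v ≤ s u + w u + 1) {t : ℕ} (htv : t < s v) :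
    4 ≤ Ct μ w s t + (if t = 0 then 2 else 0) + (if t = s u then 1 else 0) := by
  by_cases h0 : t = 0
  · rw [if_pos h0, h0]
    have := Ct_zero_ge h ht hxy
    omega
  · have h1 : 1 ≤ t := by omega
    have hUne : (Ut s t).Nonempty := ⟨v, mem_Ut.2 htv⟩
    rw [if_neg h0]
    rcases lt_trichotomy t (s u) with hlt | heq | hgt
    · have := Ct_ge_four' h ht hxy h1 (Ut_card_two huv hlt htv)
      omega
    · rw [if_pos heq]
      have hD : (Dn s w t).Nonempty := Dn_nonempty_of ht (b := u) (by omega) (by omega)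
      have := Ct_ge_three h ht t hD hUne
      omega
    · have hO : (Old s w t).Nonempty := ⟨u, mem_Old.2 (by omega)⟩
      have := Ct_ge_four_old h ht hxy h1 hUne hO
      omega

/-- if `s u = s v` or `s u = 0` no correction at `s u` is needed -/
theorem pointwise' (h : Torso α f μ w) (ht : Times α f w x y s) (hxy : x ≠ y) {u v : F}
    (huv : u ≠ v) (hle : s u ≤ s v) (hadj : s v ≤ s u + w u + 1) {t : ℕ} (htv : t < s v)
    (hcase : s u = s v ∨ s u = 0) :
    4 ≤ Ct μ w s t + (if t = 0 then 2 else 0) := by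
  have := pointwise h ht hxy huv hle hadj htv
  by_cases h0 : t = 0
  · rw [if_pos h0, h0]
    have := Ct_zero_ge h ht hxy
    omega
  · rw [if_neg (by omega : ¬ t = s u)] at this
    exact this

theorem sum_bound (h : Torso α f μ w) (ht : Times α f w x y s) (hxy : x ≠ y) {u v : F}
    (huv : u ≠ v) (hle : s u ≤ s v) (hadj : s v ≤ s u + w u + 1) :
    4 * s v ≤ ∑ t ∈ range (s v), Ct μ w s t + 3 := by
  have h1 : ∑ t ∈ range (s v), 4 ≤ ∑ t ∈ range (s v),
      (Ct μ w s t + (if t = 0 then 2 else 0) + (if t = s u then 1 else 0)) :=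
    sum_le_sum (fun t ht' => pointwise h ht hxy huv hle hadj (mem_range.1 ht'))
  rw [sum_add_distrib, sum_add_distrib, sum_const, card_range, smul_eq_mul] at h1
  have h2 := sum_ite_range_le (s v) 0 2
  have h3 := sum_ite_range_le (s v) (s u) 1
  omega

theorem sum_bound' (h : Torso α f μ w) (ht : Times α f w x y s) (hxy : x ≠ y) {u v : F}
    (huv : u ≠ v) (hle : s u ≤ s v) (hadj : s v ≤ s u + w u + 1)
    (hcase : s u = s v ∨ s u = 0) :
    4 * s v ≤ ∑ t ∈ range (s v), Ct μ w s t + 2 := by
  have h1 : ∑ t ∈ range (s v), 4 ≤ ∑ t ∈ range (s v),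
      (Ct μ w s t + (if t = 0 then 2 else 0)) :=
    sum_le_sum (fun t ht' => pointwise' h ht hxy huv hle hadj (mem_range.1 ht') hcase)
  rw [sum_add_distrib, sum_const, card_range, smul_eq_mul] at h1
  have h2 := sum_ite_range_le (s v) 0 2
  omega

omit [DecidableEq F] in
theorem rem_self {v : F} : rem μ w s (s v) v = μ v := by simp [rem]

theorem total_pair (hw : ∀ b, 2 * w b ≤ μ b) {u v : F} (huv : u ≠ v) (T : ℕ) :
    ∑ t ∈ range T, Ct μ w s t + rem μ w s T u + rem μ w s T v ≤ ∑ b, μ b := by
  have h1 := total_eq (s := s) hw T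
  have h2 : rem μ w s T u + rem μ w s T v ≤ ∑ b, rem μ w s T b := by
    have := sum_le_sum_of_subset (f := fun b => rem μ w s T b) (subset_univ ({u, v} : Finset F))
    rwa [sum_pair huv] at this
  omega

theorem total_triple (hw : ∀ b, 2 * w b ≤ μ b) {u v b : F} (huv : u ≠ v) (hbu : b ≠ u)
    (hbv : b ≠ v) (T : ℕ) :
    ∑ t ∈ range T, Ct μ w s t + rem μ w s T u + rem μ w s T v + rem μ w s T b
      ≤ ∑ b, μ b := by
  have h1 := total_eq (s := s) hw T
  have h2 : rem μ w s T b + (rem μ w s T u + rem μ w s T v) ≤ ∑ b, rem μ w s T b := by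
    have := sum_le_sum_of_subset (f := fun b => rem μ w s T b)
      (subset_univ ({b, u, v} : Finset F))
    rwa [sum_insert (by simp [hbu, hbv]), sum_pair huv] at this
  omega

theorem Torso.hw (h : Torso α f μ w) (hF : 2 ≤ Fintype.card F) (b : F) : 2 * w b + 1 ≤ μ b := by
  obtain ⟨c, hc⟩ := Fintype.exists_ne_of_one_lt_card (by omega) b
  exact h.two_w_lt hc

/-- **The main inequality** (oriented version). -/
theorem bound_le (h : Torso α f μ w) (ht : Times α f w x y s) (hxy : x ≠ y) {u v : F}
    (huv : u ≠ v) (hle : s u ≤ s v) (hadj : s v ≤ s u + w u + 1) :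
    2 * (s u + w u + s v + w v) + (if s u = 0 then 1 else 0) ≤ ∑ b, μ b := by
  have hw : ∀ b, 2 * w b ≤ μ b := by
    intro b
    by_cases hb : b = x
    · subst hb
      have := h.two_w_lt (b := b) (c := y) hxy.symm
      omega
    · have := h.two_w_lt (b := b) (c := x) (Ne.symm hb)
      omega
  have h1 := total_pair (s := s) hw huv (s v)
  rw [rem_self] at h1
  have hv := h.two_w_lt huv
  have hu := h.two_w_lt huv.symm
  rcases Nat.lt_or_ge (s u) (s v) with hlt | hge
  · have hr : rem μ w s (s v) u = 2 * (s u + w u + 1 - s v) := by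
      unfold rem; rw [if_neg (by omega)]
    rw [hr] at h1
    by_cases h0 : s u = 0
    · rw [if_pos h0]
      have h2 := sum_bound' h ht hxy huv hle hadj (Or.inr h0)
      omega
    · rw [if_neg h0]
      have h2 := sum_bound h ht hxy huv hle hadj
      omega
  · have heq : s u = s v := le_antisymm hle hge
    have hr : rem μ w s (s v) u = μ u := by
      unfold rem; rw [if_pos (by omega)]
    rw [hr] at h1
    have h2 := sum_bound' h ht hxy huv hle hadj (Or.inl heq)
    by_cases h0 : s u = 0
    · rw [if_pos h0]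
      omega
    · rw [if_neg h0]
      omega

theorem bound_dart (h : Torso α f μ w) (ht : Times α f w x y s) (hxy : x ≠ y) (d : D)
    (hd : f d ≠ f (α d)) :
    2 * (s (f d) + w (f d) + s (f (α d)) + w (f (α d))) ≤ ∑ b, μ b := by
  have h1 := ht.le d
  have h2 := ht.le (α d)
  rw [h.inv] at h2
  rcases le_total (s (f d)) (s (f (α d))) with hle | hle
  · have := bound_le h ht hxy hd hle h2
    omega
  · have := bound_le h ht hxy hd.symm hle h1
    omega

end

end Pool.Agent.Helper11.Stc
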