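import Pool.Agent.Helper11.Stc.Bound

set_option autoImplicit false

namespace Pool.Agent.Helper11.Stc

open Finset

section
variable {D F : Type*} [Fintype D] [Fintype F] [DecidableEq F] {α : D → D} {f : D → F}
  {μ w : F → ℕ} {x y : F} {s : F → ℕ}

/-- first consequences of equality in the main inequality -/
structure Crit (μ w s : F → ℕ) (x y u v : F) : Prop where
  pos : 1 ≤ s u
  pt : ∀ t, t < s v → Ct μ w s t + (if t = 0 then 2 else 0) + (if t = s u then 1 else 0) = 4
  remz : ∀ b, b ≠ u → b ≠ v → rem μ w s (s v) b = 0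
  muv : μ v = 2 * w v + 1
  muu : s u = s v → μ u = 2 * w u + 1
  mux : μ x = 2 * w x + 1
  muy : μ y = 2 * w y + 1

theorem crit_of_eq (h : Torso α f μ w) (ht : Times α f w x y s) (hxy : x ≠ y) {u v : F}
    (huv : u ≠ v) (hle : s u ≤ s v) (hadj : s v ≤ s u + w u + 1)
    (heq : 2 * (s u + w u + s v + w v) = ∑ b, μ b) : Crit μ w s x y u v := by
  have hw : ∀ b, 2 * w b ≤ μ b := by
    intro b
    by_cases hb : b = x
    · subst hb
      have := h.two_w_lt (b := b) (c := y) hxy.symm
      omega
    · have := h.two_w_lt (b := b) (c := x) (Ne.symm hb)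
      omega
  have hb := bound_le h ht hxy huv hle hadj
  have hpos : 1 ≤ s u := by
    by_contra hcon
    rw [if_pos (by omega)] at hb
    omega
  have hv := h.two_w_lt huv
  have hu := h.two_w_lt huv.symm
  have htot := total_eq (s := s) hw (s v)
  have hpair := total_pair (s := s) hw huv (s v)
  rw [rem_self] at hpair
  -- the sum of corrected level masses is at most `4 * s v`
  have key : ∑ t ∈ range (s v), (Ct μ w s t + (if t = 0 then 2 else 0)
      + (if t = s u then 1 else 0)) ≤ 4 * s v ∧
      (∀ b, b ≠ u → b ≠ v → rem μ w s (s v) b = 0) ∧ μ v = 2 * w v + 1 ∧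
      (s u = s v → μ u = 2 * w u + 1) := by
    rw [sum_add_distrib, sum_add_distrib]
    have h2 := sum_ite_range_le (s v) 0 2
    have h3 := sum_ite_range_le (s v) (s u) 1
    rcases Nat.lt_or_ge (s u) (s v) with hlt | hge
    · have hr : rem μ w s (s v) u = 2 * (s u + w u + 1 - s v) := by
        unfold rem; rw [if_neg (by omega)]
      rw [hr] at hpair
      have h4 := sum_bound h ht hxy huv hle hadj
      refine ⟨by omega, ?_, by omega, by omega⟩
      intro b hbu hbv
      have h5 := total_triple (s := s) hw huv hbu hbv (s v)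
      rw [rem_self, hr] at h5
      omega
    · have heq' : s u = s v := le_antisymm hle hge
      have hr : rem μ w s (s v) u = μ u := by
        unfold rem; rw [if_pos (by omega)]
      rw [hr] at hpair
      have h4 := sum_bound' h ht hxy huv hle hadj (Or.inl heq')
      have h3' : ∑ t ∈ range (s v), (if t = s u then 1 else 0) = 0 := by
        apply sum_eq_zero
        intro t ht'
        rw [mem_range] at ht'
        rw [if_neg (by omega)]
      rw [h3']
      refine ⟨by omega, ?_, by omega, by omega⟩
      intro b hbu hbv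
      have h5 := total_triple (s := s) hw huv hbu hbv (s v)
      rw [rem_self, hr] at h5
      omega
  obtain ⟨k1, k2, k3, k4⟩ := key
  have hpt : ∀ t ∈ range (s v), 4 = Ct μ w s t + (if t = 0 then 2 else 0)
      + (if t = s u then 1 else 0) := by
    have hle' : ∀ t ∈ range (s v), 4 ≤ Ct μ w s t + (if t = 0 then 2 else 0)
      + (if t = s u then 1 else 0) := fun t ht' =>
        pointwise h ht hxy huv hle hadj (mem_range.1 ht')
    have hsum : ∑ t ∈ range (s v), 4 = ∑ t ∈ range (s v), (Ct μ w s t + (if t = 0 then 2 else 0)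
      + (if t = s u then 1 else 0)) := by
      apply le_antisymm (sum_le_sum hle')
      rw [sum_const, card_range, smul_eq_mul]
      omega
    exact (sum_eq_sum_iff_of_le hle').1 hsum
  have hC0 : Ct μ w s 0 = 2 := by
    have := hpt 0 (by rw [mem_range]; omega)
    rw [if_pos rfl, if_neg (by omega)] at this
    omega
  have hroots : μ x = 2 * w x + 1 ∧ μ y = 2 * w y + 1 := by
    have hsub := sum_le_sum_of_subset (f := fun b => con μ w s b 0)
      (subset_univ ({x, y} : Finset F))
    rw [sum_pair hxy] at hsub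
    unfold Ct at hC0
    rw [hC0] at hsub
    unfold con at hsub
    rw [if_pos ht.zx, if_pos ht.zy] at hsub
    have h1 := h.two_w_lt (b := x) (c := y) hxy.symm
    have h2 := h.two_w_lt (b := y) (c := x) hxy
    omega
  exact ⟨hpos, fun t ht' => (hpt t (mem_range.2 ht')).symm, k2, k3, k4, hroots.1, hroots.2⟩

/-- in a critical configuration all blobs are among `x, y, u, v` -/
theorem Crit.w_zero (h : Torso α f μ w) (ht : Times α f w x y s) (hxy : x ≠ y) {u v : F}
    (huv : u ≠ v) (hadj : s v ≤ s u + w u + 1)
    (hc : Crit μ w s x y u v) (b : F) (hbx : b ≠ x) (hby : b ≠ y) (hbu : b ≠ u) (hbv : b ≠ v) :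
    w b = 0 := by
  by_contra hwb
  have hsb := s_pos ht hbx hby
  have hr := hc.remz b hbu hbv
  have hμ := h.two_w_lt (b := b) (c := x) hbx.symm
  have hlt : s b + w b < s v := by
    unfold rem at hr
    split_ifs at hr
    · omega
    · omega
  set t := s b + 1 with htdef
  have htv : t < s v := by omega
  have hUne : (Ut s t).Nonempty := ⟨v, mem_Ut.2 htv⟩
  have hbO : b ∈ Old s w t := mem_Old.2 (by omega)
  have hD : (Dn s w t).Nonempty := Dn_nonempty_of ht hsb (by omega)
  have h3 := Ct_ge_three h ht t hD hUne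
  have hO1 : 1 ≤ (Old s w t).card := card_pos.2 ⟨b, hbO⟩
  have hpt := hc.pt t htv
  rw [if_neg (by omega : ¬ t = 0)] at hpt
  by_cases htu : t = s u
  · rw [if_pos htu] at hpt
    omega
  · rw [if_neg htu] at hpt
    have hO : (Old s w t).card = 1 := by omega
    have huniq : ∀ c ∈ Old s w t, c = b := by
      intro c hc'
      exact card_le_one.1 hO.le c hc' b hbO
    by_cases hD2 : 2 ≤ (Dn s w t).card
    · by_cases hU2 : 2 ≤ (Ut s t).card
      · have := Ct_ge_four h ht t hD2 hU2
        omega
      · have hu : ¬ t < s u := by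
          intro hcon
          exact hU2 (Ut_card_two huv hcon htv)
        have : u ∈ Old s w t := mem_Old.2 (by omega)
        exact hbu (huniq u this).symm
    · obtain ⟨r, hr, hrxy⟩ := Old_of_card_Dn ht hxy (by omega) (by omega : (Dn s w t).card ≤ 1)
      have := huniq r hr
      rcases hrxy with h1 | h1
      · exact hbx (this ▸ h1)
      · exact hby (this ▸ h1)

/-- the critical level when `s u < s v` -/
theorem Crit.level (h : Torso α f μ w) (ht : Times α f w x y s) (hxy : x ≠ y) {u v : F}
    (hlt : s u < s v) (hc : Crit μ w s x y u v) :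
    Old s w (s u) = ∅ ∧ 2 ≤ (Dn s w (s u)).card ∧
    (∑ b ∈ Xt s w (s u), ((cutD α f {b}).card - 2) = 3) ∧ (∀ b, s u < s b → b = v) ∧
    (∀ b, s b = s u → 2 ≤ (univ.filter (fun d => f d = b ∧ f (α d) ∈ Dn s w (s u))).card) := by
  have hpos := hc.pos
  have hpt := hc.pt (s u) hlt
  rw [if_neg (by omega), if_pos rfl] at hpt
  have hUne : (Ut s (s u)).Nonempty := ⟨v, mem_Ut.2 hlt⟩
  have hD : (Dn s w (s u)).Nonempty := Dn_nonempty_of ht hpos le_rfl
  have h3 := Ct_ge_three h ht (s u) hD hUne
  have hO : Old s w (s u) = ∅ := by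
    rw [← card_eq_zero]; omega
  have hD2 : 2 ≤ (Dn s w (s u)).card := by
    by_contra hcon
    obtain ⟨r, hr, _⟩ := Old_of_card_Dn ht hxy hpos (by omega : (Dn s w (s u)).card ≤ 1)
    rw [hO] at hr
    simp at hr
  have hlc := level_cut h ht (s u) hD hUne
  have hge := Ct_ge (s := s) h (s u)
  set S := Dn s w (s u) ∪ (Xt s w (s u)).filter
        (fun b => 2 ≤ (univ.filter (fun d => f d = b ∧ f (α d) ∈ Dn s w (s u))).card) with hS
  have hvS : v ∉ S := by
    intro hv
    rw [hS, mem_union, mem_Dn, mem_filter, mem_Xt] at hv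
    omega
  have hne : S.Nonempty := hD.mono subset_union_left
  have hnu : S ≠ univ := by
    intro hu
    exact hvS (by rw [hu]; exact mem_univ v)
  have h3' := h.three S hne hnu
  have h4 : (cutD α f S).card = 3 := by omega
  have hsub : Dn s w (s u) ⊆ S := subset_union_left
  have hcS : Sᶜ.card = 1 := by
    rcases h.torso S hne hnu h4 with h5 | h5
    · have := card_le_card hsub
      omega
    · exact h5
  have hSv : ∀ b, b ∉ S → b = v := by
    intro b hb
    exact card_le_one.1 hcS.le b (mem_compl.2 hb) v (mem_compl.2 hvS)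
  refine ⟨hO, hD2, by omega, ?_, ?_⟩
  · intro b hb
    apply hSv
    intro hbS
    rw [hS, mem_union, mem_Dn, mem_filter, mem_Xt] at hbS
    omega
  · intro b hb
    by_contra hcon
    have hbS : b ∉ S := by
      intro hbS
      rw [hS, mem_union, mem_Dn, mem_filter, mem_Xt] at hbS
      rcases hbS with hbS | hbS
      · omega
      · exact hcon hbS.2
    have := hSv b hbS
    rw [this] at hb
    omega

end

end Pool.Agent.Helper11.Stc
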