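import Mathlib

set_option autoImplicit false

/-!
# Spanning tree congestion of planar graphs: definitions

`IsPlanarMap`: planarity through a rotation system of Euler genus `0`.
`cng`, `ec`, `stc`: congestion of an edge, of a spanning tree, spanning tree congestion.
`cutD`, `deg`, `MG`, `Torso`: multigraphs given by darts (used for the dual graph).
-/

namespace Pool.Agent.Helper11.Stc

open Finset

universe u

/-- `G` is planar: it has a rotation system `σ` (a permutation of the darts that cyclically permutes
the darts with a given tail) whose faces (the orbits of `σ ∘ reverse`) satisfy Euler's formula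
`V - E + F = 2`. -/
def IsPlanarMap {V : Type*} (G : SimpleGraph V) : Prop :=
  ∃ σ : Equiv.Perm G.Dart,
    (∀ d : G.Dart, (σ d).fst = d.fst) ∧
    (∀ d d' : G.Dart, d.fst = d'.fst → σ.SameCycle d d') ∧
    (Nat.card V : ℤ) - (Nat.card G.edgeSet : ℤ)
      + (Nat.card (Quotient (Equiv.Perm.SameCycle.setoid
          (σ * Function.Involutive.toPerm SimpleGraph.Dart.symm
            SimpleGraph.Dart.symm_involutive))) : ℤ) = 2

/-- congestion of the edge `ab` of `T`: the number of edges of `G` having one end in each of the two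
components of `T - ab`. -/
noncomputable def cng {V : Type*} (G T : SimpleGraph V) (a b : V) : ℕ :=
  Set.ncard {e : Sym2 V | e ∈ G.edgeSet ∧ ∃ x y, e = s(x, y) ∧
    (T.deleteEdges {s(a, b)}).Reachable a x ∧ (T.deleteEdges {s(a, b)}).Reachable b y}

/-- congestion of the spanning tree `T`: the maximum of the congestions of its edges. -/
noncomputable def ec {V : Type*} (G T : SimpleGraph V) : ℕ :=
  sSup {c : ℕ | ∃ a b, T.Adj a b ∧ c = cng G T a b}

/-- spanning tree congestion of `G`: the minimum of the congestions of its spanning trees. -/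
noncomputable def stc {V : Type*} (G : SimpleGraph V) : ℕ :=
  sInf {c : ℕ | ∃ T : SimpleGraph V, T ≤ G ∧ T.IsTree ∧ c = ec G T}

theorem ec_le {V : Type*} {G T : SimpleGraph V} {k : ℕ}
    (h : ∀ a b, T.Adj a b → cng G T a b ≤ k) : ec G T ≤ k := by
  unfold ec
  rcases Set.eq_empty_or_nonempty {c : ℕ | ∃ a b, T.Adj a b ∧ c = cng G T a b} with h0 | h0
  · rw [h0]; simp
  · refine csSup_le h0 ?_
    rintro c ⟨a, b, hab, rfl⟩
    exact h a b hab

theorem stc_le {V : Type*} {G T : SimpleGraph V} {k : ℕ} (hT : T ≤ G) (htree : T.IsTree)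
    (h : ∀ a b, T.Adj a b → cng G T a b ≤ k) : stc G ≤ k := by
  refine le_trans (Nat.sInf_le (m := ec G T) ?_) (ec_le h)
  exact ⟨T, hT, htree, rfl⟩

theorem cng_le_card {V : Type*} [Finite V] (G T : SimpleGraph V) (a b : V) :
    cng G T a b ≤ Nat.card G.edgeSet := by
  unfold cng
  rw [Nat.card_coe_set_eq]
  exact Set.ncard_le_ncard (fun e he => he.1) (Set.toFinite _)

theorem le_stc {V : Type*} [Finite V] {G : SimpleGraph V} {k : ℕ}
    (hex : ∃ T : SimpleGraph V, T ≤ G ∧ T.IsTree)
    (h : ∀ T : SimpleGraph V, T ≤ G → T.IsTree → ∃ a b, T.Adj a b ∧ k ≤ cng G T a b) :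
    k ≤ stc G := by
  obtain ⟨T0, hT0, hT0t⟩ := hex
  refine le_csInf ⟨_, T0, hT0, hT0t, rfl⟩ ?_
  rintro c ⟨T, hT, hTt, rfl⟩
  obtain ⟨a, b, hab, hk⟩ := h T hT hTt
  refine hk.trans ?_
  refine le_csSup ⟨Nat.card G.edgeSet, ?_⟩ ⟨a, b, hab, rfl⟩
  rintro c ⟨a, b, _, rfl⟩
  exact cng_le_card G T a b

/-! ### Multigraphs given by darts

`D` is the type of darts, `α : D → D` the reversal, `f : D → F` sends a dart to its origin. -/

section MG

variable {D F : Type*} [Fintype D] [Fintype F] [DecidableEq F]

/-- darts leaving the vertex set `S` (in bijection with the edges of the cut of `S`) -/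
def cutD (α : D → D) (f : D → F) (S : Finset F) : Finset D :=
  univ.filter (fun d => f d ∈ S ∧ f (α d) ∉ S)

/-- number of darts at `x` (loops count twice) -/
def deg (f : D → F) (x : F) : ℕ := (univ.filter (fun d => f d = x)).card

/-- a 3-edge-connected multigraph -/
structure MG (α : D → D) (f : D → F) : Prop where
  inv : ∀ d, α (α d) = d
  ne : ∀ d, α d ≠ d
  three : ∀ S : Finset F, S.Nonempty → S ≠ univ → 3 ≤ (cutD α f S).card

/-- a 3-edge-connected multigraph with masses `μ` and weights `w` and without nontrivial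
3-edge-cuts -/
structure Torso (α : D → D) (f : D → F) (μ w : F → ℕ) : Prop extends MG α f where
  mass : ∀ b, (cutD α f {b}).card + 2 * w b ≤ μ b + 2
  blob : ∀ b, 0 < w b → (cutD α f {b}).card = 3
  torso : ∀ S : Finset F, S.Nonempty → S ≠ univ → (cutD α f S).card = 3 →
    S.card = 1 ∨ Sᶜ.card = 1

end MG

/-! ### Faces of a rotation system -/

/-- the face permutation of a rotation system -/
def facePerm {V : Type u} {G : SimpleGraph V} (σ : Equiv.Perm G.Dart) : Equiv.Perm G.Dart :=
  σ * Function.Involutive.toPerm SimpleGraph.Dart.symm SimpleGraph.Dart.symm_involutive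

/-- the faces of a rotation system -/
abbrev Faces {V : Type u} {G : SimpleGraph V} (σ : Equiv.Perm G.Dart) : Type u :=
  Quotient (Equiv.Perm.SameCycle.setoid (facePerm σ))

/-- the face of a dart -/
def face {V : Type u} {G : SimpleGraph V} (σ : Equiv.Perm G.Dart) (d : G.Dart) : Faces σ :=
  Quotient.mk _ d

/-! ### The bipyramid over the cycle `C_m` -/

/-- the bipyramid (double wheel) over the cycle of length `m`: rim `ZMod m`, poles `Bool`. -/
def bipyr (m : ℕ) : SimpleGraph (ZMod m ⊕ Bool) :=
  SimpleGraph.fromRel (fun p q => match p, q with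
    | Sum.inl i, Sum.inl j => j = i + 1
    | Sum.inl _, Sum.inr _ => True
    | _, _ => False)

end Pool.Agent.Helper11.Stc
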