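import Pool.Agent.Helper11.Stc.Defs

set_option autoImplicit false

namespace Pool.Agent.Helper11.Stc

open Finset

section
variable {D F : Type*} [Fintype D] [Fintype F] [DecidableEq F] {α : D → D} {f : D → F}

omit [Fintype F] in
theorem mem_cutD {S : Finset F} {d : D} : d ∈ cutD α f S ↔ f d ∈ S ∧ f (α d) ∉ S := by
  simp [cutD]

theorem MG.inj (h : MG α f) : Function.Injective α := by
  intro a b hab
  have := congrArg α hab
  rwa [h.inv, h.inv] at this

theorem MG.three_singleton (h : MG α f) {b c : F} (hbc : c ≠ b) : 3 ≤ (cutD α f {b}).card := by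
  apply h.three _ (singleton_nonempty b)
  intro hu
  have : c ∈ ({b} : Finset F) := by rw [hu]; exact mem_univ c
  exact hbc (mem_singleton.1 this)

/-- darts at `b` going to `P` -/
def toP (α : D → D) (f : D → F) (P : Finset F) (b : F) : Finset D :=
  univ.filter (fun d => f d = b ∧ f (α d) ∈ P)

/-- **Level lemma.** -/
theorem level_lemma {D F : Type*} [Fintype D] [Fintype F] [DecidableEq F]
    {α : D → D} {f : D → F} (h : MG α f)
    (P X U : Finset F) (hP : P.Nonempty) (_hU : U.Nonempty) (hPX : Disjoint P X)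
    (_hPU : Disjoint P U) (_hXU : Disjoint X U) (huniv : P ∪ X ∪ U = univ)
    (hno : ∀ d, f d ∈ P → f (α d) ∉ U) :
    (cutD α f (P ∪ X.filter
        (fun b => 2 ≤ (univ.filter (fun d => f d = b ∧ f (α d) ∈ P)).card))).card
      ≤ ∑ b ∈ X, ((cutD α f {b}).card - 2) := by
  classical
  set W := X.filter (fun b => 2 ≤ (univ.filter (fun d => f d = b ∧ f (α d) ∈ P)).card) with hW
  have hWX : W ⊆ X := filter_subset _ _
  have h3 : ∀ b ∈ X, 3 ≤ (cutD α f {b}).card := by
    intro b hb
    obtain ⟨p, hp⟩ := hP
    apply h.three_singleton (c := p)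
    rintro rfl
    exact (Finset.disjoint_left.1 hPX hp hb)
  -- split the cut
  have hsplit : cutD α f (P ∪ W) ⊆
      ((univ : Finset D).filter (fun d => f d ∈ P ∧ f (α d) ∈ X \ W)) ∪
      ((univ : Finset D).filter (fun d => f d ∈ W ∧ f (α d) ∉ P ∪ W)) := by
    intro d hd
    rw [mem_cutD] at hd
    rw [mem_union, mem_filter, mem_filter]
    rcases mem_union.1 hd.1 with hdP | hdW
    · left
      refine ⟨mem_univ _, hdP, ?_⟩
      have h1 : f (α d) ∈ P ∪ X ∪ U := by rw [huniv]; exact mem_univ _
      have h2 := hno d hdP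
      have h3 := hd.2
      simp only [mem_union, not_or] at h1 h3
      rw [mem_sdiff]
      tauto
    · right
      exact ⟨mem_univ _, hdW, hd.2⟩
  have hA : ((univ : Finset D).filter (fun d => f d ∈ P ∧ f (α d) ∈ X \ W)).card
      ≤ ∑ b ∈ X \ W, ((cutD α f {b}).card - 2) := by
    have e1 : ((univ : Finset D).filter (fun d => f d ∈ P ∧ f (α d) ∈ X \ W)).card
        ≤ ((univ : Finset D).filter (fun d => f d ∈ X \ W ∧ f (α d) ∈ P)).card := by
      apply card_le_card_of_injOn α
      · intro d hd
        simp only [coe_filter, mem_univ, true_and, Set.mem_setOf_eq] at hd ⊢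
        rw [h.inv]
        exact ⟨hd.2, hd.1⟩
      · exact h.inj.injOn
    have e2 : ((univ : Finset D).filter (fun d => f d ∈ X \ W ∧ f (α d) ∈ P)).card
        = ∑ b ∈ X \ W, (((univ : Finset D).filter (fun d => f d ∈ X \ W ∧ f (α d) ∈ P)).filter
            (fun d => f d = b)).card := by
      apply card_eq_sum_card_fiberwise
      intro d hd
      simp only [coe_filter, mem_univ, true_and, Set.mem_setOf_eq] at hd
      exact hd.1
    rw [e2] at e1
    refine e1.trans (sum_le_sum ?_)
    intro b hb
    have hb' := mem_sdiff.1 hb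
    have hlt : (univ.filter (fun d => f d = b ∧ f (α d) ∈ P)).card < 2 := by
      by_contra hcon
      apply hb'.2
      rw [hW, mem_filter]
      exact ⟨hb'.1, by omega⟩
    have hle : (((univ : Finset D).filter (fun d => f d ∈ X \ W ∧ f (α d) ∈ P)).filter
            (fun d => f d = b)).card ≤ (univ.filter (fun d => f d = b ∧ f (α d) ∈ P)).card := by
      apply card_le_card
      intro d hd
      simp only [mem_filter, mem_univ, true_and] at hd ⊢
      exact ⟨hd.2, hd.1.2⟩
    have := h3 b hb'.1
    omega
  have hB : ((univ : Finset D).filter (fun d => f d ∈ W ∧ f (α d) ∉ P ∪ W)).card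
      ≤ ∑ b ∈ W, ((cutD α f {b}).card - 2) := by
    have e2 : ((univ : Finset D).filter (fun d => f d ∈ W ∧ f (α d) ∉ P ∪ W)).card
        = ∑ b ∈ W, (((univ : Finset D).filter (fun d => f d ∈ W ∧ f (α d) ∉ P ∪ W)).filter
            (fun d => f d = b)).card := by
      apply card_eq_sum_card_fiberwise
      intro d hd
      simp only [coe_filter, mem_univ, true_and, Set.mem_setOf_eq] at hd
      exact hd.1
    rw [e2]
    apply sum_le_sum
    intro b hb
    have hbX := hWX hb
    have hb2 : 2 ≤ (univ.filter (fun d => f d = b ∧ f (α d) ∈ P)).card := by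
      rw [hW, mem_filter] at hb
      exact hb.2
    have hdisj : Disjoint (((univ : Finset D).filter (fun d => f d ∈ W ∧ f (α d) ∉ P ∪ W)).filter
            (fun d => f d = b)) (univ.filter (fun d => f d = b ∧ f (α d) ∈ P)) := by
      rw [Finset.disjoint_left]
      intro d hd hd'
      simp only [mem_filter, mem_univ, true_and, mem_union, not_or] at hd hd'
      exact hd.1.2.1 hd'.2
    have hsub : (((univ : Finset D).filter (fun d => f d ∈ W ∧ f (α d) ∉ P ∪ W)).filter
            (fun d => f d = b)) ∪ (univ.filter (fun d => f d = b ∧ f (α d) ∈ P))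
            ⊆ cutD α f {b} := by
      intro d hd
      rw [mem_cutD]
      simp only [mem_filter, mem_univ, true_and, mem_union, not_or, mem_singleton] at hd ⊢
      rcases hd with hd | hd
      · refine ⟨hd.2, ?_⟩
        intro hh
        exact hd.1.2.2 (hh ▸ hb)
      · refine ⟨hd.1, ?_⟩
        intro hh
        rw [hh] at hd
        exact Finset.disjoint_left.1 hPX hd.2 hbX
    have hcard := card_le_card hsub
    rw [card_union_of_disjoint hdisj] at hcard
    omega
  calc (cutD α f (P ∪ W)).card ≤ _ := card_le_card hsplit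
    _ ≤ _ + _ := card_union_le _ _
    _ ≤ ∑ b ∈ X \ W, ((cutD α f {b}).card - 2) + ∑ b ∈ W, ((cutD α f {b}).card - 2) :=
        Nat.add_le_add hA hB
    _ = ∑ b ∈ X, ((cutD α f {b}).card - 2) := sum_sdiff hWX

end

end Pool.Agent.Helper11.Stc
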