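import Mathlib
import Pool.Agent.Helper11.Stc.Defs
import Pool.Agent.Helper11.Stc.Level

set_option autoImplicit false

/-!
# Breadth first depth inside one side of a cut with three edges
-/

namespace Pool.Agent.Helper11.Stc

open Finset

section

variable {D F : Type*} [Fintype D] [Fintype F] [DecidableEq F]

/-- the simple graph inside `A` -/
def inA (α : D → D) (f : D → F) (A : Finset F) (h : ∀ d, α (α d) = d) : SimpleGraph F where
  Adj x y := x ≠ y ∧ x ∈ A ∧ y ∈ A ∧ ∃ d, f d = x ∧ f (α d) = y
  symm := ⟨by
    rintro x y ⟨h1, h2, h3, d, h4, h5⟩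
    exact ⟨h1.symm, h3, h2, α d, h5, by rw [h d]; exact h4⟩⟩
  loopless := ⟨fun x hx => hx.1 rfl⟩

/-- contraction of the complement of `A` -/
def contr (A : Finset F) (x : F) : Option {x // x ∈ A} :=
  if h : x ∈ A then some ⟨x, h⟩ else none

lemma contr_mem {A : Finset F} {x : F} (h : x ∈ A) : contr A x = some ⟨x, h⟩ := by
  simp [contr, h]

lemma contr_not_mem {A : Finset F} {x : F} (h : x ∉ A) : contr A x = none := by
  simp [contr, h]

lemma cutD_contr (α : D → D) (f : D → F) (A : Finset F) (S : Finset (Option {x // x ∈ A})) :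
    cutD α (fun d => contr A (f d)) S
      = cutD α f (univ.filter (fun x => contr A x ∈ S)) := by
  ext d
  simp [cutD]

lemma MG_contr {α : D → D} {f : D → F} (h : MG α f) {A : Finset F} (hA : ∃ o, o ∉ A) :
    MG α (fun d => contr A (f d)) := by
  refine ⟨h.inv, h.ne, ?_⟩
  intro S hS1 hS2
  rw [cutD_contr]
  have hsurj : ∀ b : Option {x // x ∈ A}, ∃ x, contr A x = b := by
    intro b
    rcases b with _ | ⟨x, hx⟩
    · obtain ⟨o, ho⟩ := hA
      exact ⟨o, contr_not_mem ho⟩
    · exact ⟨x, contr_mem hx⟩
  apply h.three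
  · obtain ⟨b, hb⟩ := hS1
    obtain ⟨x, hx⟩ := hsurj b
    exact ⟨x, by rw [mem_filter]; exact ⟨mem_univ _, by rw [hx]; exact hb⟩⟩
  · intro hu
    apply hS2
    ext b
    obtain ⟨x, hx⟩ := hsurj b
    have : x ∈ univ.filter (fun x => contr A x ∈ S) := by rw [hu]; exact mem_univ _
    rw [mem_filter, hx] at this
    exact ⟨fun _ => mem_univ _, fun _ => this.2⟩

lemma cutD_compl_card {α : D → D} {f : D → F} (h : ∀ d, α (α d) = d) (S : Finset F) :
    (cutD α f Sᶜ).card = (cutD α f S).card := by
  apply card_bij' (fun d _ => α d) (fun d _ => α d)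
  · intro d hd
    simp only [cutD, mem_filter, mem_univ, true_and, mem_compl, not_not] at hd ⊢
    rw [h d]
    exact ⟨hd.2, hd.1⟩
  · intro d hd
    simp only [cutD, mem_filter, mem_univ, true_and, mem_compl, not_not] at hd ⊢
    rw [h d]
    exact ⟨hd.2, hd.1⟩
  · intro d _
    exact h d
  · intro d _
    exact h d

lemma cutD_singleton_le (α : D → D) (f : D → F) (x : F) :
    (cutD α f {x}).card ≤ deg f x := by
  apply card_le_card
  intro d hd
  simp only [cutD, mem_filter, mem_univ, true_and, mem_singleton] at hd ⊢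
  exact hd.1

/-- `A` is connected inside. -/
lemma inA_reachable {α : D → D} {f : D → F} (h : MG α f) {A : Finset F}
    (hA : (cutD α f A).card = 3) {a : F} (ha : a ∈ A) :
    ∀ x ∈ A, (inA α f A h.inv).Reachable a x := by
  classical
  by_contra hcon
  push Not at hcon
  obtain ⟨x, hx, hxr⟩ := hcon
  set B := A.filter (fun y => (inA α f A h.inv).Reachable a y) with hB
  have haB : a ∈ B := by rw [hB, mem_filter]; exact ⟨ha, SimpleGraph.Reachable.refl _⟩
  have hxB : x ∉ B := by rw [hB, mem_filter]; exact fun h => hxr h.2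
  have hxC : x ∈ A \ B := by rw [mem_sdiff]; exact ⟨hx, hxB⟩
  have haC : a ∉ A \ B := by rw [mem_sdiff]; exact fun h => h.2 haB
  have h1 := h.three B ⟨a, haB⟩ (by intro hu; rw [hu] at hxB; exact hxB (mem_univ _))
  have h2 := h.three (A \ B) ⟨x, hxC⟩ (by intro hu; rw [hu] at haC; exact haC (mem_univ _))
  have hno : ∀ d, f d ∈ B → f (α d) ∈ A → f (α d) ∈ B := by
    intro d hd hd2
    rw [hB, mem_filter] at hd ⊢
    refine ⟨hd2, ?_⟩
    by_cases heq : f d = f (α d)
    · rw [← heq]; exact hd.2
    · have hadj : (inA α f A h.inv).Adj (f d) (f (α d)) := ⟨heq, hd.1, hd2, d, rfl, rfl⟩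
      exact hd.2.trans hadj.reachable
  have hsub : cutD α f B ∪ cutD α f (A \ B) ⊆ cutD α f A := by
    intro d hd
    rw [mem_union, mem_cutD, mem_cutD] at hd
    rw [mem_cutD]
    rcases hd with ⟨h3, h4⟩ | ⟨h3, h4⟩
    · have h5 : f d ∈ A := (mem_filter.1 h3).1
      exact ⟨h5, fun h6 => h4 (hno d h3 h6)⟩
    · rw [mem_sdiff] at h3 h4
      refine ⟨h3.1, fun h6 => ?_⟩
      have h7 : f (α d) ∈ B := by
        by_contra h8
        exact h4 ⟨h6, h8⟩
      apply h3.2
      have := hno (α d) h7 (by rw [h.inv d]; exact h3.1)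
      rw [h.inv d] at this
      exact this
  have hdis : Disjoint (cutD α f B) (cutD α f (A \ B)) := by
    rw [Finset.disjoint_left]
    intro d h3 h4
    rw [mem_cutD] at h3 h4
    exact (mem_sdiff.1 h4.1).2 h3.1
  have h3 := card_le_card hsub
  rw [card_union_of_disjoint hdis, hA] at h3
  omega

/-- The mass of an inner level. -/
lemma level_mass {α : D → D} {f : D → F} (h : MG α f) {A : Finset F}
    (hA : (cutD α f A).card = 3) (r : F → ℕ)
    (hr : ∀ d, f d ∈ A → f (α d) ∈ A → r (f (α d)) ≤ r (f d) + 1)
    (i : ℕ) (hlo : ∃ x ∈ A, r x < i) (hhi : ∃ x ∈ A, i < r x) :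
    2 ≤ ∑ x ∈ A.filter (fun x => r x = i), (deg f x - 2) := by
  classical
  have hout : ∃ o, o ∉ A := by
    have : (cutD α f A).Nonempty := by rw [← card_pos]; omega
    obtain ⟨d, hd⟩ := this
    exact ⟨_, (mem_cutD.1 hd).2⟩
  have hMG := MG_contr h hout
  set f' : D → Option {x // x ∈ A} := fun d => contr A (f d) with hf'
  set ρ : Option {x // x ∈ A} → ℕ := fun b => b.elim i (fun x => r x.1) with hρ
  set P : Finset (Option {x // x ∈ A}) := univ.filter (fun b => ρ b < i) with hP
  set X : Finset (Option {x // x ∈ A}) := univ.filter (fun b => ρ b = i) with hX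
  set U : Finset (Option {x // x ∈ A}) := univ.filter (fun b => i < ρ b) with hU
  obtain ⟨x1, hx1, hx1r⟩ := hlo
  obtain ⟨x2, hx2, hx2r⟩ := hhi
  have hlev := level_lemma hMG P X U ⟨some ⟨x1, hx1⟩, by simp [hP, hρ, hx1r]⟩
    ⟨some ⟨x2, hx2⟩, by simp [hU, hρ, hx2r]⟩
    (by
      rw [Finset.disjoint_left]
      intro b h1 h2
      rw [hP, mem_filter] at h1
      rw [hX, mem_filter] at h2
      omega)
    (by
      rw [Finset.disjoint_left]
      intro b h1 h2
      rw [hP, mem_filter] at h1
      rw [hU, mem_filter] at h2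
      omega)
    (by
      rw [Finset.disjoint_left]
      intro b h1 h2
      rw [hX, mem_filter] at h1
      rw [hU, mem_filter] at h2
      omega)
    (by
      ext b
      simp only [hP, hX, hU, mem_union, mem_filter, mem_univ, true_and, iff_true]
      omega)
    (by
      intro d hd hd2
      rw [hP, mem_filter] at hd
      rw [hU, mem_filter] at hd2
      have hd' := hd.2
      have hd2' := hd2.2
      by_cases h1 : f d ∈ A
      · have e1 : f' d = some ⟨f d, h1⟩ := contr_mem h1
        rw [e1] at hd'
        by_cases h2 : f (α d) ∈ A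
        · have h3 := hr d h1 h2
          have e2 : f' (α d) = some ⟨f (α d), h2⟩ := contr_mem h2
          rw [e2] at hd2'
          simp only [hρ, Option.elim_some] at hd' hd2'
          omega
        · have e2 : f' (α d) = none := contr_not_mem h2
          rw [e2] at hd2'
          simp only [hρ, Option.elim_none] at hd2'
          omega
      · have e1 : f' d = none := contr_not_mem h1
        rw [e1] at hd'
        simp only [hρ, Option.elim_none] at hd'
        omega)
  have h3 := hMG.three (P ∪ X.filter
        (fun b => 2 ≤ (univ.filter (fun d => f' d = b ∧ f' (α d) ∈ P)).card))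
    ⟨some ⟨x1, hx1⟩, by
      rw [mem_union]
      left
      simp [hP, hρ, hx1r]⟩
    (by
      intro hu
      have : (some ⟨x2, hx2⟩ : Option {x // x ∈ A}) ∈ P ∪ X.filter
        (fun b => 2 ≤ (univ.filter (fun d => f' d = b ∧ f' (α d) ∈ P)).card) := by
        rw [hu]; exact mem_univ _
      rw [mem_union, mem_filter, hP, hX, mem_filter, mem_filter] at this
      simp only [hρ, Option.elim_some] at this
      omega)
  have h4 := h3.trans hlev
  -- the sum over the level
  have hXe : X = insert none ((A.filter (fun x => r x = i)).attach.image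
      (fun x => some ⟨x.1, (mem_filter.1 x.2).1⟩)) := by
    ext b
    rw [hX, mem_filter, mem_insert, mem_image]
    rcases b with _ | ⟨x, hx⟩
    · simp [hρ]
    · simp only [mem_univ, true_and, hρ, Option.elim_some, mem_attach]
      constructor
      · intro h1
        right
        exact ⟨⟨x, by rw [mem_filter]; exact ⟨hx, h1⟩⟩, rfl⟩
      · rintro (h1 | ⟨y, hy⟩)
        · cases h1
        · have := Option.some.inj hy
          have h5 : y.1 = x := congrArg Subtype.val this
          rw [← h5]
          exact (mem_filter.1 y.2).2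
  have hnone : (cutD α f' {none}).card = 3 := by
    rw [hf', cutD_contr]
    have : (univ.filter (fun x => contr A x ∈ ({none} : Finset (Option {x // x ∈ A})))) = Aᶜ := by
      ext x
      rw [mem_filter, mem_singleton, mem_compl]
      constructor
      · rintro ⟨-, h1⟩ h2
        rw [contr_mem h2] at h1
        cases h1
      · intro h1
        exact ⟨mem_univ _, contr_not_mem h1⟩
    rw [this, cutD_compl_card h.inv, hA]
  have hsome : ∀ x (hx : x ∈ A), (cutD α f' {some ⟨x, hx⟩}).card ≤ deg f x := by
    intro x hx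
    rw [hf', cutD_contr]
    have : (univ.filter (fun y => contr A y ∈ ({some ⟨x, hx⟩} : Finset (Option {x // x ∈ A}))))
        = {x} := by
      ext y
      rw [mem_filter, mem_singleton, mem_singleton]
      constructor
      · rintro ⟨-, h1⟩
        by_cases h2 : y ∈ A
        · rw [contr_mem h2] at h1
          exact congrArg Subtype.val (Option.some.inj h1)
        · rw [contr_not_mem h2] at h1
          cases h1
      · intro h1
        subst h1
        exact ⟨mem_univ _, contr_mem hx⟩
    rw [this]
    exact cutD_singleton_le α f x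
  have hsum : ∑ b ∈ X, ((cutD α f' {b}).card - 2)
      ≤ 1 + ∑ x ∈ A.filter (fun x => r x = i), (deg f x - 2) := by
    rw [hXe, sum_insert (by simp), hnone]
    apply Nat.add_le_add (by omega)
    rw [sum_image (by
      intro x _ y _ hxy
      have := congrArg Subtype.val (Option.some.inj hxy)
      exact Subtype.ext this)]
    rw [← sum_attach (A.filter (fun x => r x = i)) (fun x => deg f x - 2)]
    apply sum_le_sum
    intro x _
    have := hsome x.1 (mem_filter.1 x.2).1
    omega
  omega

theorem blob_depth {D F : Type*} [Fintype D] [Fintype F] [DecidableEq F]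
    {α : D → D} {f : D → F} (h : MG α f) (A : Finset F) (hA : (cutD α f A).card = 3)
    (w : ℕ) (hm : ∑ x ∈ A, (deg f x - 2) = 2 * w + 1)
    (a : F) (ha : a ∈ A) (hout : ∃ d, f d = a ∧ f (α d) ∉ A) :
    ∃ r : F → ℕ, r a = 0 ∧
      (∀ x ∈ A, x ≠ a → ∃ d, f d = x ∧ f (α d) ∈ A ∧ r x = r (f (α d)) + 1) ∧
      (∀ x ∈ A, r x ≤ w) := by
  classical
  set G := inA α f A h.inv with hG
  have hreach := inA_reachable h hA ha
  have hadj : ∀ x y, G.Adj x y → G.Reachable a x → G.dist a y ≤ G.dist a x + 1 := by
    intro x y hxy hx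
    obtain ⟨p, hp⟩ := hx.exists_walk_length_eq_dist
    have := SimpleGraph.dist_le (p.append (SimpleGraph.Walk.cons hxy SimpleGraph.Walk.nil))
    rw [SimpleGraph.Walk.length_append] at this
    simp only [SimpleGraph.Walk.length_cons, SimpleGraph.Walk.length_nil] at this
    omega
  have hr : ∀ d, f d ∈ A → f (α d) ∈ A → G.dist a (f (α d)) ≤ G.dist a (f d) + 1 := by
    intro d h1 h2
    by_cases heq : f d = f (α d)
    · rw [← heq]; omega
    · exact hadj _ _ ⟨heq, h1, h2, d, rfl, rfl⟩ (hreach _ h1)
  obtain ⟨d0, hd0, hd0A⟩ := hout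
  refine ⟨fun x => G.dist a x, SimpleGraph.dist_self, ?_, ?_⟩
  · intro x hx hxa
    obtain ⟨p, hp⟩ := (hreach x hx).exists_walk_length_eq_dist
    have hp2 : p.reverse.length = G.dist a x := by rw [SimpleGraph.Walk.length_reverse, hp]
    generalize p.reverse = q at hp2
    cases q with
    | nil => exact absurd rfl hxa
    | @cons _ y _ hxy q =>
      obtain ⟨-, -, hyA, d, hd1, hd2⟩ := id hxy
      refine ⟨d, hd1, by rw [hd2]; exact hyA, ?_⟩
      rw [hd2]
      rw [SimpleGraph.Walk.length_cons] at hp2
      have h1 : G.dist a y ≤ q.length := by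
        have := SimpleGraph.dist_le q.reverse
        rw [SimpleGraph.Walk.length_reverse] at this
        exact this
      have h2 : G.dist a x ≤ G.dist a y + 1 := hadj y x hxy.symm (hreach y hyA)
      change G.dist a x = G.dist a y + 1
      omega
  · intro x hx
    change G.dist a x ≤ w
    set dd := G.dist a x with hdd
    rcases Nat.eq_zero_or_pos dd with h0 | hpos
    · omega
    have hpos' : ∀ y ∈ A, 1 ≤ deg f y - 2 := by
      intro y hy
      have h1 := h.three_singleton (b := y) (c := f (α d0)) (by
        intro heq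
        rw [heq] at hd0A
        exact hd0A hy)
      have h2 := cutD_singleton_le α f y
      omega
    set m : ℕ → ℕ := fun i => ∑ y ∈ A.filter (fun y => G.dist a y = i), (deg f y - 2) with hmdef
    have hm0 : 1 ≤ m 0 := by
      rw [hmdef]
      have : a ∈ A.filter (fun y => G.dist a y = 0) := by
        rw [mem_filter]; exact ⟨ha, SimpleGraph.dist_self⟩
      exact (hpos' a ha).trans (single_le_sum (f := fun y => deg f y - 2) (fun _ _ => Nat.zero_le _) this)
    have hmd : 1 ≤ m dd := by
      rw [hmdef]
      have : x ∈ A.filter (fun y => G.dist a y = dd) := by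
        rw [mem_filter]; exact ⟨hx, rfl⟩
      exact (hpos' x hx).trans (single_le_sum (f := fun y => deg f y - 2) (fun _ _ => Nat.zero_le _) this)
    have hmi : ∀ i, 0 < i → i < dd → 2 ≤ m i := by
      intro i hi1 hi2
      exact level_mass h hA (fun x => G.dist a x) hr i
        ⟨a, ha, by rw [SimpleGraph.dist_self]; exact hi1⟩ ⟨x, hx, hi2⟩
    have hsum : ∀ k, k < dd → 2 * k + 1 ≤ ∑ i ∈ range (k + 1), m i := by
      intro k
      induction k with
      | zero => intro _; simpa using hm0
      | succ k ih =>
        intro hk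
        rw [sum_range_succ]
        have h1 := ih (by omega)
        have h2 := hmi (k + 1) (by omega) hk
        omega
    have htot : 2 * dd ≤ ∑ i ∈ range (dd + 1), m i := by
      rw [sum_range_succ]
      have h1 := hsum (dd - 1) (by omega)
      rw [show dd - 1 + 1 = dd by omega] at h1
      omega
    have hle : ∑ i ∈ range (dd + 1), m i ≤ ∑ y ∈ A, (deg f y - 2) := by
      have h1 : ∑ i ∈ range (dd + 1), m i
          = ∑ y ∈ A.filter (fun y => G.dist a y ∈ range (dd + 1)), (deg f y - 2) := by
        rw [← sum_fiberwise_of_maps_to (s := A.filter (fun y => G.dist a y ∈ range (dd + 1)))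
          (t := range (dd + 1)) (g := fun y => G.dist a y)
          (fun y hy => (mem_filter.1 hy).2)]
        apply sum_congr rfl
        intro i hi
        rw [hmdef]
        apply sum_congr _ (fun _ _ => rfl)
        ext y
        rw [mem_filter, mem_filter, mem_filter]
        constructor
        · rintro ⟨h1, h2⟩
          exact ⟨⟨h1, by rw [h2]; exact hi⟩, h2⟩
        · rintro ⟨⟨h1, -⟩, h2⟩
          exact ⟨h1, h2⟩
      rw [h1]
      exact sum_le_sum_of_subset (filter_subset _ _)
    omega

end

end Pool.Agent.Helper11.Stc
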