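import Pool.Agent.Helper11.Stc.Defs

set_option autoImplicit false

/-!
The dual of a simple graph with a rotation system is 3-edge-connected (helper1 for helper11).
-/

namespace Pool.Agent.Helper11.Stc

open Finset

universe u

section

variable {V : Type u} {G : SimpleGraph V} {σ : Equiv.Perm G.Dart}

theorem face_symm (d : G.Dart) : face σ d.symm = face σ (σ d) := by
  apply Quotient.sound
  change (facePerm σ).SameCycle d.symm (σ d)
  refine ⟨1, ?_⟩
  rw [zpow_one]
  change σ (SimpleGraph.Dart.symm d.symm) = σ d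
  rw [SimpleGraph.Dart.symm_symm]

/-- balance at a vertex -/
theorem balance [Finite V] (h1 : ∀ d : G.Dart, (σ d).fst = d.fst) (S : Set (Faces σ)) (x : V)
    (hex : ∃ d : G.Dart, d.fst = x ∧ face σ d ∈ S ∧ face σ d.symm ∉ S) :
    ∃ d : G.Dart, d.fst = x ∧ face σ d ∉ S ∧ face σ d.symm ∈ S := by
  classical
  have : Fintype V := Fintype.ofFinite V
  by_contra hcon
  push Not at hcon
  -- `σ` maps the darts at `x` outside `S` to itself; by finiteness also those in `S`
  obtain ⟨d0, hd0, hg, hng⟩ := hex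
  let B : Finset G.Dart := univ.filter (fun d => d.fst = x ∧ face σ d ∉ S)
  have hB : B.image σ ⊆ B := by
    intro e he
    obtain ⟨d, hd, rfl⟩ := Finset.mem_image.1 he
    rw [Finset.mem_filter] at hd ⊢
    refine ⟨Finset.mem_univ _, by rw [h1]; exact hd.2.1, ?_⟩
    rw [← face_symm]
    exact hcon d hd.2.1 hd.2.2
  have hB2 : B.image σ = B := by
    apply Finset.eq_of_subset_of_card_le hB
    rw [Finset.card_image_of_injective _ σ.injective]
  have h3 : σ d0 ∈ B := by
    rw [Finset.mem_filter]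
    refine ⟨Finset.mem_univ _, by rw [h1]; exact hd0, ?_⟩
    rw [← face_symm]
    exact hng
  rw [← hB2, Finset.mem_image] at h3
  obtain ⟨d, hd, hdd⟩ := h3
  rw [σ.injective hdd, Finset.mem_filter] at hd
  exact hd.2.2 hg

theorem const_of_invariant (hc : G.Connected)
    (h2 : ∀ d d' : G.Dart, d.fst = d'.fst → σ.SameCycle d d') (S : Set (Faces σ))
    (h : ∀ d : G.Dart, face σ d ∈ S ↔ face σ d.symm ∈ S) (d d' : G.Dart) :
    face σ d ∈ S ↔ face σ d' ∈ S := by
  have hσ : ∀ d : G.Dart, face σ (σ d) ∈ S ↔ face σ d ∈ S := fun d => by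
    rw [← face_symm]; exact (h d).symm
  have hσn : ∀ (n : ℕ) (d : G.Dart), face σ ((σ ^ n) d) ∈ S ↔ face σ d ∈ S := by
    intro n
    induction n with
    | zero => intro d; rfl
    | succ n ih => intro d; rw [pow_succ', Equiv.Perm.mul_apply, hσ, ih]
  have hσz : ∀ (n : ℤ) (d : G.Dart), face σ ((σ ^ n) d) ∈ S ↔ face σ d ∈ S := by
    intro n d
    obtain ⟨m, rfl | rfl⟩ := n.eq_nat_or_neg
    · rw [zpow_natCast]; exact hσn m d
    · have := hσn m ((σ ^ (-(m : ℤ))) d)
      rw [← this]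
      rw [← Equiv.Perm.mul_apply, ← zpow_natCast, ← zpow_add, add_neg_cancel, zpow_zero,
        Equiv.Perm.one_apply]
  have hv : ∀ d d' : G.Dart, d.fst = d'.fst → (face σ d ∈ S ↔ face σ d' ∈ S) := by
    intro d d' hdd
    obtain ⟨n, hn⟩ := h2 d d' hdd
    rw [← hn, hσz]
  have key : ∀ (u v : V) (_ : G.Walk u v) (d d' : G.Dart), d.fst = u → d'.fst = v →
      (face σ d ∈ S ↔ face σ d' ∈ S) := by
    intro u v p
    induction p with
    | nil => intro d d' hd hd'; exact hv d d' (hd.trans hd'.symm)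
    | @cons u w v hadj p ih =>
      intro d d' hd hd'
      have e1 := hv d ⟨(u, w), hadj⟩ hd
      have e2 := h ⟨(u, w), hadj⟩
      have e3 := ih (SimpleGraph.Dart.symm ⟨(u, w), hadj⟩) d' rfl hd'
      rw [e1, e2, e3]
  obtain ⟨p⟩ := hc.preconnected d.fst d'.fst
  exact key _ _ p d d' rfl rfl

end

/-- the dual multigraph of a connected simple graph with a rotation system is 3-edge-connected -/
theorem dual_MG {V : Type u} [Finite V] (G : SimpleGraph V) (hc : G.Connected)
    (σ : Equiv.Perm G.Dart) (h1 : ∀ d : G.Dart, (σ d).fst = d.fst)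
    (h2 : ∀ d d' : G.Dart, d.fst = d'.fst → σ.SameCycle d d')
    [Fintype G.Dart] [Fintype (Faces σ)] [DecidableEq (Faces σ)] :
    MG (fun d : G.Dart => d.symm) (face σ) := by
  refine ⟨fun d => SimpleGraph.Dart.symm_symm d, fun d => SimpleGraph.Dart.symm_ne d, ?_⟩
  intro S hS hSu
  classical
  -- a crossing dart
  obtain ⟨d0, hd0⟩ : ∃ d : G.Dart, face σ d ∈ S ∧ face σ d.symm ∉ S := by
    by_contra hcon
    push Not at hcon
    obtain ⟨x, hx⟩ := hS
    obtain ⟨y, hy⟩ : ∃ y, y ∉ S := by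
      by_contra h
      push Not at h
      exact hSu (Finset.eq_univ_iff_forall.2 h)
    obtain ⟨d, rfl⟩ := Quotient.exists_rep x
    obtain ⟨d', rfl⟩ := Quotient.exists_rep y
    have := const_of_invariant hc h2 (S : Set (Faces σ)) (fun e => ⟨fun he => hcon e he, fun he => by
      have := hcon e.symm he
      rwa [SimpleGraph.Dart.symm_symm] at this⟩) d d'
    exact hy (this.1 hx)
  -- the next one
  obtain ⟨d1, hd1, hd1'⟩ : ∃ d1 : G.Dart, d1.fst = d0.snd ∧ face σ d1 ∈ S ∧ face σ d1.symm ∉ S := by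
    have := balance h1 ((S : Set (Faces σ))ᶜ) d0.snd ⟨d0.symm, rfl, by simpa using hd0.2, by
      rw [SimpleGraph.Dart.symm_symm]; simpa using hd0.1⟩
    obtain ⟨d1, h3, h4, h5⟩ := this
    exact ⟨d1, h3, by simpa using h4, by simpa using h5⟩
  -- the previous one
  obtain ⟨d2, hd2, hd2'⟩ : ∃ d2 : G.Dart, d2.snd = d0.fst ∧ face σ d2 ∈ S ∧ face σ d2.symm ∉ S := by
    have := balance h1 (S : Set (Faces σ)) d0.fst ⟨d0, rfl, hd0.1, hd0.2⟩
    obtain ⟨d2, h3, h4, h5⟩ := this
    exact ⟨d2.symm, h3, h5, by rw [SimpleGraph.Dart.symm_symm]; exact h4⟩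
  have hne : d0.fst ≠ d0.snd := d0.adj.ne
  have h01 : d0 ≠ d1 := by
    intro h; rw [h] at hne; exact hne (by rw [hd1, h])
  have h02 : d0 ≠ d2 := by
    intro h
    apply hne
    rw [← hd2, ← h]
  have h12 : d1 ≠ d2 := by
    intro h
    have : d1 = d0.symm := by
      apply SimpleGraph.Dart.ext
      apply Prod.ext
      · exact hd1
      · have : d1.snd = d0.fst := by rw [h, hd2]
        exact this
    rw [this] at hd1'
    exact hd0.2 hd1'.1
  have hsub : ({d0, d1, d2} : Finset G.Dart) ⊆ cutD (fun d : G.Dart => d.symm) (face σ) S := by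
    intro e he
    unfold cutD
    rw [Finset.mem_filter]
    simp only [Finset.mem_insert, Finset.mem_singleton] at he
    rcases he with rfl | rfl | rfl
    · exact ⟨Finset.mem_univ _, hd0⟩
    · exact ⟨Finset.mem_univ _, hd1'⟩
    · exact ⟨Finset.mem_univ _, hd2'⟩
  calc 3 = ({d0, d1, d2} : Finset G.Dart).card := (Finset.card_eq_three.2 ⟨d0, d1, d2, h01, h02, h12, rfl⟩).symm
    _ ≤ _ := Finset.card_le_card hsub

end Pool.Agent.Helper11.Stc
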