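import Pool.Agent.Helper11.Stc.Defs

set_option autoImplicit false

/-!
# Lower bound for the spanning tree congestion of the bipyramid (module D1)
-/

namespace Pool.Agent.Helper11.Stc

open Finset

namespace Lower

/-! ### Sides of a tree edge -/

section side

variable {V : Type*} {T : SimpleGraph V}

/-- the side of `a` of the edge `ab` -/
def side (T : SimpleGraph V) (a b : V) : Set V :=
  {x | (T.deleteEdges {s(a, b)}).Reachable a x}

theorem side_self (a b : V) : a ∈ side T a b := SimpleGraph.Reachable.refl a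

theorem mem_side_swap {a b x : V} :
    x ∈ side T b a ↔ (T.deleteEdges {s(a, b)}).Reachable b x := by
  unfold side
  rw [Sym2.eq_swap]
  rfl

theorem side_adj {a b x y : V} (hx : x ∈ side T a b) (hxy : T.Adj x y)
    (hne : s(x, y) ≠ s(a, b)) : y ∈ side T a b := by
  refine SimpleGraph.Reachable.trans hx (SimpleGraph.Adj.reachable ?_)
  rw [SimpleGraph.deleteEdges_adj]
  exact ⟨hxy, by simpa using hne⟩

theorem side_or (hc : T.Connected) {a b : V} (x : V) :
    x ∈ side T a b ∨ x ∈ side T b a := by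
  obtain ⟨p⟩ := hc.preconnected x a
  induction p with
  | nil => exact Or.inl (side_self _ _)
  | @cons u v w h p ih =>
    by_cases he : s(v, u) = s(w, b)
    · rcases Sym2.eq_iff.1 he with ⟨h1, h2⟩ | ⟨h1, h2⟩
      · right; rw [h2]; exact side_self _ _
      · left; rw [h2]; exact side_self _ _
    · rcases ih with ih | ih
      · exact Or.inl (side_adj ih h.symm he)
      · refine Or.inr (side_adj ih h.symm ?_)
        rw [Sym2.eq_swap (a := b)]
        exact he

theorem side_disj (ht : T.IsTree) {a b x : V} (hab : T.Adj a b) (hx : x ∈ side T a b) :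
    x ∉ side T b a := by
  intro hx'
  rw [mem_side_swap] at hx'
  have hbr : T.IsBridge s(a, b) := SimpleGraph.isAcyclic_iff_forall_isBridge.1 ht.2 hab
  rw [SimpleGraph.isBridge_iff] at hbr
  exact hbr (SimpleGraph.Reachable.trans hx hx'.symm)

theorem side_walk {a b x : V} (p : T.Walk a x) (hb : b ∉ p.support) : x ∈ side T a b := by
  have h : s(a, b) ∉ p.edges := fun h => hb (p.snd_mem_support_of_mem_edges h)
  exact ⟨p.toDeleteEdge _ h⟩

end side

/-! ### Edges of the bipyramid -/

section edges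

variable {m : ℕ}

theorem adj_rr {i j : ZMod m} :
    (bipyr m).Adj (Sum.inl i) (Sum.inl j) ↔ i ≠ j ∧ (j = i + 1 ∨ i = j + 1) := by
  simp [bipyr, SimpleGraph.fromRel_adj]

theorem adj_rp (i : ZMod m) (c : Bool) : (bipyr m).Adj (Sum.inl i) (Sum.inr c) := by
  simp [bipyr]

theorem adj_pp (c d : Bool) : ¬ (bipyr m).Adj (Sum.inr c) (Sum.inr d) := by
  simp [bipyr]

theorem succ_ne (hm : 3 ≤ m) (i : ZMod m) : i ≠ i + 1 := by
  intro h
  have h1 : (1 : ZMod m) = 0 := by
    have := h.symm
    rwa [add_eq_left] at this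
  have h2 : ((1 : ℕ) : ZMod m) = 0 := by exact_mod_cast h1
  rw [ZMod.natCast_eq_zero_iff] at h2
  have := Nat.le_of_dvd (by norm_num) h2
  omega

/-- the edges of the bipyramid -/
def E (m : ℕ) : ZMod m × Option Bool → Sym2 (ZMod m ⊕ Bool)
  | (i, none) => s(Sum.inl i, Sum.inl (i + 1))
  | (i, some c) => s(Sum.inl i, Sum.inr c)

theorem E_inj (hm : 3 ≤ m) : Function.Injective (E m) := by
  rintro ⟨i, o⟩ ⟨j, o'⟩ h
  rcases o with _ | c <;> rcases o' with _ | d
  · simp only [E, Sym2.eq_iff, Sum.inl.injEq] at h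
    rcases h with h | ⟨h1, h2⟩
    · rw [h.1]
    · exfalso
      have h3 : (2 : ZMod m) = 0 := by
        have h4 : j + 1 + 1 = j := by rw [← h1]; exact h2
        rw [add_assoc, add_eq_left] at h4
        rw [← h4]; norm_num
      have h5 : ((2 : ℕ) : ZMod m) = 0 := by exact_mod_cast h3
      rw [ZMod.natCast_eq_zero_iff] at h5
      have := Nat.le_of_dvd (by norm_num) h5
      omega
  · simp [E] at h
  · simp [E] at h
  · simp only [E, Sym2.eq_iff, Sum.inl.injEq, Sum.inr.injEq, reduceCtorEq, and_false,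
      or_false] at h
    rw [h.1, h.2]

theorem E_mem (hm : 3 ≤ m) (p : ZMod m × Option Bool) : E m p ∈ (bipyr m).edgeSet := by
  obtain ⟨i, o⟩ := p
  rcases o with _ | c
  · simp only [E, SimpleGraph.mem_edgeSet]
    exact adj_rr.2 ⟨succ_ne hm i, Or.inl rfl⟩
  · simp only [E, SimpleGraph.mem_edgeSet]
    exact adj_rp i c

/-- `p` crosses `P` -/
def Cross (P : Set (ZMod m ⊕ Bool)) : ZMod m × Option Bool → Prop
  | (i, none) => ¬ (Sum.inl i ∈ P ↔ Sum.inl (i + 1) ∈ P)
  | (i, some c) => ¬ (Sum.inl i ∈ P ↔ Sum.inr c ∈ P)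

theorem cng_ge (hm : 3 ≤ m) {T : SimpleGraph (ZMod m ⊕ Bool)} (ht : T.IsTree)
    {a b : ZMod m ⊕ Bool} :
    Set.ncard {p | Cross (side T a b) p} ≤ cng (bipyr m) T a b := by
  have : NeZero m := ⟨by omega⟩
  unfold cng
  refine Set.ncard_le_ncard_of_injOn (E m) ?_ (E_inj hm).injOn (Set.toFinite _)
  have key : ∀ x y : ZMod m ⊕ Bool, ¬ (x ∈ side T a b ↔ y ∈ side T a b) →
      ∃ x' y', s(x, y) = s(x', y') ∧ (T.deleteEdges {s(a, b)}).Reachable a x' ∧
        (T.deleteEdges {s(a, b)}).Reachable b y' := by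
    intro x y hxy
    by_cases hx : x ∈ side T a b
    · have hy : y ∉ side T a b := fun h => hxy ⟨fun _ => h, fun _ => hx⟩
      exact ⟨x, y, rfl, hx, mem_side_swap.1 ((side_or ht.1 y).resolve_left hy)⟩
    · have hy : y ∈ side T a b := by
        by_contra hy
        exact hxy ⟨fun h => absurd h hx, fun h => absurd h hy⟩
      exact ⟨y, x, Sym2.eq_swap, hy, mem_side_swap.1 ((side_or ht.1 x).resolve_left hx)⟩
  rintro ⟨i, o⟩ hp
  refine ⟨E_mem hm _, ?_⟩
  rcases o with _ | c
  · exact key _ _ hp
  · exact key _ _ hp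

open Classical in
/-- the number of crossing edges as a sum -/
theorem cross_sum [NeZero m] (P : Set (ZMod m ⊕ Bool)) :
    Set.ncard {p | Cross P p} = ∑ i : ZMod m,
      ((if (Sum.inl i ∈ P ↔ Sum.inl (i + 1) ∈ P) then 0 else 1) +
        ((if (Sum.inl i ∈ P ↔ Sum.inr true ∈ P) then 0 else 1) +
          (if (Sum.inl i ∈ P ↔ Sum.inr false ∈ P) then 0 else 1))) := by
  rw [Set.ncard_eq_toFinset_card', Set.toFinset_ofPred, Finset.card_filter,
    Fintype.sum_prod_type]
  refine Finset.sum_congr rfl fun i _ => ?_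
  rw [Fintype.sum_option, Fintype.sum_bool]
  by_cases h1 : (Sum.inl i ∈ P ↔ Sum.inl (i + 1) ∈ P) <;>
    by_cases h2 : (Sum.inl i ∈ P ↔ Sum.inr true ∈ P) <;>
      by_cases h3 : (Sum.inl i ∈ P ↔ Sum.inr false ∈ P) <;> simp [Cross, h1, h2, h3]

/-- rim boundary -/
theorem exists_up [NeZero m] {J : ZMod m → Prop} {i j : ZMod m} (hi : J i) (hj : ¬ J j) :
    ∃ x, J x ∧ ¬ J (x + 1) := by
  by_contra h
  push Not at h
  apply hj
  have h1 : ∀ n : ℕ, J (i + n) := by
    intro n
    induction n with
    | zero => simpa using hi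
    | succ n ih =>
      have := h _ ih
      push_cast
      rwa [← add_assoc]
  have h2 := h1 (j - i).val
  rw [ZMod.natCast_val, ZMod.cast_id', id, add_sub_cancel] at h2
  exact h2

open Classical in
theorem rim_two [NeZero m] {J : ZMod m → Prop} {i j : ZMod m} (hi : J i) (hj : ¬ J j) :
    2 ≤ ∑ i : ZMod m, (if (J i ↔ J (i + 1)) then 0 else 1) := by
  obtain ⟨x, hx, hx'⟩ := exists_up hi hj
  obtain ⟨y, hy, hy'⟩ := exists_up (J := fun i => ¬ J i) hj (not_not.2 hi)
  have hxy : x ≠ y := by
    rintro rfl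
    exact hy hx
  have h1 : ∑ i ∈ ({x, y} : Finset (ZMod m)), (if (J i ↔ J (i + 1)) then 0 else 1) = 2 := by
    rw [Finset.sum_pair hxy, if_neg (by tauto), if_neg (by tauto)]
  rw [← h1]
  exact Finset.sum_le_sum_of_subset (Finset.subset_univ _)

theorem count_one [NeZero m] (P : Set (ZMod m ⊕ Bool)) (h : ¬ (Sum.inr true ∈ P ↔ Sum.inr false ∈ P))
    {i j : ZMod m} (hi : Sum.inl i ∈ P) (hj : Sum.inl j ∉ P) :
    m + 2 ≤ Set.ncard {p | Cross P p} := by
  classical
  rw [cross_sum, Finset.sum_add_distrib]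
  have h1 := rim_two (J := fun i => Sum.inl i ∈ P) hi hj
  have h2 : ∑ i : ZMod m, ((if (Sum.inl i ∈ P ↔ Sum.inr true ∈ P) then 0 else 1) +
          (if (Sum.inl i ∈ P ↔ Sum.inr false ∈ P) then 0 else 1)) = ∑ i : ZMod m, 1 := by
    refine Finset.sum_congr rfl fun i _ => ?_
    by_cases hi : Sum.inl i ∈ P <;> by_cases ht : Sum.inr true ∈ P <;>
      by_cases hf : Sum.inr false ∈ P <;> simp_all
  rw [h2, Finset.sum_const, Finset.card_univ, ZMod.card, smul_eq_mul, mul_one]
  omega

theorem count_zero [NeZero m] (P : Set (ZMod m ⊕ Bool)) (ht : Sum.inr true ∉ P)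
    (hf : Sum.inr false ∉ P)
    {i j : ZMod m} (hi : Sum.inl i ∈ P) (hj : Sum.inl j ∉ P) :
    2 * Set.ncard {i : ZMod m | Sum.inl i ∈ P} + 2 ≤ Set.ncard {p | Cross P p} := by
  classical
  rw [cross_sum, Finset.sum_add_distrib]
  have h1 := rim_two (J := fun i => Sum.inl i ∈ P) hi hj
  have h2 : ∑ i : ZMod m, ((if (Sum.inl i ∈ P ↔ Sum.inr true ∈ P) then 0 else 1) +
          (if (Sum.inl i ∈ P ↔ Sum.inr false ∈ P) then 0 else 1)) =
          ∑ i : ZMod m, 2 * (if Sum.inl i ∈ P then 1 else 0) := by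
    refine Finset.sum_congr rfl fun i _ => ?_
    by_cases hi : Sum.inl i ∈ P <;> simp_all
  rw [h2, ← Finset.mul_sum, ← Finset.card_filter, Set.ncard_eq_toFinset_card',
    Set.toFinset_ofPred]
  omega

end edges

/-! ### The main argument -/

theorem exists_edge {m : ℕ} (hm : 3 ≤ m) {T : SimpleGraph (ZMod m ⊕ Bool)} (hT : T ≤ bipyr m)
    (ht : T.IsTree) : ∃ a b, T.Adj a b ∧ 2 * ((m + 2) / 2) ≤ cng (bipyr m) T a b := by
  have : NeZero m := ⟨by omega⟩
  -- the case in which both poles are attached to `v`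
  have two : ∀ v : ZMod m, (∀ c, T.Adj (Sum.inl v) (Sum.inr c)) →
      ∃ a b, T.Adj a b ∧ 2 * ((m + 2) / 2) ≤ cng (bipyr m) T a b := by
    intro v hv
    by_cases hc : ∃ c i, Sum.inl i ∈ side T (Sum.inr c) (Sum.inl v)
    · obtain ⟨c, i, hi⟩ := hc
      refine ⟨_, _, (hv c).symm, ?_⟩
      have hv' : Sum.inl v ∉ side T (Sum.inr c) (Sum.inl v) :=
        side_disj ht (hv c) (side_self _ _)
      have hc' : Sum.inr (!c) ∉ side T (Sum.inr c) (Sum.inl v) := by
        refine side_disj ht (hv c) (side_adj (side_self _ _) (hv (!c)) ?_)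
        simp
      have hcc : Sum.inr c ∈ side T (Sum.inr c) (Sum.inl v) := side_self _ _
      have h1 := count_one (side T (Sum.inr c) (Sum.inl v)) (by
        cases c
        · intro h
          exact hc' (h.2 hcc)
        · intro h
          exact hc' (h.1 hcc)) hi hv'
      have h2 := cng_ge hm ht (a := Sum.inr c) (b := Sum.inl v)
      omega
    · push Not at hc
      -- the two components along the rim
      set J : ZMod m → Set (ZMod m) := fun u =>
        {i | T.Adj (Sum.inl v) (Sum.inl u) ∧ Sum.inl i ∈ side T (Sum.inl u) (Sum.inl v)} with hJ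
      have hcov : {i | i ≠ v} ⊆ J (v + 1) ∪ J (v - 1) := by
        intro i hi
        obtain ⟨w, hw⟩ := ht.1.exists_isPath (Sum.inl v) (Sum.inl i)
        cases w with
        | nil => exact absurd rfl hi
        | @cons _ x _ h p =>
          rw [SimpleGraph.Walk.cons_isPath_iff] at hw
          have hs := side_walk p hw.2
          rcases x with u | c
          · rcases (adj_rr.1 (hT h)).2 with h1 | h1
            · left; subst h1; exact ⟨h, hs⟩
            · right
              have h2 : u = v - 1 := by rw [h1]; ring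
              subst h2; exact ⟨h, hs⟩
          · exact absurd hs (hc c i)
      have hcard : m - 1 ≤ (J (v + 1)).ncard + (J (v - 1)).ncard := by
        refine le_trans ?_ (Set.ncard_union_le _ _)
        refine le_trans ?_ (Set.ncard_le_ncard hcov (Set.toFinite _))
        have h1 : {i : ZMod m | i ≠ v} = {v}ᶜ := rfl
        rw [h1, Set.ncard_compl, Set.ncard_singleton, Nat.card_eq_fintype_card, ZMod.card]
      obtain ⟨u, hu⟩ : ∃ u, m - 1 ≤ 2 * (J u).ncard := by
        rcases le_total (J (v + 1)).ncard (J (v - 1)).ncard with h | h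
        · exact ⟨v - 1, by omega⟩
        · exact ⟨v + 1, by omega⟩
      have hadj : T.Adj (Sum.inl v) (Sum.inl u) := by
        have h1 : (J u).Nonempty := by
          rw [← Set.ncard_pos]
          omega
        obtain ⟨i, hi⟩ := h1
        exact hi.1
      have hpole : ∀ c, Sum.inr c ∉ side T (Sum.inl u) (Sum.inl v) := by
        intro c
        refine side_disj ht hadj (side_adj (side_self _ _) (hv c) ?_)
        simp
      refine ⟨_, _, hadj.symm, ?_⟩
      have h1 := count_zero (side T (Sum.inl u) (Sum.inl v)) (hpole true) (hpole false)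
        (side_self _ _) (side_disj ht hadj (side_self _ _))
      have h2 := cng_ge hm ht (a := Sum.inl u) (b := Sum.inl v)
      have h3 : (J u).ncard ≤ {i : ZMod m | Sum.inl i ∈ side T (Sum.inl u) (Sum.inl v)}.ncard :=
        Set.ncard_le_ncard (fun i hi => hi.2) (Set.toFinite _)
      omega
  -- the path between the poles
  obtain ⟨w, hw⟩ := ht.1.exists_isPath (Sum.inr true) (Sum.inr false)
  cases w with
  | @cons _ x _ h1 p =>
    rw [SimpleGraph.Walk.cons_isPath_iff] at hw
    rcases x with v | c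
    · cases p with
      | @cons _ y _ h2 q =>
        rw [SimpleGraph.Walk.cons_isPath_iff] at hw
        rcases y with u | c
        · refine ⟨_, _, h2, ?_⟩
          have hA : Sum.inr true ∈ side T (Sum.inl v) (Sum.inl u) :=
            side_adj (side_self _ _) h1.symm (by simp)
          have hB : Sum.inr false ∉ side T (Sum.inl v) (Sum.inl u) :=
            side_disj ht h2.symm (side_walk q hw.1.2)
          have h3 := count_one (side T (Sum.inl v) (Sum.inl u)) (fun h => hB (h.1 hA))
            (side_self _ _) (side_disj ht h2.symm (side_self _ _))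
          have h4 := cng_ge hm ht (a := Sum.inl v) (b := Sum.inl u)
          omega
        · refine two v fun d => ?_
          cases c
          · cases d
            · exact h2
            · exact h1.symm
          · exfalso
            apply hw.2
            simp
    · exact absurd (hT h1) (adj_pp _ _)

end Lower

theorem bipyr_connected (m : ℕ) (hm : 3 ≤ m) : (bipyr m).Connected := by
  have h0 : ∀ i : ZMod m, (bipyr m).Reachable (Sum.inr true) (Sum.inl i) :=
    fun i => (Lower.adj_rp i true).symm.reachable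
  have h1 : ∀ x, (bipyr m).Reachable (Sum.inr true) x := by
    rintro (i | c)
    · exact h0 i
    · exact (h0 0).trans (Lower.adj_rp 0 c).reachable
  exact { preconnected := fun x y => (h1 x).symm.trans (h1 y), nonempty := ⟨Sum.inr true⟩ }

theorem le_stc_bipyr (m : ℕ) (hm : 3 ≤ m) : 2 * ((m + 2) / 2) ≤ stc (bipyr m) := by
  have : NeZero m := ⟨by omega⟩
  refine le_stc ?_ fun T hT ht => Lower.exists_edge hm hT ht
  obtain ⟨T, hT, ht⟩ := (bipyr_connected m hm).exists_isTree_le
  exact ⟨T, hT, ht⟩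

end Pool.Agent.Helper11.Stc
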