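import Pool.Agent.Helper11.Stc.Defs

set_option autoImplicit false
set_option linter.unusedSectionVars false

/-!
# Module B5: the torso of a 3-edge-connected multigraph
-/

namespace Pool.Agent.Helper11.Stc

open Finset

universe u

section

variable {D F : Type*} [Fintype D] [Fintype F] [DecidableEq F] {α : D → D} {f : D → F}

theorem t5_mem_cutD {S : Finset F} {d : D} : d ∈ cutD α f S ↔ f d ∈ S ∧ f (α d) ∉ S := by
  simp [cutD]

theorem t5_cut_compl (inv : ∀ d, α (α d) = d) (S : Finset F) :
    (cutD α f Sᶜ).card = (cutD α f S).card := by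
  apply Finset.card_bij (fun d _ => α d)
  · intro d hd
    rw [t5_mem_cutD, mem_compl, mem_compl, not_not] at hd
    rw [t5_mem_cutD, inv]
    exact ⟨hd.2, hd.1⟩
  · intro d _ d' _ h
    have := congrArg α h
    rwa [inv, inv] at this
  · intro d hd
    rw [t5_mem_cutD] at hd
    refine ⟨α d, ?_, inv d⟩
    rw [t5_mem_cutD, mem_compl, mem_compl, not_not, inv]
    exact ⟨hd.2, hd.1⟩

theorem t5_submod (A B : Finset F) :
    (cutD α f (A ∩ B)).card + (cutD α f (A ∪ B)).card ≤ (cutD α f A).card + (cutD α f B).card := by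
  unfold cutD
  simp only [Finset.card_filter, ← Finset.sum_add_distrib]
  apply Finset.sum_le_sum
  intro d _
  simp only [mem_inter, mem_union]
  by_cases h1 : f d ∈ A <;> by_cases h2 : f d ∈ B <;> by_cases h3 : f (α d) ∈ A <;>
    by_cases h4 : f (α d) ∈ B <;> simp [h1, h2, h3, h4]

theorem t5_submod' (inv : ∀ d, α (α d) = d) (A B : Finset F) :
    (cutD α f (A \ B)).card + (cutD α f (B \ A)).card ≤ (cutD α f A).card + (cutD α f B).card := by
  have h := t5_submod (α := α) (f := f) A Bᶜ
  have e1 : A ∩ Bᶜ = A \ B := by ext x; simp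
  have e2 : A ∪ Bᶜ = (B \ A)ᶜ := by
    ext x
    simp only [mem_union, mem_compl, mem_sdiff]
    tauto
  rw [e1, e2, t5_cut_compl inv, t5_cut_compl inv] at h
  exact h

theorem t5_sum_deg (S : Finset F) :
    ∑ x ∈ S, deg f x = (univ.filter (fun d => f d ∈ S)).card := by
  rw [Finset.card_eq_sum_card_fiberwise (f := f) (t := S)]
  · apply Finset.sum_congr rfl
    intro x hx
    unfold deg
    congr 1
    ext d
    simp only [mem_filter, mem_univ, true_and]
    constructor
    · intro h; exact ⟨h ▸ hx, h⟩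
    · exact fun h => h.2
  · intro d hd
    simpa using hd

theorem t5_even (inv : ∀ d, α (α d) = d) (ne : ∀ d, α d ≠ d) (S : Finset F) :
    Even (univ.filter (fun d => f d ∈ S ∧ f (α d) ∈ S)).card := by
  have key : ∑ d ∈ univ.filter (fun d => f d ∈ S ∧ f (α d) ∈ S), (1 : ZMod 2) = 0 := by
    apply Finset.sum_involution (fun d _ => α d)
    · intro d _; decide
    · intro d _ _; exact ne d
    · intro d hd
      rw [mem_filter] at hd ⊢
      rw [inv]
      exact ⟨mem_univ _, hd.2.2, hd.2.1⟩
    · intro d _; exact inv d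
  rw [Finset.sum_const, nsmul_eq_mul, mul_one] at key
  exact (ZMod.natCast_eq_zero_iff_even).1 key

/-- mass of a vertex set -/
def t5m (f : D → F) (S : Finset F) : ℕ := ∑ x ∈ S, (deg f x - 2)

theorem t5_cut_le_deg (x : F) : (cutD α f {x}).card ≤ deg f x := by
  unfold cutD deg
  apply Finset.card_le_card
  intro d hd
  rw [mem_filter] at hd ⊢
  exact ⟨mem_univ _, mem_singleton.1 hd.2.1⟩

variable (h : MG α f) (hF : 2 ≤ Fintype.card F)
include h hF

theorem t5_single_ne (x : F) : ({x} : Finset F) ≠ univ := by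
  intro hx
  have := congrArg Finset.card hx
  rw [card_singleton, card_univ] at this
  omega

theorem t5_deg (x : F) : 3 ≤ deg f x :=
  (h.three {x} (singleton_nonempty x) (t5_single_ne h hF x)).trans (t5_cut_le_deg x)

theorem t5_parity (S : Finset F) : ∃ k, t5m f S + 2 * S.card = (cutD α f S).card + 2 * k := by
  classical
  obtain ⟨k, hk⟩ := t5_even (f := f) h.inv h.ne S
  refine ⟨k, ?_⟩
  have h1 : t5m f S + 2 * S.card = ∑ x ∈ S, deg f x := by
    unfold t5m
    rw [mul_comm, ← smul_eq_mul, ← Finset.sum_const, ← Finset.sum_add_distrib]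
    apply Finset.sum_congr rfl
    intro x _
    have := t5_deg h hF x
    omega
  rw [h1, t5_sum_deg]
  have h2 : univ.filter (fun d => f d ∈ S) =
      cutD α f S ∪ univ.filter (fun d => f d ∈ S ∧ f (α d) ∈ S) := by
    ext d
    rw [mem_union, t5_mem_cutD, mem_filter, mem_filter]
    simp only [mem_univ, true_and]
    tauto
  rw [h2, card_union_of_disjoint, hk]
  · ring
  · rw [Finset.disjoint_left]
    intro d h3 h4
    rw [t5_mem_cutD] at h3
    rw [mem_filter] at h4
    exact h3.2 h4.2.2

theorem t5_odd {S : Finset F} (hS : (cutD α f S).card = 3) : ∃ k, t5m f S = 2 * k + 1 := by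
  obtain ⟨k, hk⟩ := t5_parity h hF S
  rw [hS] at hk
  refine ⟨(t5m f S) / 2, ?_⟩
  omega

theorem t5_card_le (S : Finset F) : S.card ≤ t5m f S := by
  unfold t5m
  rw [Finset.card_eq_sum_ones]
  apply Finset.sum_le_sum
  intro x _
  have := t5_deg h hF x
  omega

omit h hF in
theorem t5_m_disj {A B : Finset F} (hAB : Disjoint A B) : t5m f (A ∪ B) = t5m f A + t5m f B :=
  Finset.sum_union hAB

omit h hF in
theorem t5_m_compl (A : Finset F) : t5m f A + t5m f Aᶜ = t5m f univ :=
  Finset.sum_add_sum_compl A _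

/-- the family of small 3-edge-cuts -/
def t5FF (α : D → D) (f : D → F) : Finset (Finset F) :=
  univ.filter (fun A => (cutD α f A).card = 3 ∧ 3 ≤ t5m f A ∧ 2 * t5m f A ≤ t5m f univ)

omit h hF in
theorem t5_mem_FF {A : Finset F} :
    A ∈ t5FF α f ↔ (cutD α f A).card = 3 ∧ 3 ≤ t5m f A ∧ 2 * t5m f A ≤ t5m f univ := by
  simp [t5FF]

theorem t5_max_disjoint {A B : Finset F} (hA : Maximal (· ∈ t5FF α f) A)
    (hB : Maximal (· ∈ t5FF α f) B) (hne : A ≠ B) : Disjoint A B := by
  by_contra hcon
  rw [Finset.not_disjoint_iff] at hcon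
  obtain ⟨z, hzA, hzB⟩ := hcon
  obtain ⟨a1, a2, a3⟩ := t5_mem_FF.1 hA.1
  obtain ⟨b1, b2, b3⟩ := t5_mem_FF.1 hB.1
  have hAB : ¬ A ⊆ B := fun hs => hne (hA.eq_of_le hB.1 hs)
  have hBA : ¬ B ⊆ A := fun hs => hne (hB.eq_of_le hA.1 hs).symm
  have n1 : (A ∩ B).Nonempty := ⟨z, mem_inter.2 ⟨hzA, hzB⟩⟩
  have n2 : (A \ B).Nonempty := by
    rw [Finset.sdiff_nonempty]; exact hAB
  have n3 : (B \ A).Nonempty := by
    rw [Finset.sdiff_nonempty]; exact hBA
  by_cases hu : A ∪ B = univ
  · -- the complement of A is a proper part of B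
    have h1 : t5m f B = t5m f Aᶜ + t5m f (A ∩ B) := by
      rw [← t5_m_disj]
      · congr 1
        ext x
        have : x ∈ A ∪ B := by rw [hu]; exact mem_univ x
        rw [mem_union] at this
        simp only [mem_union, mem_compl, mem_inter]
        tauto
      · rw [Finset.disjoint_left]
        intro x hx hx'
        exact (mem_compl.1 hx) (mem_inter.1 hx').1
    have h2 := t5_card_le h hF (A ∩ B)
    have h3 : 0 < (A ∩ B).card := n1.card_pos
    have h4 := t5_m_compl (f := f) A
    omega
  · have p1 : A ∩ B ≠ univ := by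
      intro hh
      apply hAB
      intro x _
      have : x ∈ A ∩ B := by rw [hh]; exact mem_univ x
      exact (mem_inter.1 this).2
    have p2 : A \ B ≠ univ := by
      intro hh
      obtain ⟨x, hx⟩ := n3
      have : x ∈ A \ B := by rw [hh]; exact mem_univ x
      exact (mem_sdiff.1 hx).2 (mem_sdiff.1 this).1
    have p3 : B \ A ≠ univ := by
      intro hh
      obtain ⟨x, hx⟩ := n2
      have : x ∈ B \ A := by rw [hh]; exact mem_univ x
      exact (mem_sdiff.1 hx).2 (mem_sdiff.1 this).1
    have nu : (A ∪ B).Nonempty := ⟨z, mem_union.2 (Or.inl hzA)⟩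
    have c1 := h.three _ n1 p1
    have c2 := h.three _ n2 p2
    have c3 := h.three _ n3 p3
    have c4 := h.three _ nu hu
    have s1 := t5_submod (α := α) (f := f) A B
    have s2 := t5_submod' (f := f) h.inv A B
    rw [a1, b1] at s1 s2
    obtain ⟨k1, hk1⟩ := t5_odd h hF (S := A ∩ B) (by omega)
    obtain ⟨k2, hk2⟩ := t5_odd h hF (S := A \ B) (by omega)
    obtain ⟨k3, hk3⟩ := t5_odd h hF (S := A) a1
    have h5 : t5m f A = t5m f (A ∩ B) + t5m f (A \ B) := by
      rw [← t5_m_disj]
      · congr 1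
        ext x
        simp only [mem_union, mem_inter, mem_sdiff]
        tauto
      · rw [Finset.disjoint_left]
        intro x hx hx'
        exact (mem_sdiff.1 hx').2 (mem_inter.1 hx).2
    omega

end

/-- the classes of the torso -/
def t5Class {D F : Type*} [Fintype D] [Fintype F] [DecidableEq F] (α : D → D) (f : D → F)
    (C : Finset F) : Prop :=
  Maximal (· ∈ t5FF α f) C ∨ ∃ x, C = {x} ∧ ∀ A ∈ t5FF α f, x ∉ A

/-! Module B5 -/
theorem exists_torso {D F : Type u} [Fintype D] [Fintype F] [DecidableEq F]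
    {α : D → D} {f : D → F} (h : MG α f) (hF : 2 ≤ Fintype.card F) :
    ∃ (V0 : Type u) (_ : Fintype V0) (_ : DecidableEq V0) (π : F → V0) (w : V0 → ℕ),
      Function.Surjective π ∧ 2 ≤ Fintype.card V0 ∧
      Torso α (fun d => π (f d)) (fun b => ∑ x ∈ univ.filter (fun x => π x = b), (deg f x - 2)) w ∧
      (∀ b, (w b = 0 ∧ ∀ x y, π x = b → π y = b → x = y) ∨
        (0 < w b ∧ (cutD α f (univ.filter (fun x => π x = b))).card = 3 ∧
          ∑ x ∈ univ.filter (fun x => π x = b), (deg f x - 2) = 2 * w b + 1 ∧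
          2 * (2 * w b + 1) ≤ ∑ x, (deg f x - 2))) := by
  classical
  -- maximal members above a member
  have hmax : ∀ A ∈ t5FF α f, ∃ B, A ⊆ B ∧ Maximal (· ∈ t5FF α f) B := by
    intro A hA
    exact (t5FF α f).finite_toSet.exists_le_maximal (by simpa using hA)
  have hcover : ∀ x : F, ∃ C, t5Class α f C ∧ x ∈ C := by
    intro x
    by_cases hx : ∃ A ∈ t5FF α f, x ∈ A
    · obtain ⟨A, hA, hxA⟩ := hx
      obtain ⟨B, hAB, hB⟩ := hmax A hA
      exact ⟨B, Or.inl hB, hAB hxA⟩
    · push Not at hx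
      exact ⟨{x}, Or.inr ⟨x, rfl, hx⟩, mem_singleton_self x⟩
  have huniq : ∀ C C', t5Class α f C → t5Class α f C' → ∀ x, x ∈ C → x ∈ C' → C = C' := by
    intro C C' hC hC' x hx hx'
    rcases hC with hC | ⟨y, rfl, hy⟩ <;> rcases hC' with hC' | ⟨y', rfl, hy'⟩
    · by_contra hne
      exact (Finset.disjoint_left.1 (t5_max_disjoint h hF hC hC' hne)) hx hx'
    · exfalso
      rw [mem_singleton] at hx'
      exact hy' C hC.1 (hx' ▸ hx)
    · exfalso
      rw [mem_singleton] at hx
      exact hy C' hC'.1 (hx ▸ hx')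
    · rw [mem_singleton] at hx hx'
      rw [← hx, ← hx']
  choose cl hcl1 hcl2 using hcover
  let V0 := {C : Finset F // t5Class α f C}
  let π : F → V0 := fun x => ⟨cl x, hcl1 x⟩
  have hπ : ∀ (x : F) (b : V0), π x = b ↔ x ∈ b.1 := by
    intro x b
    constructor
    · rintro rfl
      exact hcl2 x
    · intro hx
      exact Subtype.ext (huniq _ _ (hcl1 x) b.2 x (hcl2 x) hx)
  have hfib : ∀ b : V0, univ.filter (fun x => π x = b) = b.1 := by
    intro b
    ext x
    rw [mem_filter, hπ]
    simp
  have hne : ∀ b : V0, b.1.Nonempty := by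
    intro b
    rcases b.2 with hb | ⟨x, hx, -⟩
    · by_contra hcon
      rw [Finset.not_nonempty_iff_eq_empty] at hcon
      have h1 := (t5_mem_FF.1 hb.1).2.1
      rw [hcon] at h1
      simp [t5m] at h1
    · rw [hx]; exact singleton_nonempty x
  have hsurj : Function.Surjective π := by
    intro b
    obtain ⟨x, hx⟩ := hne b
    exact ⟨x, (hπ x b).2 hx⟩
  have hnu : ∀ b : V0, b.1 ≠ univ := by
    intro b hb
    rcases b.2 with hb' | ⟨x, hx, -⟩
    · have h1 := (t5_mem_FF.1 hb'.1).1
      rw [hb] at h1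
      have : cutD α f univ = ∅ := by
        ext d
        rw [t5_mem_cutD]
        simp
      rw [this] at h1
      simp at h1
    · rw [hx] at hb
      exact t5_single_ne h hF x hb
  let w : V0 → ℕ := fun b => if b.1 ∈ t5FF α f then t5m f b.1 / 2 else 0
  have hwblob : ∀ b : V0, b.1 ∈ t5FF α f →
      0 < w b ∧ (cutD α f b.1).card = 3 ∧ t5m f b.1 = 2 * w b + 1 ∧ 2 * (2 * w b + 1) ≤ t5m f univ := by
    intro b hb
    obtain ⟨h1, h2, h3⟩ := t5_mem_FF.1 hb
    obtain ⟨k, hk⟩ := t5_odd h hF h1
    have hw : w b = k := by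
      show (if b.1 ∈ t5FF α f then t5m f b.1 / 2 else 0) = k
      rw [if_pos hb, hk]
      omega
    rw [hw]
    refine ⟨by omega, h1, hk, by omega⟩
  have hwsing : ∀ b : V0, b.1 ∉ t5FF α f → w b = 0 ∧ ∃ x, b.1 = {x} := by
    intro b hb
    refine ⟨?_, ?_⟩
    · show (if b.1 ∈ t5FF α f then t5m f b.1 / 2 else 0) = 0
      rw [if_neg hb]
    · rcases b.2 with hb' | ⟨x, hx, -⟩
      · exact absurd hb'.1 hb
      · exact ⟨x, hx⟩
  -- cuts of the quotient
  have hcut : ∀ S : Finset V0, cutD α (fun d => π (f d)) S =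
      cutD α f (univ.filter (fun x => π x ∈ S)) := by
    intro S
    ext d
    rw [t5_mem_cutD, t5_mem_cutD]
    simp
  have hcut1 : ∀ b : V0, cutD α (fun d => π (f d)) {b} = cutD α f b.1 := by
    intro b
    rw [hcut, ← hfib b]
    congr 1
    ext x
    simp
  have hTne : ∀ S : Finset V0, S.Nonempty → (univ.filter (fun x => π x ∈ S)).Nonempty := by
    rintro S ⟨s, hs⟩
    obtain ⟨x, hx⟩ := hsurj s
    exact ⟨x, by rw [mem_filter]; exact ⟨mem_univ _, hx ▸ hs⟩⟩
  have hTnu : ∀ S : Finset V0, S ≠ univ → univ.filter (fun x => π x ∈ S) ≠ univ := by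
    intro S hS hT
    apply hS
    ext s
    simp only [mem_univ, iff_true]
    obtain ⟨x, hx⟩ := hsurj s
    have : x ∈ univ.filter (fun x => π x ∈ S) := by rw [hT]; exact mem_univ x
    rw [mem_filter] at this
    exact hx ▸ this.2
  -- small side
  have hsmall : ∀ S : Finset V0, S.Nonempty → (cutD α f (univ.filter (fun x => π x ∈ S))).card = 3 →
      2 * t5m f (univ.filter (fun x => π x ∈ S)) ≤ t5m f univ → S.card = 1 := by
    intro S hSne h3 h2
    obtain ⟨k, hk⟩ := t5_odd h hF h3
    have hTn := hTne S hSne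
    set T := univ.filter (fun x => π x ∈ S) with hT
    have hmemT : ∀ x, x ∈ T ↔ π x ∈ S := by intro x; rw [hT, mem_filter]; simp
    rw [Finset.card_eq_one]
    rcases Nat.lt_or_ge (t5m f T) 3 with hlt | hge
    · have h1 := t5_card_le h hF T
      have h4 : T.card = 1 := by
        have := hTn.card_pos
        omega
      obtain ⟨x, hx⟩ := Finset.card_eq_one.1 h4
      refine ⟨π x, ?_⟩
      ext s
      rw [mem_singleton]
      constructor
      · intro hs
        obtain ⟨y, hy⟩ := hsurj s
        have : y ∈ T := by rw [hmemT, hy]; exact hs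
        rw [hx, mem_singleton] at this
        rw [← hy, this]
      · rintro rfl
        rw [← hmemT, hx]
        exact mem_singleton_self x
    · have hTFF : T ∈ t5FF α f := t5_mem_FF.2 ⟨h3, hge, h2⟩
      obtain ⟨B, hTB, hB⟩ := hmax T hTFF
      let b : V0 := ⟨B, Or.inl hB⟩
      have hb : ∀ s ∈ S, s = b := by
        intro s hs
        obtain ⟨y, hy⟩ := hsurj s
        have h5 : y ∈ T := by rw [hmemT, hy]; exact hs
        have h6 : y ∈ b.1 := hTB h5
        rw [← hy, (hπ y b).2 h6]
      refine ⟨b, ?_⟩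
      ext s
      rw [mem_singleton]
      constructor
      · exact hb s
      · rintro rfl
        obtain ⟨s, hs⟩ := hSne
        rw [← hb s hs]
        exact hs
  refine ⟨V0, inferInstance, inferInstance, π, w, hsurj, ?_, ?_, ?_⟩
  · -- at least two classes
    have hFne : Nonempty F := by
      rw [← Fintype.card_pos_iff]
      omega
    obtain ⟨x⟩ := hFne
    have h1 := hnu (π x)
    have h2 : ∃ y, y ∉ (π x).1 := by
      by_contra hcon
      push Not at hcon
      exact h1 (by ext y; simp [hcon y])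
    obtain ⟨y, hy⟩ := h2
    have h3 : π y ≠ π x := by
      intro hh
      exact hy ((hπ y (π x)).1 hh)
    exact Fintype.one_lt_card_iff.2 ⟨π y, π x, h3⟩
  · -- Torso
    refine { inv := h.inv, ne := h.ne, three := ?_, mass := ?_, blob := ?_, torso := ?_ }
    · intro S hS1 hS2
      rw [hcut]
      exact h.three _ (hTne S hS1) (hTnu S hS2)
    · intro b
      rw [hcut1, hfib]
      show (cutD α f b.1).card + 2 * w b ≤ t5m f b.1 + 2
      by_cases hb : b.1 ∈ t5FF α f
      · obtain ⟨-, h1, h2, -⟩ := hwblob b hb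
        omega
      · obtain ⟨h1, x, hx⟩ := hwsing b hb
        rw [h1, hx]
        have h2 := t5_cut_le_deg (α := α) (f := f) x
        have h3 := t5_deg h hF x
        have h4 : t5m f {x} = deg f x - 2 := by simp [t5m]
        rw [h4]
        omega
    · intro b hb
      rw [hcut1]
      by_cases hb' : b.1 ∈ t5FF α f
      · exact (hwblob b hb').2.1
      · rw [(hwsing b hb').1] at hb
        exact absurd hb (lt_irrefl _)
    · intro S hS1 hS2 hS3
      rw [hcut] at hS3
      have hcompl : univ.filter (fun x => π x ∈ Sᶜ) = (univ.filter (fun x => π x ∈ S))ᶜ := by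
        ext x
        simp
      have hsum := t5_m_compl (f := f) (univ.filter (fun x => π x ∈ S))
      by_cases hle : 2 * t5m f (univ.filter (fun x => π x ∈ S)) ≤ t5m f univ
      · left
        exact hsmall S hS1 hS3 hle
      · right
        apply hsmall Sᶜ
        · rw [Finset.nonempty_iff_ne_empty]
          intro hh
          apply hS2
          rwa [Finset.compl_eq_empty_iff] at hh
        · rw [hcompl, t5_cut_compl h.inv]
          exact hS3
        · rw [hcompl]
          omega
  · intro b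
    rw [hfib]
    by_cases hb : b.1 ∈ t5FF α f
    · right
      exact hwblob b hb
    · left
      obtain ⟨h1, x, hx⟩ := hwsing b hb
      refine ⟨h1, ?_⟩
      intro y z hy hz
      rw [hπ, hx, mem_singleton] at hy hz
      rw [hy, hz]

end Pool.Agent.Helper11.Stc
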