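import Pool.Agent.Helper11.Stc.Odd

set_option autoImplicit false

namespace Pool.Agent.Helper11.Stc

open Finset

section
variable {D F : Type*} [Fintype D] [Fintype F] [DecidableEq F] {α : D → D} {f : D → F}
  {μ w : F → ℕ} {x y : F} {s : F → ℕ}

/-- no blobs: the far class determines the root pair -/
theorem far_unique (h : Torso α f μ w) (hw0 : ∀ b, w b = 0) (hxy : x ≠ y)
    (ht : Times α f w x y s) {u v : F} (huv : u ≠ v) (hlt : s u < s v)
    (hsv : s v ≤ s u + w u + 1) (heq : 2 * (s u + w u + s v + w v) = ∑ b, μ b)
    {r : F → ℕ} (hr : Times α f w v v r) (b : F) : s v ≤ r b ↔ b = x ∨ b = y := by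
  classical
  have hc := crit_of_eq h ht hxy huv hlt.le hsv heq
  have h4 := four_classes ht hxy huv hlt.le hc
  have hpos := hc.pos
  have hwu := hw0 u
  have hwv := hw0 v
  -- triangle inequality
  have htri : ∀ k b, r b = k → s v ≤ s b + r b := by
    intro k
    induction k using Nat.strong_induction_on with
    | _ k ih =>
      intro b hb
      by_cases hbv : b = v
      · subst hbv; omega
      · obtain ⟨d, hd, hd'⟩ := hr.pred b hbv hbv
        have h1 := hw0 (f (α d))
        have h2 := ih (r (f (α d))) (by omega) (f (α d)) rfl
        have h3 := ht.le (α d)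
        rw [h.inv, hd, hw0 b] at h3
        omega
  have hrx : s v ≤ r x := by
    have := htri _ x rfl
    rw [ht.zx] at this
    omega
  have hry : s v ≤ r y := by
    have := htri _ y rfl
    rw [ht.zy] at this
    omega
  constructor
  · intro hb
    by_contra hcon
    push Not at hcon
    obtain ⟨hbx, hby⟩ := hcon
    have hwle : ∀ b, 2 * w b ≤ μ b := by
      intro b; rw [hw0 b]; omega
    -- mass count from v
    have hU : ∀ t, t < s v → 2 ≤ (Ut r t).card := fun t ht' =>
      Ut_card_two hxy (by omega) (by omega)
    have hvD : ∀ t, 1 ≤ t → v ∈ Dn r w t := by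
      intro t ht'
      rw [mem_Dn, hr.zx, hw0 v]
      omega
    have hC3 : ∀ t, 1 ≤ t → t < s v → 3 ≤ Ct μ w r t := by
      intro t h1 h2
      have h3 := hU t h2
      have := Ct_ge_three h hr t ⟨v, hvD t h1⟩ (card_pos.1 (by omega))
      omega
    obtain ⟨d0, hd0, hd0'⟩ : ∃ d, f d = v ∧ f (α d) ≠ v := by
      have h3 := h.toMG.three_singleton (b := v) (c := u) huv
      have : (cutD α f ({v} : Finset F)).Nonempty := card_pos.1 (by omega)
      obtain ⟨d, hd⟩ := this
      rw [mem_cutD, mem_singleton, mem_singleton] at hd
      exact ⟨d, hd⟩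
    have hnb : r (f (α d0)) ≤ 1 := by
      have := hr.le (α d0)
      rw [h.inv, hd0, hr.zx, hw0 v] at this
      omega
    have hC4 : ∀ t, 2 ≤ t → t < s v → 4 ≤ Ct μ w r t := by
      intro t h1 h2
      have hD2 : 2 ≤ (Dn r w t).card := by
        have hsub : ({v, f (α d0)} : Finset F) ⊆ Dn r w t := by
          intro c hc'
          rw [mem_insert, mem_singleton] at hc'
          rcases hc' with rfl | rfl
          · exact hvD t (by omega)
          · rw [mem_Dn, hw0]; omega
        have := card_le_card hsub
        rwa [card_pair (Ne.symm hd0')] at this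
      have := Ct_ge_four h hr t hD2 (hU t h2)
      omega
    have hC0 : 1 ≤ Ct μ w r 0 := by
      have h1 : con μ w r v 0 ≤ Ct μ w r 0 :=
        single_le_sum (f := fun b => con μ w r b 0) (fun _ _ => Nat.zero_le _) (mem_univ v)
      unfold con at h1
      rw [if_pos hr.zx] at h1
      have := h.two_w_lt huv
      omega
    have htot := total_eq (s := r) hwle (s v)
    have hsumC : 4 * s v ≤ ∑ t ∈ range (s v), Ct μ w r t + 4 := by
      have h1 : ∑ t ∈ range (s v), 4 ≤ ∑ t ∈ range (s v),
          (Ct μ w r t + (if t = 0 then 3 else 0) + (if t = 1 then 1 else 0)) := by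
        apply sum_le_sum
        intro t ht'
        rw [mem_range] at ht'
        by_cases h0 : t = 0
        · rw [h0, if_pos rfl]; omega
        · by_cases h1 : t = 1
          · rw [h1, if_neg (by omega), if_pos rfl]
            have := hC3 1 le_rfl (by omega)
            omega
          · rw [if_neg h0, if_neg h1]
            have := hC4 t (by omega) ht'
            omega
      rw [sum_add_distrib, sum_add_distrib, sum_const, card_range, smul_eq_mul] at h1
      have h2 := sum_ite_range_le (s v) 0 3
      have h3 := sum_ite_range_le (s v) 1 1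
      omega
    have hrem : μ b + (μ x + μ y) ≤ ∑ b, rem μ w r (s v) b := by
      have := sum_le_sum_of_subset (f := fun b => rem μ w r (s v) b)
        (subset_univ ({b, x, y} : Finset F))
      rw [sum_insert (by simp [hbx, hby]), sum_pair hxy] at this
      unfold rem at this
      rw [if_pos hb, if_pos hrx, if_pos hry] at this
      exact this
    have h5 := h.two_w_lt (b := b) (c := x) (Ne.symm hbx)
    have h6 := h.two_w_lt (b := x) (c := y) hxy.symm
    have h7 := h.two_w_lt (b := y) (c := x) hxy
    omega
  · rintro (rfl | rfl)
    · exact hrx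
    · exact hry

/-- number of darts between distinct classes is at least `3 |F|` -/
theorem card_inter (h : MG α f) (hF : 2 ≤ Fintype.card F) :
    3 * Fintype.card F ≤ (univ.filter (fun d => f d ≠ f (α d))).card := by
  classical
  have e1 : (univ.filter (fun d => f d ≠ f (α d))).card
      = ∑ b : F, (cutD α f {b}).card := by
    rw [card_eq_sum_card_fiberwise (f := f) (t := univ)]
    · apply sum_congr rfl
      intro b _
      congr 1
      ext d
      rw [mem_cutD, mem_filter, mem_filter, mem_singleton, mem_singleton]
      constructor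
      · rintro ⟨⟨_, h1⟩, h2⟩
        exact ⟨h2, fun h3 => h1 (h2.trans h3.symm)⟩
      · rintro ⟨h1, h2⟩
        exact ⟨⟨mem_univ _, fun h3 => h2 (h3.symm.trans h1)⟩, h1⟩
    · intro d _
      exact mem_coe.2 (mem_univ _)
  rw [e1]
  have : ∑ _b : F, 3 ≤ ∑ b : F, (cutD α f {b}).card := by
    apply sum_le_sum
    intro b _
    obtain ⟨c, hc⟩ := Fintype.exists_ne_of_one_lt_card (by omega) b
    exact h.three_singleton hc
  rw [sum_const, card_univ, smul_eq_mul] at this
  omega

/-- case without blobs: some root edge is not critical -/
theorem odd_none (h : Torso α f μ w) (hF : 2 ≤ Fintype.card F) (hw0 : ∀ b, w b = 0)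
    (hM : (∑ b, μ b) % 4 = 2) :
    ∃ x y, x ≠ y ∧ Adj' α f x y ∧ ∀ s, Times α f w x y s → ∀ u v, u ≠ v → s u ≤ s v →
      s v ≤ s u + w u + 1 → 2 * (s u + w u + s v + w v) = ∑ b, μ b → False := by
  classical
  by_contra hcon
  push Not at hcon
  -- for every inter-class dart a far class
  have hfar : ∀ e : D, f e ≠ f (α e) → ∃ v : F, v ≠ f e ∧ v ≠ f (α e) ∧
      μ (f e) = 1 ∧ μ (f (α e)) = 1 ∧
      ∀ r, Times α f w v v r → ∀ b, (∑ b, μ b + 2) / 4 ≤ r b ↔ b = f (α e) ∨ b = f e := by
    intro e he
    obtain ⟨s, hs, u, v, huv, hle, hsv, heq, _⟩ := hcon (f (α e)) (f e) he.symm ⟨e, rfl, rfl⟩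
    have hwu := hw0 u
    have hwv := hw0 v
    have hc := crit_of_eq h hs he.symm huv hle hsv heq
    have h4 := four_classes hs he.symm huv hle hc
    have hlt : s u < s v := by
      rcases Nat.lt_or_ge (s u) (s v) with h1 | h1
      · exact h1
      · exfalso; omega
    refine ⟨v, h4.2.2.2.symm, h4.2.1.symm, ?_, ?_, ?_⟩
    · have := hc.muy; have := hw0 (f e); omega
    · have := hc.mux; have := hw0 (f (α e)); omega
    · intro r hr b
      have := far_unique h hw0 he.symm hs huv hlt hsv heq hr b
      rw [← this]
      have : (∑ b, μ b + 2) / 4 = s v := by omega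
      rw [this]
  have : Nonempty F := Fintype.card_pos_iff.1 (by omega)
  choose! far hfar1 hfar2 hfar3 hfar4 hfar5 using hfar
  choose r hr using fun v : F => exists_times h.toMG w v v
  set E := univ.filter (fun d => f d ≠ f (α d)) with hE
  have hcount : 3 * Fintype.card F ≤ E.card := card_inter h.toMG hF
  have hfib : ∀ v ∈ E.image far, (E.filter (fun e => far e = v)).card ≤ 2 := by
    intro v hv
    rw [mem_image] at hv
    obtain ⟨e, he, hev⟩ := hv
    rw [hE, mem_filter] at he
    set x := f (α e) with hx
    set y := f e with hy
    have hxy : x ≠ y := he.2.symm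
    have hk : ∀ p q : F, p ≠ q → ({p, q} : Finset F) = {x, y} →
        (univ.filter (fun d => f d = p ∧ f (α d) = q)).card ≤ 1 := by
      intro p q hpq hpair
      have h1 := cut_insert h.toMG (p := p) (S := {q}) (by rw [mem_singleton]; exact hpq)
      have h2 := h.three (insert p {q}) ⟨p, mem_insert_self _ _⟩ (by
        intro hu
        have : far e ∈ (insert p {q} : Finset F) := by rw [hu]; exact mem_univ _
        rw [hpair, mem_insert, mem_singleton] at this
        rcases this with h3 | h3
        · exact hfar2 e he.2 h3
        · exact hfar1 e he.2 h3)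
      have hμ : ∀ z ∈ ({x, y} : Finset F), (cutD α f {z}).card ≤ 3 := by
        intro z hz
        rw [mem_insert, mem_singleton] at hz
        have hm := h.mass z
        have := hw0 z
        rcases hz with h3 | h3
        · have h8 : μ x = 1 := hfar4 e he.2
          rw [h3] at hm ⊢
          omega
        · have h8 : μ y = 1 := hfar3 e he.2
          rw [h3] at hm ⊢
          omega
      have h5 := hμ p (by rw [← hpair]; exact mem_insert_self _ _)
      have h6 := hμ q (by rw [← hpair]; exact mem_insert_of_mem (mem_singleton_self _))
      have h7 : (univ.filter (fun d => f d = p ∧ f (α d) = q)).card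
          = (univ.filter (fun d => f d = p ∧ f (α d) ∈ ({q} : Finset F))).card := by
        congr 1
        ext d
        simp
      omega
    have hsub : E.filter (fun e => far e = v) ⊆
        univ.filter (fun d => f d = y ∧ f (α d) = x) ∪
        univ.filter (fun d => f d = x ∧ f (α d) = y) := by
      intro e' he'
      rw [mem_filter, hE, mem_filter] at he'
      obtain ⟨⟨_, hne⟩, hv'⟩ := he'
      have h1 := hfar5 e he.2 (r v) (by rw [hev]; exact hr v)
      have h2 := hfar5 e' hne (r v) (by rw [hv']; exact hr v)
      have h3 : ∀ b, (b = f (α e') ∨ b = f e') ↔ (b = x ∨ b = y) := by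
        intro b
        rw [← h2 b, h1 b]
      have h4 := (h3 (f (α e'))).1 (Or.inl rfl)
      have h5 := (h3 (f e')).1 (Or.inr rfl)
      rw [mem_union, mem_filter, mem_filter]
      rcases h4 with h4 | h4
      · rcases h5 with h5 | h5
        · exact absurd (h5.trans h4.symm) hne
        · left; exact ⟨mem_univ _, h5, h4⟩
      · rcases h5 with h5 | h5
        · right; exact ⟨mem_univ _, h5, h4⟩
        · exact absurd (h5.trans h4.symm) hne
    have h1 := hk y x hxy.symm (by rw [pair_comm])
    have h2 := hk x y hxy rfl
    have := (card_le_card hsub).trans (card_union_le _ _)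
    omega
  have h1 := card_le_mul_card_image (f := far) E 2 hfib
  have h2 : (E.image far).card ≤ Fintype.card F := by
    rw [← card_univ]
    exact card_le_card (subset_univ _)
  omega

end

theorem torso_main {D F : Type*} [Fintype D] [Fintype F] [DecidableEq F]
    {α : D → D} {f : D → F} {μ w : F → ℕ} (h : Torso α f μ w) (hF : 2 ≤ Fintype.card F)
    (n : ℕ) (hn : ∑ b, μ b + 4 = 2 * n) :
    ∃ (x y : F) (s : F → ℕ), (∃ d, f d = y ∧ f (α d) = x) ∧ x ≠ y ∧ s x = 0 ∧ s y = 0 ∧
      (∀ b, b ≠ x → b ≠ y → ∃ d, f d = b ∧ s b = s (f (α d)) + w (f (α d)) + 1) ∧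
      (∀ d, f d ≠ f (α d) →
        s (f d) + w (f d) + s (f (α d)) + w (f (α d)) + 2 ≤ 2 * (n / 2)) := by
  classical
  -- it suffices to find a good root edge
  suffices hgood : ∃ x y, x ≠ y ∧ Adj' α f x y ∧ (n % 2 = 1 → ∀ s, Times α f w x y s →
      ∀ u v, u ≠ v → s u ≤ s v → s v ≤ s u + w u + 1 →
      2 * (s u + w u + s v + w v) = ∑ b, μ b → False) by
    obtain ⟨x, y, hxy, hadj, hcrit⟩ := hgood
    obtain ⟨s, hs⟩ := exists_times h.toMG w x y
    refine ⟨x, y, s, hadj, hxy, hs.zx, hs.zy, hs.pred, ?_⟩
    intro d hd
    have h1 := bound_dart h hs hxy d hd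
    rcases Nat.mod_two_eq_zero_or_one n with h2 | h2
    · omega
    · have h3 : 2 * (s (f d) + w (f d) + s (f (α d)) + w (f (α d))) ≠ ∑ b, μ b := by
        intro heq
        have h4 := hs.le d
        have h5 := hs.le (α d)
        rw [h.inv] at h5
        rcases le_total (s (f d)) (s (f (α d))) with hle | hle
        · exact hcrit h2 s hs _ _ hd hle h5 heq
        · exact hcrit h2 s hs _ _ hd.symm hle h4 (by rw [← heq]; ring)
      omega
  have hexadj : ∀ S : Finset F, S.Nonempty → S ≠ univ → ∃ x y, x ∉ S ∧ y ∈ S ∧ Adj' α f x y := by
    intro S h1 h2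
    have h3 := h.three S h1 h2
    obtain ⟨e, he⟩ := card_pos.1 (by omega : 0 < (cutD α f S).card)
    rw [mem_cutD] at he
    exact ⟨f (α e), f e, he.2, he.1, e, rfl, rfl⟩
  rcases Nat.mod_two_eq_zero_or_one n with hn2 | hn2
  · -- n even: any root edge
    obtain ⟨a, b, hab⟩ := Fintype.exists_pair_of_one_lt_card (by omega : 1 < Fintype.card F)
    obtain ⟨x, y, hx, hy, hadj⟩ := hexadj {b} (singleton_nonempty b) (by
      intro hu
      have : a ∈ ({b} : Finset F) := by rw [hu]; exact mem_univ _
      exact hab (mem_singleton.1 this))
    refine ⟨x, y, fun hh => hx (hh ▸ hy), hadj, ?_⟩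
    intro h1; omega
  · have hM : (∑ b, μ b) % 4 = 2 := by omega
    by_cases hw0 : ∀ b, w b = 0
    · obtain ⟨x, y, hxy, hadj, hcr⟩ := odd_none h hF hw0 hM
      exact ⟨x, y, hxy, hadj, fun _ => hcr⟩
    · push Not at hw0
      obtain ⟨p0, hp0⟩ := hw0
      by_cases h5 : 5 ≤ Fintype.card F
      · by_cases hall : ∀ b, 0 < w b
        · -- all classes are blobs
          obtain ⟨a, b, hab⟩ := Fintype.exists_pair_of_one_lt_card (by omega : 1 < Fintype.card F)
          obtain ⟨x, y, hx, hy, hadj⟩ := hexadj {b} (singleton_nonempty b) (by
            intro hu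
            have : a ∈ ({b} : Finset F) := by rw [hu]; exact mem_univ _
            exact hab (mem_singleton.1 this))
          have hxy : x ≠ y := fun hh => hx (hh ▸ hy)
          refine ⟨x, y, hxy, hadj, ?_⟩
          intro _ s hs u v huv hle hsv heq
          have hc := crit_of_eq h hs hxy huv hle hsv heq
          have h4 := four_classes hs hxy huv hle hc
          obtain ⟨z, hz⟩ : ∃ z, z ∉ ({x, y, u, v} : Finset F) := by
            by_contra hcon
            push Not at hcon
            have h5' := card_quad hxy huv h4
            have h6 : ({x, y, u, v} : Finset F) = univ := by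
              ext b; simp only [hcon b, mem_univ]
            rw [h6, card_univ] at h5'
            omega
          simp only [mem_insert, mem_singleton, not_or] at hz
          have := hc.w_zero h hs hxy huv hsv z hz.1 hz.2.1 hz.2.2.1 hz.2.2.2
          have := hall z
          omega
        · -- a blob next to a class of weight zero
          push Not at hall
          obtain ⟨q, hq⟩ := hall
          obtain ⟨p, y, hp, hy, hadj⟩ := hexadj (univ.filter (fun b => w b = 0))
            ⟨q, by rw [mem_filter]; exact ⟨mem_univ _, by omega⟩⟩ (by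
              intro hu
              have : p0 ∈ univ.filter (fun b => w b = 0) := by rw [hu]; exact mem_univ _
              rw [mem_filter] at this
              exact hp0 this.2)
          rw [mem_filter] at hp hy
          have hp' : 0 < w p := by
            by_contra hcon
            exact hp ⟨mem_univ _, by omega⟩
          obtain ⟨x, hxy, hadj', hcr⟩ := odd_blob h h5 hp' hy.2 hadj
          exact ⟨x, y, hxy, hadj', fun _ => hcr⟩
      · -- at most four classes
        by_cases heqw : ∃ x y, x ≠ y ∧ Adj' α f x y ∧ w x ≠ w y
        · obtain ⟨x, y, hxy, hadj, hne⟩ := heqw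
          refine ⟨x, y, hxy, hadj, ?_⟩
          intro _ s hs u v huv hle hsv heq
          have hc := crit_of_eq h hs hxy huv hle hsv heq
          have h4 := four_classes hs hxy huv hle hc
          have hc4 : Fintype.card F = 4 := by
            have h5' := card_quad hxy huv h4
            have := card_le_card (subset_univ ({x, y, u, v} : Finset F))
            rw [h5', card_univ] at this
            omega
          exact hne (odd_four h hc4 hxy hs huv hle hsv heq).1
        · push Not at heqw
          -- all weights are equal
          have hall : ∀ b, w b = w p0 := by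
            by_contra hcon
            push Not at hcon
            obtain ⟨q, hq⟩ := hcon
            obtain ⟨x, y, hx, hy, hadj⟩ := hexadj (univ.filter (fun b => w b = w p0))
              ⟨p0, by rw [mem_filter]; exact ⟨mem_univ _, rfl⟩⟩ (by
                intro hu
                have : q ∈ univ.filter (fun b => w b = w p0) := by rw [hu]; exact mem_univ _
                rw [mem_filter] at this
                exact hq this.2)
            rw [mem_filter] at hx hy
            have hxy : x ≠ y := by
              rintro rfl
              exact hx hy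
            have := heqw x y hxy hadj
            exact hx ⟨mem_univ _, by rw [this]; exact hy.2⟩
          obtain ⟨a, b, hab⟩ := Fintype.exists_pair_of_one_lt_card (by omega : 1 < Fintype.card F)
          obtain ⟨x, y, hx, hy, hadj⟩ := hexadj {b} (singleton_nonempty b) (by
            intro hu
            have : a ∈ ({b} : Finset F) := by rw [hu]; exact mem_univ _
            exact hab (mem_singleton.1 this))
          have hxy : x ≠ y := fun hh => hx (hh ▸ hy)
          refine ⟨x, y, hxy, hadj, ?_⟩
          intro _ s hs u v huv hle hsv heq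
          have hc := crit_of_eq h hs hxy huv hle hsv heq
          have h4 := four_classes hs hxy huv hle hc
          have hc4 : Fintype.card F = 4 := by
            have h5' := card_quad hxy huv h4
            have := card_le_card (subset_univ ({x, y, u, v} : Finset F))
            rw [h5', card_univ] at this
            omega
          rcases (odd_four h hc4 hxy hs huv hle hsv heq).2 with h6 | h6
          · rw [hall u] at h6
            exact hp0 h6
          · have h7 : ∑ b, μ b = ∑ _b : F, (2 * w p0 + 1) := by
              apply sum_congr rfl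
              intro b _
              rw [h6 b, hall b]
            rw [sum_const, card_univ, hc4, smul_eq_mul] at h7
            omega

end Pool.Agent.Helper11.Stc
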