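import Pool.Agent.Helper11.Stc.Assembly7
import Pool.Agent.Helper11.Stc.Torso5
import Pool.Agent.Helper11.Stc.Depth6
import Pool.Agent.Helper11.Stc.TorsoMain

set_option autoImplicit false

namespace Pool.Agent.Helper11.Stc

open Finset

universe u

theorem mg_main {D F : Type u} [Fintype D] [DecidableEq D] [Fintype F] [DecidableEq F]
    {α : D → D} {f : D → F} (h : MG α f) (hF : 1 ≤ Fintype.card F)
    (n : ℕ) (hn2 : 2 ≤ n) (hn : Fintype.card D + 4 = 2 * Fintype.card F + 2 * n) :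
    ∃ T : Finset D, (∀ d ∈ T, α d ∈ T) ∧ T.card = 2 * (Fintype.card F - 1) ∧
      (∀ Z : Finset D, (∀ d ∈ Z, α d ∉ Z) →
        (∀ x, (Z.filter (fun d => f d = x)).card = (Z.filter (fun d => f (α d) = x)).card) →
        Z ⊆ T → Z = ∅) ∧
      (∀ d0 : D, ∀ Z : Finset D, (∀ d ∈ Z, α d ∉ Z) →
        (∀ x, (Z.filter (fun d => f d = x)).card = (Z.filter (fun d => f (α d) = x)).card) →
        (∀ d ∈ Z, d ∈ T ∨ d = d0 ∨ d = α d0) → Z.card ≤ 2 * (n / 2)) :=
  mg_main_of h hF n hn2 hn (fun h2 => exists_torso h h2)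
    (fun A hA w hm a ha hout => blob_depth h A hA w hm a ha hout)
    (fun V0 _ _ f0 μ w ht h2 n hn => torso_main ht h2 n hn)

end Pool.Agent.Helper11.Stc
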