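import Pool.Agent.Helper11.Stc.Critical

set_option autoImplicit false

namespace Pool.Agent.Helper11.Stc

open Finset

section
variable {D F : Type*} [Fintype D] [Fintype F] [DecidableEq F] {α : D → D} {f : D → F}
  {μ w : F → ℕ} {x y : F} {s : F → ℕ}

theorem cut_insert (h : MG α f) {p : F} {S : Finset F} (hp : p ∉ S) :
    (cutD α f (insert p S)).card + 2 * (univ.filter (fun d => f d = p ∧ f (α d) ∈ S)).card
      ≤ (cutD α f S).card + (cutD α f {p}).card := by
  classical
  set A := univ.filter (fun d => f d = p ∧ f (α d) ∈ S) with hA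
  set B := univ.filter (fun d => f d ∈ S ∧ f (α d) = p) with hB
  set C1 := univ.filter (fun d => f d ∈ S ∧ f (α d) ∉ insert p S) with hC1
  set C2 := univ.filter (fun d => f d = p ∧ f (α d) ∉ insert p S) with hC2
  have h1 : (cutD α f (insert p S)).card ≤ C1.card + C2.card := by
    refine (card_le_card ?_).trans (card_union_le C1 C2)
    intro d hd
    rw [mem_cutD, mem_insert] at hd
    rw [mem_union, hC1, hC2, mem_filter, mem_filter]
    rcases hd with ⟨h2 | h2, h3⟩
    · exact Or.inr ⟨mem_univ _, h2, h3⟩
    · exact Or.inl ⟨mem_univ _, h2, h3⟩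
  have h2 : C1.card + B.card ≤ (cutD α f S).card := by
    rw [← card_union_of_disjoint]
    · apply card_le_card
      intro d hd
      rw [mem_union, hC1, hB, mem_filter, mem_filter] at hd
      rw [mem_cutD]
      rcases hd with ⟨_, h2, h3⟩ | ⟨_, h2, h3⟩
      · exact ⟨h2, fun hh => h3 (mem_insert_of_mem hh)⟩
      · exact ⟨h2, by rw [h3]; exact hp⟩
    · rw [Finset.disjoint_left]
      intro d hd hd'
      rw [hC1, mem_filter] at hd
      rw [hB, mem_filter] at hd'
      exact hd.2.2 (by rw [hd'.2.2]; exact mem_insert_self _ _)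
  have h3 : C2.card + A.card ≤ (cutD α f {p}).card := by
    rw [← card_union_of_disjoint]
    · apply card_le_card
      intro d hd
      rw [mem_union, hC2, hA, mem_filter, mem_filter] at hd
      rw [mem_cutD, mem_singleton, mem_singleton]
      rcases hd with ⟨_, h2, h3⟩ | ⟨_, h2, h3⟩
      · exact ⟨h2, fun hh => h3 (by rw [hh]; exact mem_insert_self _ _)⟩
      · exact ⟨h2, fun hh => hp (by rw [hh] at h3; exact h3)⟩
    · rw [Finset.disjoint_left]
      intro d hd hd'
      rw [hC2, mem_filter] at hd
      rw [hA, mem_filter] at hd'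
      exact hd.2.2 (mem_insert_of_mem hd'.2.2)
  have h4 : A.card ≤ B.card := by
    apply card_le_card_of_injOn α
    · intro d hd
      rw [mem_coe, hA, mem_filter] at hd
      rw [mem_coe, hB, mem_filter, h.inv]
      exact ⟨mem_univ _, hd.2.2, hd.2.1⟩
    · exact h.inj.injOn
  omega

/-- adjacency in the multigraph -/
def Adj' (α : D → D) (f : D → F) (x y : F) : Prop := ∃ e, f e = y ∧ f (α e) = x

omit [Fintype D] [Fintype F] [DecidableEq F] in
theorem Adj'.symm (hinv : ∀ d, α (α d) = d) (h : Adj' α f x y) : Adj' α f y x := by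
  obtain ⟨e, h1, h2⟩ := h
  exact ⟨α e, h2, by rw [hinv]; exact h1⟩

theorem cut_le_of_mu (h : Torso α f μ w) {b : F} (hb : μ b = 2 * w b + 1) :
    (cutD α f {b}).card ≤ 3 := by
  have := h.mass b
  omega

/-- cut of an adjacent pair of two cubic classes -/
theorem cut_pair_le (h : MG α f) {x y : F} (hxy : x ≠ y) (ha : Adj' α f x y) :
    (cutD α f ({x, y} : Finset F)).card + 2 ≤ (cutD α f {x}).card + (cutD α f {y}).card := by
  have h1 := cut_insert h (p := x) (S := {y}) (by rw [mem_singleton]; exact hxy)
  have h2 : 1 ≤ (univ.filter (fun d => f d = x ∧ f (α d) ∈ ({y} : Finset F))).card := by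
    obtain ⟨e, he, he'⟩ := ha
    apply card_pos.2
    refine ⟨α e, ?_⟩
    rw [mem_filter, mem_singleton, h.inv]
    exact ⟨mem_univ _, he', he⟩
  omega

theorem four_classes (ht : Times α f w x y s) (hxy : x ≠ y) {u v : F} (huv : u ≠ v)
    (hle : s u ≤ s v) (hc : Crit μ w s x y u v) :
    x ≠ u ∧ x ≠ v ∧ y ≠ u ∧ y ≠ v := by
  have := hc.pos
  have h1 := ht.zx
  have h2 := ht.zy
  refine ⟨?_, ?_, ?_, ?_⟩ <;> · rintro rfl; omega

theorem card_quad (hxy : x ≠ y) {u v : F} (huv : u ≠ v) (h4 : x ≠ u ∧ x ≠ v ∧ y ≠ u ∧ y ≠ v) :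
    ({x, y, u, v} : Finset F).card = 4 := by
  obtain ⟨h1, h2, h3, h4⟩ := h4
  rw [card_insert_of_notMem (by simp [hxy, h1, h2]), card_insert_of_notMem (by simp [h3, h4]),
    card_pair huv]

theorem sum_quad (hxy : x ≠ y) {u v : F} (huv : u ≠ v) (h4 : x ≠ u ∧ x ≠ v ∧ y ≠ u ∧ y ≠ v)
    (g : F → ℕ) : ∑ b ∈ ({x, y, u, v} : Finset F), g b = g x + (g y + (g u + g v)) := by
  obtain ⟨h1, h2, h3, h4⟩ := h4
  rw [sum_insert (by simp [hxy, h1, h2]), sum_insert (by simp [h3, h4]), sum_pair huv]

/-- case of a blob next to a class of weight zero, at least five classes -/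
theorem odd_blob (h : Torso α f μ w) (hF : 5 ≤ Fintype.card F) {p y : F} (hp : 0 < w p)
    (hy : w y = 0) (hpy : Adj' α f p y) :
    ∃ x, x ≠ y ∧ Adj' α f x y ∧ ∀ s, Times α f w x y s → ∀ u v, u ≠ v → s u ≤ s v →
      s v ≤ s u + w u + 1 → 2 * (s u + w u + s v + w v) = ∑ b, μ b → False := by
  classical
  have hpne : p ≠ y := by rintro rfl; omega
  have hcp := h.blob p hp
  have hcy3 : 3 ≤ (cutD α f {y}).card := h.toMG.three_singleton hpne
  -- another neighbour of y
  obtain ⟨e1, he1, he1y, he1p⟩ : ∃ e1, f e1 = y ∧ f (α e1) ≠ y ∧ f (α e1) ≠ p := by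
    by_contra hcon
    push Not at hcon
    have h1 := cut_insert h.toMG (p := y) (S := {p}) (by rw [mem_singleton]; exact hpne.symm)
    have h2 : (cutD α f {y}).card ≤
        (univ.filter (fun d => f d = y ∧ f (α d) ∈ ({p} : Finset F))).card := by
      apply card_le_card
      intro d hd
      rw [mem_cutD, mem_singleton, mem_singleton] at hd
      rw [mem_filter, mem_singleton]
      exact ⟨mem_univ _, hd.1, hcon d hd.1 hd.2⟩
    have h3 := h.three (insert y {p}) ⟨y, mem_insert_self _ _⟩ (by
      intro hu
      have := card_le_card (hu ▸ subset_univ (univ : Finset F) : (univ : Finset F) ⊆ insert y {p})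
      have h5 := card_insert_le y ({p} : Finset F)
      rw [card_univ] at this
      rw [card_singleton] at h5
      omega)
    omega
  set x := f (α e1) with hxdef
  have hxy : x ≠ y := he1y
  have hadj : Adj' α f x y := ⟨e1, he1, rfl⟩
  refine ⟨x, hxy, hadj, ?_⟩
  intro s ht u v huv hle hsv heq
  have hc := crit_of_eq h ht hxy huv hle hsv heq
  have h4 := four_classes ht hxy huv hle hc
  have hpuv : p = u ∨ p = v := by
    by_contra hcon
    push Not at hcon
    have := hc.w_zero h ht hxy huv hsv p he1p.symm hpne hcon.1 hcon.2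
    omega
  have hsp : s p = 1 := by
    have h1 := s_pos ht he1p.symm hpne
    obtain ⟨e, he, he'⟩ := hpy
    have h2 := ht.le (α e)
    rw [h.inv, he, he', ht.zy, hy] at h2
    omega
  have hpos := hc.pos
  have hsu : s u = 1 := by
    rcases hpuv with h1 | h1
    · rw [← h1]; exact hsp
    · rw [← h1] at hle; omega
  have hux := h.two_w_lt (b := u) (c := x) h4.1
  rcases Nat.lt_or_ge (s u) (s v) with hlt | hge
  · -- the critical level
    have hpu : p = u := by
      rcases hpuv with h1 | h1
      · exact h1
      · exfalso; rw [← h1] at hlt; omega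
    obtain ⟨hO, hD2, hsum, hUv, ha⟩ := hc.level h ht hxy hlt
    rw [hsu] at hO hD2 hsum hUv ha
    have hDn : Dn s w 1 = {x, y} := by
      apply Subset.antisymm
      · intro b hb
        rw [mem_Dn] at hb
        rw [mem_insert, mem_singleton]
        by_contra hcon
        push Not at hcon
        have := s_pos ht hcon.1 hcon.2
        omega
      · have hr := root_old ht (t := 1) le_rfl
        rw [hO] at hr
        intro b hb
        rw [mem_insert, mem_singleton] at hb
        rcases hb with rfl | rfl
        · simpa using hr.1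
        · simpa using hr.2
    have hcover : ∀ b, b ≠ x → b ≠ y → b ≠ v → s b = 1 := by
      intro b h1 h2 h3
      have := s_pos ht h1 h2
      by_contra hcon
      exact h3 (hUv b (by omega))
    set X1 : Finset F := univ.filter (fun b => s b = 1) with hX1
    have hX1card : Fintype.card F ≤ X1.card + 3 := by
      have : (univ : Finset F) ⊆ X1 ∪ {x, y, v} := by
        intro b _
        rw [mem_union, hX1, mem_filter]
        by_cases h1 : b = x
        · right; simp [h1]
        · by_cases h2 : b = y
          · right; simp [h2]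
          · by_cases h3 : b = v
            · right; simp [h3]
            · left; exact ⟨mem_univ _, hcover b h1 h2 h3⟩
      have h5 := card_le_card this
      have h6 := card_union_le X1 {x, y, v}
      have h7 : ({x, y, v} : Finset F).card ≤ 3 := card_le_three
      rw [card_univ] at h5
      omega
    have hcutDn : (cutD α f (Dn s w 1)).card ≤ 4 := by
      rw [hDn]
      have h5 := cut_pair_le h.toMG hxy hadj
      have h6 := cut_le_of_mu h hc.mux
      have h7 := cut_le_of_mu h hc.muy
      omega
    have hsumA : ∑ b ∈ X1, (univ.filter (fun d => f d = b ∧ f (α d) ∈ Dn s w 1)).card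
        ≤ (cutD α f (Dn s w 1)).card := by
      have e1 : ∑ b ∈ X1, (univ.filter (fun d => f d = b ∧ f (α d) ∈ Dn s w 1)).card
          = (univ.filter (fun d => f d ∈ X1 ∧ f (α d) ∈ Dn s w 1)).card := by
        rw [card_eq_sum_card_fiberwise (f := f) (t := X1)]
        · apply sum_congr rfl
          intro b hb
          congr 1
          ext d
          simp only [mem_filter, mem_univ, true_and]
          constructor
          · rintro ⟨h1, h2⟩
            exact ⟨⟨h1 ▸ hb, h2⟩, h1⟩
          · rintro ⟨⟨_, h2⟩, h3⟩
            exact ⟨h3, h2⟩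
        · intro d hd
          rw [mem_coe, mem_filter] at hd
          exact hd.2.1
      rw [e1]
      apply card_le_card_of_injOn α
      · intro d hd
        rw [mem_coe, mem_filter] at hd
        rw [mem_coe, mem_cutD, h.inv]
        refine ⟨hd.2.2, ?_⟩
        rw [mem_Dn]
        have := hd.2.1
        rw [hX1, mem_filter] at this
        omega
      · exact h.inj.injOn
    have hA2 : ∀ b ∈ X1, 2 ≤ (univ.filter (fun d => f d = b ∧ f (α d) ∈ Dn s w 1)).card := by
      intro b hb
      rw [hX1, mem_filter] at hb
      exact ha b hb.2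
    have hX1' : X1.card * 2 ≤ ∑ b ∈ X1, (univ.filter
        (fun d => f d = b ∧ f (α d) ∈ Dn s w 1)).card := by
      rw [← smul_eq_mul]
      exact card_nsmul_le_sum _ _ _ hA2
    have hF5 : Fintype.card F = 5 := by omega
    have hap : 2 ≤ (univ.filter (fun d => f d = p ∧ f (α d) ∈ Dn s w 1)).card := ha p hsp
    have hpD : p ∉ Dn s w 1 := by rw [mem_Dn]; omega
    have h5 := cut_insert h.toMG hpD
    have hScard : (insert p (Dn s w 1)).card = 3 := by
      rw [card_insert_of_notMem hpD, hDn, card_pair hxy]
    have hSne : insert p (Dn s w 1) ≠ univ := by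
      intro hu
      rw [hu, card_univ] at hScard
      omega
    have h6 := h.three _ ⟨p, mem_insert_self _ _⟩ hSne
    have h7 : (cutD α f (insert p (Dn s w 1))).card = 3 := by omega
    rcases h.torso _ ⟨p, mem_insert_self _ _⟩ hSne h7 with h8 | h8
    · omega
    · rw [card_compl] at h8
      omega
  · have hequ : s u = s v := le_antisymm hle hge
    have hmuu := hc.muu hequ
    obtain ⟨z, hz⟩ : ∃ z, z ∉ ({x, y, u, v} : Finset F) := by
      by_contra hcon
      push Not at hcon
      have h5 := card_quad hxy huv h4
      have h6 : ({x, y, u, v} : Finset F) = univ := by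
        ext b; simp only [hcon b, mem_univ]
      rw [h6, card_univ] at h5
      omega
    have hsub := sum_le_sum_of_subset (f := μ) (subset_univ (insert z ({x, y, u, v} : Finset F)))
    rw [sum_insert hz, sum_quad hxy huv h4] at hsub
    have hzx : x ≠ z := by
      rintro rfl
      exact hz (by simp)
    have := h.two_w_lt (b := z) (c := x) hzx
    have h9 := hc.mux
    have h10 := hc.muy
    have h11 := hc.muv
    omega

/-- four classes: a critical root edge joins classes of equal weight -/
theorem odd_four (h : Torso α f μ w) (hF : Fintype.card F = 4) (hxy : x ≠ y)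
    (ht : Times α f w x y s) {u v : F} (huv : u ≠ v) (hle : s u ≤ s v)
    (hsv : s v ≤ s u + w u + 1) (heq : 2 * (s u + w u + s v + w v) = ∑ b, μ b) :
    w x = w y ∧ (w u = 0 ∨ ∀ b, μ b = 2 * w b + 1) := by
  classical
  have hc := crit_of_eq h ht hxy huv hle hsv heq
  have h4 := four_classes ht hxy huv hle hc
  have huniv : ({x, y, u, v} : Finset F) = univ := by
    apply eq_univ_of_card
    rw [card_quad hxy huv h4, hF]
  have hsum : ∑ b, μ b = μ x + (μ y + (μ u + μ v)) := by
    rw [← huniv, sum_quad hxy huv h4]
  have hcases : ∀ b, b = x ∨ b = y ∨ b = u ∨ b = v := by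
    intro b
    have : b ∈ ({x, y, u, v} : Finset F) := by rw [huniv]; exact mem_univ _
    simpa using this
  have hpos := hc.pos
  -- predecessor of u
  have hpred : s u = w x + 1 ∨ s u = w y + 1 := by
    obtain ⟨d, hd, hd'⟩ := ht.pred u h4.1.symm h4.2.2.1.symm
    rcases hcases (f (α d)) with h1 | h1 | h1 | h1
    · left; rw [h1, ht.zx] at hd'; omega
    · right; rw [h1, ht.zy] at hd'; omega
    · rw [h1] at hd'; omega
    · rw [h1] at hd'; omega
  have h9 := hc.mux
  have h10 := hc.muy
  have h11 := hc.muv
  rcases Nat.lt_or_ge (s u) (s v) with hlt | hge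
  · obtain ⟨hO, hD2, hsum3, hUv, ha⟩ := hc.level h ht hxy hlt
    have hX : Xt s w (s u) = {u} := by
      apply Subset.antisymm
      · intro b hb
        rw [mem_singleton]
        rw [mem_Xt] at hb
        have hbO : b ∉ Old s w (s u) := by rw [hO]; simp
        rw [mem_Old] at hbO
        rcases hcases b with rfl | rfl | rfl | rfl
        · have := ht.zx; omega
        · have := ht.zy; omega
        · rfl
        · omega
      · intro b hb
        rw [mem_singleton] at hb
        rw [hb, mem_Xt]
        omega
    rw [hX, sum_singleton] at hsum3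
    have hwu : w u = 0 := by
      by_contra hcon
      have := h.blob u (by omega)
      omega
    have hmass := h.mass u
    have hCt := hc.pt (s u) hlt
    rw [if_neg (by omega), if_pos rfl] at hCt
    have hcon : con μ w s u (s u) ≤ Ct μ w s (s u) :=
      single_le_sum (f := fun b => con μ w s b (s u)) (fun _ _ => Nat.zero_le _) (mem_univ u)
    unfold con at hcon
    rw [if_pos rfl] at hcon
    refine ⟨?_, Or.inl hwu⟩
    rcases hpred with h1 | h1 <;> omega
  · have hequ : s u = s v := le_antisymm hle hge
    have hmuu := hc.muu hequ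
    refine ⟨?_, Or.inr ?_⟩
    · rcases hpred with h1 | h1 <;> omega
    · intro b
      rcases hcases b with rfl | rfl | rfl | rfl <;> assumption

end

end Pool.Agent.Helper11.Stc
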