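import Pool.Agent.Helper11.Stc.Dual1
import Pool.Agent.Helper11.Stc.MgMain

set_option autoImplicit false

namespace Pool.Agent.Helper11.Stc

open Finset

universe u

theorem facePerm_apply {V : Type u} {G : SimpleGraph V} (σ : Equiv.Perm G.Dart) (d : G.Dart) :
    facePerm σ d = σ d.symm := rfl

theorem face_facePerm {V : Type u} {G : SimpleGraph V} (σ : Equiv.Perm G.Dart) (d : G.Dart) :
    face σ (facePerm σ d) = face σ d := by
  apply Quotient.sound
  change Equiv.Perm.SameCycle (facePerm σ) (facePerm σ d) d
  rw [Equiv.Perm.sameCycle_apply_left]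

/-- Flow fact: the darts leaving a vertex set `P` form a balanced set in the dual. -/
theorem cut_balanced {V : Type u} (G : SimpleGraph V)
    (σ : Equiv.Perm G.Dart) (h1 : ∀ d : G.Dart, (σ d).fst = d.fst)
    [Fintype G.Dart] [DecidableEq (Faces σ)] (P : V → Prop) [DecidablePred P] (x : Faces σ) :
    ((univ.filter (fun d : G.Dart => P d.fst ∧ ¬ P d.snd)).filter
        (fun d => face σ d = x)).card
      = ((univ.filter (fun d : G.Dart => P d.fst ∧ ¬ P d.snd)).filter
        (fun d => face σ d.symm = x)).card := by
  classical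
  -- the right-hand side in terms of darts of the face `x`
  have hR : ((univ.filter (fun d : G.Dart => P d.fst ∧ ¬ P d.snd)).filter
        (fun d => face σ d.symm = x)).card
      = (univ.filter (fun d : G.Dart => face σ d = x ∧ ¬ P d.fst ∧ P d.snd)).card := by
    refine Finset.card_bij' (fun d _ => d.symm) (fun d _ => d.symm) ?_ ?_ ?_ ?_
    · intro d hd
      simp only [mem_filter, mem_univ, true_and] at hd ⊢
      exact ⟨hd.2, hd.1.2, hd.1.1⟩
    · intro d hd
      simp only [mem_filter, mem_univ, true_and] at hd ⊢
      refine ⟨⟨hd.2.2, hd.2.1⟩, ?_⟩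
      rw [SimpleGraph.Dart.symm_symm]; exact hd.1
    · intro d _; exact SimpleGraph.Dart.symm_symm d
    · intro d _; exact SimpleGraph.Dart.symm_symm d
  have hL : ((univ.filter (fun d : G.Dart => P d.fst ∧ ¬ P d.snd)).filter
        (fun d => face σ d = x)).card
      = (univ.filter (fun d : G.Dart => face σ d = x ∧ P d.fst ∧ ¬ P d.snd)).card := by
    congr 1
    ext d
    simp only [mem_filter, mem_univ, true_and]
    tauto
  rw [hL, hR]
  -- the face permutation
  have hφ : (univ.filter (fun d : G.Dart => face σ d = x ∧ P d.snd)).card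
      = (univ.filter (fun d : G.Dart => face σ d = x ∧ P d.fst)).card := by
    refine Finset.card_bij' (fun d _ => facePerm σ d) (fun d _ => (facePerm σ).symm d) ?_ ?_ ?_ ?_
    · intro d hd
      simp only [mem_filter, mem_univ, true_and] at hd ⊢
      refine ⟨by rw [face_facePerm]; exact hd.1, ?_⟩
      rw [facePerm_apply, h1]
      exact hd.2
    · intro d hd
      simp only [mem_filter, mem_univ, true_and] at hd ⊢
      obtain ⟨e, rfl⟩ : ∃ e, d = facePerm σ e := ⟨(facePerm σ).symm d, by simp⟩
      rw [Equiv.symm_apply_apply]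
      rw [face_facePerm] at hd
      refine ⟨hd.1, ?_⟩
      have := hd.2
      rw [facePerm_apply, h1] at this
      exact this
    · intro d _; simp
    · intro d _; simp
  have h3 : (univ.filter (fun d : G.Dart => face σ d = x ∧ P d.fst)).card
      = (univ.filter (fun d : G.Dart => face σ d = x ∧ P d.fst ∧ P d.snd)).card
        + (univ.filter (fun d : G.Dart => face σ d = x ∧ P d.fst ∧ ¬ P d.snd)).card := by
    rw [← Finset.card_filter_add_card_filter_not
      (s := univ.filter (fun d : G.Dart => face σ d = x ∧ P d.fst)) (fun d => P d.snd)]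
    congr 2 <;> · ext d; simp only [mem_filter, mem_univ, true_and]; tauto
  have h4 : (univ.filter (fun d : G.Dart => face σ d = x ∧ P d.snd)).card
      = (univ.filter (fun d : G.Dart => face σ d = x ∧ P d.fst ∧ P d.snd)).card
        + (univ.filter (fun d : G.Dart => face σ d = x ∧ ¬ P d.fst ∧ P d.snd)).card := by
    rw [← Finset.card_filter_add_card_filter_not
      (s := univ.filter (fun d : G.Dart => face σ d = x ∧ P d.snd)) (fun d => P d.fst)]
    congr 2 <;> · ext d; simp only [mem_filter, mem_univ, true_and]; tauto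
  omega

open Classical in
/-- the darts leaving a vertex set -/
noncomputable def outD {V : Type u} {G : SimpleGraph V} [Fintype G.Dart] (P : V → Prop) :
    Finset G.Dart := univ.filter (fun d => P d.fst ∧ ¬ P d.snd)

theorem mem_outD {V : Type u} {G : SimpleGraph V} [Fintype G.Dart] {P : V → Prop} {d : G.Dart} :
    d ∈ outD P ↔ P d.fst ∧ ¬ P d.snd := by
  classical
  simp [outD]

theorem outD_balanced {V : Type u} (G : SimpleGraph V)
    (σ : Equiv.Perm G.Dart) (h1 : ∀ d : G.Dart, (σ d).fst = d.fst)
    [Fintype G.Dart] [DecidableEq (Faces σ)] (P : V → Prop) (x : Faces σ) :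
    ((outD P).filter (fun d : G.Dart => face σ d = x)).card
      = ((outD P).filter (fun d : G.Dart => face σ d.symm = x)).card := by
  classical
  have := cut_balanced G σ h1 P x
  unfold outD
  convert this

theorem outD_anti {V : Type u} {G : SimpleGraph V} [Fintype G.Dart] (P : V → Prop) :
    ∀ d ∈ (outD P : Finset G.Dart), d.symm ∉ (outD P : Finset G.Dart) := by
  intro d hd hd'
  rw [mem_outD] at hd hd'
  exact hd'.2 hd.1

/-- the primal graph left over by a set of darts -/
def leftover {V : Type u} {G : SimpleGraph V} (S : Finset G.Dart)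
    (hS : ∀ d ∈ S, d.symm ∈ S) : SimpleGraph V where
  Adj a b := ∃ h : G.Adj a b, (⟨(a, b), h⟩ : G.Dart) ∉ S
  symm := by
    constructor
    rintro a b ⟨h, hd⟩
    refine ⟨h.symm, fun hm => hd ?_⟩
    have := hS _ hm
    exact this
  loopless := by
    constructor
    rintro a ⟨h, _⟩
    exact G.loopless.irrefl a h

theorem leftover_adj_dart {V : Type u} {G : SimpleGraph V} {S : Finset G.Dart}
    {hS : ∀ d ∈ S, d.symm ∈ S} {d : G.Dart} (hd : d ∉ S) :
    (leftover S hS).Adj d.fst d.snd := ⟨d.adj, hd⟩

theorem leftover_le {V : Type u} {G : SimpleGraph V} {S : Finset G.Dart}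
    {hS : ∀ d ∈ S, d.symm ∈ S} : leftover S hS ≤ G := by
  intro a b h
  exact h.1

theorem leftover_darts {V : Type u} {G : SimpleGraph V} [Fintype G.Dart] {S : Finset G.Dart}
    {hS : ∀ d ∈ S, d.symm ∈ S} [Fintype (leftover S hS).Dart] :
    Fintype.card (leftover S hS).Dart + S.card = Fintype.card G.Dart := by
  classical
  have e : (leftover S hS).Dart ≃ {d : G.Dart // d ∉ S} :=
    { toFun := fun d => ⟨⟨(d.fst, d.snd), d.adj.1⟩, d.adj.2⟩
      invFun := fun d => ⟨(d.1.fst, d.1.snd), leftover_adj_dart d.2⟩
      left_inv := fun d => rfl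
      right_inv := fun d => rfl }
  rw [Fintype.card_congr e, Fintype.card_subtype_compl (fun d : G.Dart => d ∈ S)]
  have h1 : Fintype.card {d : G.Dart // d ∈ S} = S.card := Fintype.card_coe S
  rw [h1]
  have h2 : S.card ≤ Fintype.card G.Dart := Finset.card_le_univ S
  omega

theorem stc_le_of_planar {V : Type u} [Fintype V] (G : SimpleGraph V) (hc : G.Connected)
    (hp : IsPlanarMap G) (hV : 2 ≤ Fintype.card V) :
    stc G ≤ 2 * (Fintype.card V / 2) := by
  classical
  obtain ⟨σ, h1, h2, heul⟩ := hp
  letI : Fintype G.Dart := Fintype.ofFinite _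
  letI : Fintype (Faces σ) := Fintype.ofFinite _
  have hmg : MG (fun d : G.Dart => d.symm) (face σ) := dual_MG G hc σ h1 h2
  have : Nontrivial V := Fintype.one_lt_card_iff_nontrivial.1 (by omega)
  have hD0 : Nonempty G.Dart := by
    obtain ⟨v⟩ := hc.nonempty
    obtain ⟨u, hu⟩ := hc.preconnected.exists_adj_of_nontrivial v
    exact ⟨⟨(v, u), hu⟩⟩
  have hF : 1 ≤ Fintype.card (Faces σ) := Fintype.card_pos_iff.2 ⟨face σ hD0.some⟩
  -- Euler's formula
  have hE : Fintype.card G.Dart = 2 * Nat.card G.edgeSet := by
    have := G.dart_card_eq_twice_card_edges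
    rw [Nat.card_eq_fintype_card, ← SimpleGraph.edgeFinset_card]
    convert this
  have heul' : (Fintype.card V : ℤ) - (Nat.card G.edgeSet : ℤ) + (Fintype.card (Faces σ) : ℤ) = 2 := by
    rw [← Nat.card_eq_fintype_card, ← Nat.card_eq_fintype_card]
    exact heul
  have hn : Fintype.card G.Dart + 4 = 2 * Fintype.card (Faces σ) + 2 * Fintype.card V := by
    omega
  obtain ⟨S, hS, hScard, hS0, hSb⟩ := mg_main hmg hF (Fintype.card V) hV hn
  set T : SimpleGraph V := leftover S hS with hTdef
  have hTG : T ≤ G := leftover_le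
  -- connectedness
  have hTc : T.Connected := by
    have := hc.nonempty
    refine ⟨?_⟩
    intro a b
    have hZ : (outD (fun x => T.Reachable a x) : Finset G.Dart) = ∅ := by
      apply hS0 _ (outD_anti (fun x => T.Reachable a x))
        (outD_balanced G σ h1 (fun x => T.Reachable a x))
      intro d hd
      rw [mem_outD] at hd
      by_contra hdS
      exact hd.2 (hd.1.trans (leftover_adj_dart hdS).reachable)
    have hcl : ∀ x y, G.Adj x y → T.Reachable a x → T.Reachable a y := by
      intro x y hxy hx
      by_contra hy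
      have : (⟨(x, y), hxy⟩ : G.Dart) ∈ (outD (fun x => T.Reachable a x) : Finset G.Dart) := by
        rw [mem_outD]
        exact ⟨hx, hy⟩
      rw [hZ] at this
      exact absurd this (Finset.notMem_empty _)
    obtain ⟨p⟩ := hc.preconnected a b
    have hw : ∀ (x y : V) (p : G.Walk x y), T.Reachable a x → T.Reachable a y := by
      intro x y p
      induction p with
      | nil => exact fun h => h
      | cons h p ih => exact fun hx => ih (hcl _ _ h hx)
    exact hw a b p (SimpleGraph.Reachable.refl a)
  -- number of edges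
  have hTree : T.IsTree := by
    rw [SimpleGraph.isTree_iff_connected_and_card]
    refine ⟨hTc, ?_⟩
    letI : Fintype T.Dart := Fintype.ofFinite _
    have hTE : Fintype.card T.Dart = 2 * Nat.card T.edgeSet := by
      have := T.dart_card_eq_twice_card_edges
      rw [Nat.card_eq_fintype_card, ← SimpleGraph.edgeFinset_card]
      convert this
    have hTD : Fintype.card T.Dart + S.card = Fintype.card G.Dart := leftover_darts
    rw [Nat.card_eq_fintype_card (α := V)]
    omega
  refine stc_le hTG hTree ?_
  intro a b hab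
  have hbridge : ¬ (T.deleteEdges {s(a, b)}).Reachable a b := by
    have := (SimpleGraph.isAcyclic_iff_forall_adj_isBridge.1 hTree.isAcyclic) hab
    rwa [SimpleGraph.isBridge_iff] at this
  set P : V → Prop := fun x => (T.deleteEdges {s(a, b)}).Reachable a x with hP
  have hab' : G.Adj a b := hTG hab
  have hZcard := hSb ⟨(a, b), hab'⟩ (outD P) (outD_anti P) (outD_balanced G σ h1 P) (by
      intro d hd
      rw [mem_outD] at hd
      by_cases hdS : d ∈ S
      · exact Or.inl hdS
      · right
        have hadj : T.Adj d.fst d.snd := leftover_adj_dart hdS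
        have hedge : s(d.fst, d.snd) = s(a, b) := by
          by_contra hne
          apply hd.2
          refine hd.1.trans ?_
          apply SimpleGraph.Adj.reachable
          rw [SimpleGraph.deleteEdges_adj]
          exact ⟨hadj, hne⟩
        rw [Sym2.eq_iff] at hedge
        rcases hedge with ⟨h3, h4⟩ | ⟨h3, h4⟩
        · left
          apply SimpleGraph.Dart.ext
          exact Prod.ext h3 h4
        · right
          apply SimpleGraph.Dart.ext
          exact Prod.ext h3 h4)
  refine le_trans ?_ hZcard
  unfold cng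
  have hsub : {e : Sym2 V | e ∈ G.edgeSet ∧ ∃ x y, e = s(x, y) ∧
      (T.deleteEdges {s(a, b)}).Reachable a x ∧ (T.deleteEdges {s(a, b)}).Reachable b y}
      ⊆ ((outD P : Finset G.Dart).image SimpleGraph.Dart.edge : Finset (Sym2 V)) := by
    rintro e ⟨he, x, y, rfl, hx, hy⟩
    rw [Finset.mem_coe, Finset.mem_image]
    have hxy : G.Adj x y := he
    refine ⟨⟨(x, y), hxy⟩, ?_, rfl⟩
    rw [mem_outD]
    refine ⟨hx, fun hy' => hbridge ?_⟩
    exact hy'.trans hy.symm
  calc _ ≤ (((outD P : Finset G.Dart).image SimpleGraph.Dart.edge :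
        Finset (Sym2 V)) : Set (Sym2 V)).ncard := Set.ncard_le_ncard hsub (Finset.finite_toSet _)
    _ = ((outD P : Finset G.Dart).image SimpleGraph.Dart.edge).card :=
        Set.ncard_coe_finset _
    _ ≤ _ := Finset.card_image_le

end Pool.Agent.Helper11.Stc
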