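import Pool.Agent.Helper11.Stc.Level

set_option autoImplicit false

namespace Pool.Agent.Helper11.Stc

open Finset

/-- arrival times of the weighted breadth first search with root pair `x, y` -/
structure Times {D F : Type*} (α : D → D) (f : D → F) (w : F → ℕ) (x y : F) (s : F → ℕ) :
    Prop where
  zx : s x = 0
  zy : s y = 0
  pred : ∀ b, b ≠ x → b ≠ y → ∃ d, f d = b ∧ s b = s (f (α d)) + w (f (α d)) + 1
  le : ∀ d, s (f d) ≤ s (f (α d)) + w (f (α d)) + 1

/-- reachability with cost -/
inductive Reach {D F : Type*} (α : D → D) (f : D → F) (w : F → ℕ) (x y : F) : F → ℕ → Prop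
  | rx : Reach α f w x y x 0
  | ry : Reach α f w x y y 0
  | step (d : D) (t : ℕ) : Reach α f w x y (f d) t →
      Reach α f w x y (f (α d)) (t + w (f d) + 1)

theorem exists_times {D F : Type*} [Fintype D] [Fintype F] [DecidableEq F]
    {α : D → D} {f : D → F} (h : MG α f) (w : F → ℕ) (x y : F) :
    ∃ s : F → ℕ, Times α f w x y s := by
  classical
  have hne : ∀ b, ∃ t, Reach α f w x y b t := by
    set S : Finset F := univ.filter (fun b => ∃ t, Reach α f w x y b t) with hS
    have hx : x ∈ S := by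
      rw [hS, mem_filter]; exact ⟨mem_univ _, 0, Reach.rx⟩
    by_cases hu : S = univ
    · intro b
      have : b ∈ S := by rw [hu]; exact mem_univ _
      rw [hS, mem_filter] at this
      exact this.2
    · exfalso
      have h3 := h.three S ⟨x, hx⟩ hu
      have : (cutD α f S).Nonempty := by
        rw [← card_pos]; omega
      obtain ⟨d, hd⟩ := this
      rw [mem_cutD] at hd
      obtain ⟨h1, h2⟩ := hd
      rw [hS, mem_filter] at h1
      obtain ⟨_, t, ht⟩ := h1
      apply h2
      rw [hS, mem_filter]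
      exact ⟨mem_univ _, _, Reach.step d t ht⟩
  let s : F → ℕ := fun b => sInf {t | Reach α f w x y b t}
  have hs : ∀ b, Reach α f w x y b (s b) := fun b => Nat.sInf_mem (hne b)
  have hle : ∀ b t, Reach α f w x y b t → s b ≤ t := fun b t ht => Nat.sInf_le ht
  have hstep : ∀ d, s (f (α d)) ≤ s (f d) + w (f d) + 1 := fun d =>
    hle _ _ (Reach.step d _ (hs (f d)))
  refine ⟨s, ?_, ?_, ?_, ?_⟩
  · exact Nat.le_zero.1 (hle _ _ Reach.rx)
  · exact Nat.le_zero.1 (hle _ _ Reach.ry)
  · intro b hbx hby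
    have hb := hs b
    generalize hsb : s b = sb at hb
    cases hb with
    | rx => exact absurd rfl hbx
    | ry => exact absurd rfl hby
    | step d t ht =>
      refine ⟨α d, rfl, ?_⟩
      rw [h.inv]
      have h1 := hle _ _ ht
      have h2 := hstep d
      omega
  · intro d
    have := hstep (α d)
    rwa [h.inv] at this

section
variable {D F : Type*} [Fintype D] [Fintype F] [DecidableEq F] {α : D → D} {f : D → F}
  {μ w : F → ℕ} {x y : F} {s : F → ℕ}

/-- finished classes at time `t` -/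
def Dn (s w : F → ℕ) (t : ℕ) : Finset F := univ.filter (fun b => s b + w b < t)
/-- active classes at time `t` -/
def Xt (s w : F → ℕ) (t : ℕ) : Finset F := univ.filter (fun b => s b ≤ t ∧ t ≤ s b + w b)
/-- unreached classes at time `t` -/
def Ut (s : F → ℕ) (t : ℕ) : Finset F := univ.filter (fun b => t < s b)
/-- old active classes at time `t` -/
def Old (s w : F → ℕ) (t : ℕ) : Finset F := univ.filter (fun b => s b < t ∧ t ≤ s b + w b)
/-- mass contributed by `b` at time `t` -/
def con (μ w s : F → ℕ) (b : F) (t : ℕ) : ℕ :=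
  if s b = t then μ b - 2 * w b else if s b < t ∧ t ≤ s b + w b then 2 else 0
/-- total mass at time `t` -/
def Ct (μ w s : F → ℕ) (t : ℕ) : ℕ := ∑ b, con μ w s b t
/-- mass of `b` remaining from time `T` on -/
def rem (μ w s : F → ℕ) (T : ℕ) (b : F) : ℕ :=
  if T ≤ s b then μ b else 2 * (s b + w b + 1 - T)

omit [DecidableEq F] in
theorem mem_Dn {t : ℕ} {b : F} : b ∈ Dn s w t ↔ s b + w b < t := by simp [Dn]
omit [DecidableEq F] in
theorem mem_Xt {t : ℕ} {b : F} : b ∈ Xt s w t ↔ s b ≤ t ∧ t ≤ s b + w b := by simp [Xt]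
omit [DecidableEq F] in
theorem mem_Ut {t : ℕ} {b : F} : b ∈ Ut s t ↔ t < s b := by simp [Ut]
omit [DecidableEq F] in
theorem mem_Old {t : ℕ} {b : F} : b ∈ Old s w t ↔ s b < t ∧ t ≤ s b + w b := by simp [Old]

omit [DecidableEq F] in
theorem sum_con_add_rem {b : F} (hw : 2 * w b ≤ μ b) (T : ℕ) :
    ∑ t ∈ range T, con μ w s b t + rem μ w s T b = μ b := by
  induction T with
  | zero => simp [rem]
  | succ T ih =>
    rw [sum_range_succ]
    unfold rem con at *
    by_cases h1 : T ≤ s b
    · rw [if_pos h1] at ih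
      by_cases h2 : s b = T
      · rw [if_pos h2, if_neg (by omega : ¬ T + 1 ≤ s b)]
        have : s b + w b + 1 - (T + 1) = w b := by omega
        rw [this]
        omega
      · rw [if_neg h2, if_neg (by omega : ¬ (s b < T ∧ T ≤ s b + w b)), if_pos (by omega)]
        omega
    · rw [if_neg h1] at ih
      rw [if_neg (by omega : ¬ s b = T), if_neg (by omega : ¬ T + 1 ≤ s b)]
      by_cases h3 : s b < T ∧ T ≤ s b + w b
      · rw [if_pos h3]
        omega
      · rw [if_neg h3]
        omega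

omit [DecidableEq F] in
theorem total_eq (hw : ∀ b, 2 * w b ≤ μ b) (T : ℕ) :
    ∑ t ∈ range T, Ct μ w s t + ∑ b, rem μ w s T b = ∑ b, μ b := by
  unfold Ct
  rw [sum_comm, ← sum_add_distrib]
  exact sum_congr rfl (fun b _ => sum_con_add_rem (hw b) T)

theorem Torso.two_w_lt (h : Torso α f μ w) {b c : F} (hbc : c ≠ b) : 2 * w b + 1 ≤ μ b := by
  have h1 := h.toMG.three_singleton hbc
  have h2 := h.mass b
  omega

/-- The key level inequality. -/
theorem Ct_ge (h : Torso α f μ w) (t : ℕ) :
    ∑ b ∈ Xt s w t, ((cutD α f {b}).card - 2) + (Old s w t).card ≤ Ct μ w s t := by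
  have hOld : Old s w t ⊆ Xt s w t := by
    intro b hb
    rw [mem_Old] at hb
    rw [mem_Xt]
    omega
  have h1 : (Old s w t).card = ∑ b ∈ Xt s w t, if b ∈ Old s w t then 1 else 0 := by
    rw [sum_ite_mem, inter_eq_right.2 hOld, card_eq_sum_ones]
  rw [h1, ← sum_add_distrib]
  unfold Ct
  refine (sum_le_sum ?_).trans (sum_le_sum_of_subset (subset_univ _))
  intro b hb
  rw [mem_Xt] at hb
  have hm := h.mass b
  unfold con
  by_cases h2 : s b = t
  · rw [if_pos h2, if_neg]
    · omega
    · rw [mem_Old]; omega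
  · have hc : s b < t ∧ t ≤ s b + w b := by omega
    rw [if_neg h2, if_pos hc, if_pos (mem_Old.2 hc)]
    have := h.blob b (by omega)
    omega

theorem no_dart_Dn_Ut (ht : Times α f w x y s) (t : ℕ) (d : D) (hd : f d ∈ Dn s w t)
    (hinv : ∀ d, α (α d) = d) : f (α d) ∉ Ut s t := by
  rw [mem_Dn] at hd
  rw [mem_Ut]
  have := ht.le (α d)
  rw [hinv] at this
  omega

theorem level_cut (h : Torso α f μ w) (ht : Times α f w x y s) (t : ℕ)
    (hD : (Dn s w t).Nonempty) (hU : (Ut s t).Nonempty) :
    (cutD α f (Dn s w t ∪ (Xt s w t).filter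
        (fun b => 2 ≤ (univ.filter (fun d => f d = b ∧ f (α d) ∈ Dn s w t)).card))).card
      ≤ ∑ b ∈ Xt s w t, ((cutD α f {b}).card - 2) := by
  apply level_lemma h.toMG _ _ (Ut s t) hD hU
  · rw [Finset.disjoint_left]; intro b hb hb'
    rw [mem_Dn] at hb; rw [mem_Xt] at hb'; omega
  · rw [Finset.disjoint_left]; intro b hb hb'
    rw [mem_Dn] at hb; rw [mem_Ut] at hb'; omega
  · rw [Finset.disjoint_left]; intro b hb hb'
    rw [mem_Xt] at hb; rw [mem_Ut] at hb'; omega
  · ext b
    simp only [mem_union, mem_univ, iff_true, mem_Dn, mem_Xt, mem_Ut]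
    omega
  · intro d hd
    exact no_dart_Dn_Ut ht t d hd h.inv

theorem Ct_ge_three (h : Torso α f μ w) (ht : Times α f w x y s) (t : ℕ)
    (hD : (Dn s w t).Nonempty) (hU : (Ut s t).Nonempty) :
    3 + (Old s w t).card ≤ Ct μ w s t := by
  have h1 := level_cut h ht t hD hU
  have h2 := Ct_ge (s := s) h t
  have h3 := h.three (Dn s w t ∪ (Xt s w t).filter
        (fun b => 2 ≤ (univ.filter (fun d => f d = b ∧ f (α d) ∈ Dn s w t)).card))
        (hD.mono subset_union_left) (by
          intro hu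
          obtain ⟨v, hv⟩ := hU
          have : v ∈ (univ : Finset F) := mem_univ v
          rw [← hu, mem_union, mem_Dn, mem_filter, mem_Xt] at this
          rw [mem_Ut] at hv
          omega)
  omega

theorem Ct_ge_four (h : Torso α f μ w) (ht : Times α f w x y s) (t : ℕ)
    (hD : 2 ≤ (Dn s w t).card) (hU : 2 ≤ (Ut s t).card) :
    4 + (Old s w t).card ≤ Ct μ w s t := by
  have hD' : (Dn s w t).Nonempty := by rw [← card_pos]; omega
  have hU' : (Ut s t).Nonempty := by rw [← card_pos]; omega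
  have h1 := level_cut h ht t hD' hU'
  have h2 := Ct_ge (s := s) h t
  set S := Dn s w t ∪ (Xt s w t).filter
        (fun b => 2 ≤ (univ.filter (fun d => f d = b ∧ f (α d) ∈ Dn s w t)).card) with hS
  have hSU : Disjoint S (Ut s t) := by
    rw [Finset.disjoint_left]
    intro b hb hb'
    rw [hS, mem_union, mem_Dn, mem_filter, mem_Xt] at hb
    rw [mem_Ut] at hb'
    omega
  have hne : S.Nonempty := hD'.mono subset_union_left
  have hnu : S ≠ univ := by
    intro hu
    obtain ⟨v, hv⟩ := hU'
    exact Finset.disjoint_left.1 hSU (by rw [hu]; exact mem_univ v) hv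
  have h3 := h.three S hne hnu
  by_contra hcon
  have h4 : (cutD α f S).card = 3 := by omega
  rcases h.torso S hne hnu h4 with h5 | h5
  · have hsub : Dn s w t ⊆ S := subset_union_left
    have := card_le_card hsub
    omega
  · have : Ut s t ⊆ Sᶜ := by
      intro b hb
      rw [mem_compl]
      exact fun hb' => Finset.disjoint_left.1 hSU hb' hb
    have := card_le_card this
    omega

/-- roots are finished or old at times `t ≥ 1` -/
theorem root_old (ht : Times α f w x y s) {t : ℕ} (h1 : 1 ≤ t) :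
    (x ∈ Dn s w t ∨ x ∈ Old s w t) ∧ (y ∈ Dn s w t ∨ y ∈ Old s w t) := by
  rw [mem_Dn, mem_Old, mem_Dn, mem_Old, ht.zx, ht.zy]
  omega

theorem s_pos (ht : Times α f w x y s) {b : F} (hx : b ≠ x) (hy : b ≠ y) : 1 ≤ s b := by
  obtain ⟨d, _, h2⟩ := ht.pred b hx hy
  omega

theorem Dn_nonempty_of (ht : Times α f w x y s) {b : F} (hb : 1 ≤ s b) {t : ℕ} (hbt : s b ≤ t) :
    (Dn s w t).Nonempty := by
  have hx : b ≠ x := by rintro rfl; rw [ht.zx] at hb; omega
  have hy : b ≠ y := by rintro rfl; rw [ht.zy] at hb; omega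
  obtain ⟨d, h1, h2⟩ := ht.pred b hx hy
  refine ⟨f (α d), ?_⟩
  rw [mem_Dn]
  omega

theorem Ct_ge_of_empty (ht : Times α f w x y s) (hxy : x ≠ y) {t : ℕ} (h1 : 1 ≤ t)
    (hD : Dn s w t = ∅) : 4 ≤ Ct μ w s t := by
  obtain ⟨hx, hy⟩ := root_old ht h1
  rw [hD] at hx hy
  have hx' : x ∈ Old s w t := by simpa using hx
  have hy' : y ∈ Old s w t := by simpa using hy
  rw [mem_Old] at hx' hy'
  unfold Ct
  have hsub : ({x, y} : Finset F) ⊆ univ := subset_univ _
  have := sum_le_sum_of_subset (f := fun b => con μ w s b t) hsub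
  rw [sum_pair hxy] at this
  unfold con at this ⊢
  rw [if_neg (by omega : ¬ s x = t), if_pos hx', if_neg (by omega : ¬ s y = t), if_pos hy'] at this
  exact this

/-- if exactly one class is finished then one of the roots is old -/
theorem Old_of_card_Dn (ht : Times α f w x y s) (hxy : x ≠ y) {t : ℕ} (h1 : 1 ≤ t)
    (hD : (Dn s w t).card ≤ 1) : ∃ r ∈ Old s w t, r = x ∨ r = y := by
  obtain ⟨hx, hy⟩ := root_old ht h1
  rcases hx with hx | hx
  · rcases hy with hy | hy
    · exfalso
      exact hxy (card_le_one.1 hD x hx y hy)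
    · exact ⟨y, hy, Or.inr rfl⟩
  · exact ⟨x, hx, Or.inl rfl⟩

/-- at least mass 4 at each positive time at which two classes are unreached -/
theorem Ct_ge_four' (h : Torso α f μ w) (ht : Times α f w x y s) (hxy : x ≠ y) {t : ℕ}
    (h1 : 1 ≤ t) (hU : 2 ≤ (Ut s t).card) : 4 ≤ Ct μ w s t := by
  have hU' : (Ut s t).Nonempty := by rw [← card_pos]; omega
  rcases Finset.eq_empty_or_nonempty (Dn s w t) with hD | hD
  · exact Ct_ge_of_empty ht hxy h1 hD
  · by_cases hD2 : 2 ≤ (Dn s w t).card
    · have := Ct_ge_four h ht t hD2 hU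
      omega
    · obtain ⟨r, hr, _⟩ := Old_of_card_Dn ht hxy h1 (by omega)
      have := Ct_ge_three h ht t hD hU'
      have : 1 ≤ (Old s w t).card := card_pos.2 ⟨r, hr⟩
      omega

/-- at least mass 4 at each positive time at which some class is old and some class unreached -/
theorem Ct_ge_four_old (h : Torso α f μ w) (ht : Times α f w x y s) (hxy : x ≠ y) {t : ℕ}
    (h1 : 1 ≤ t) (hU : (Ut s t).Nonempty) (hO : (Old s w t).Nonempty) : 4 ≤ Ct μ w s t := by
  rcases Finset.eq_empty_or_nonempty (Dn s w t) with hD | hD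
  · exact Ct_ge_of_empty ht hxy h1 hD
  · have := Ct_ge_three h ht t hD hU
    have : 1 ≤ (Old s w t).card := card_pos.2 hO
    omega

theorem Ct_zero_ge (h : Torso α f μ w) (ht : Times α f w x y s) (hxy : x ≠ y) :
    2 ≤ Ct μ w s 0 := by
  unfold Ct
  have hsub : ({x, y} : Finset F) ⊆ univ := subset_univ _
  have := sum_le_sum_of_subset (f := fun b => con μ w s b 0) hsub
  rw [sum_pair hxy] at this
  refine le_trans ?_ this
  unfold con
  rw [if_pos ht.zx, if_pos ht.zy]
  have h1 := h.two_w_lt (b := x) (c := y) hxy.symm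
  have h2 := h.two_w_lt (b := y) (c := x) hxy
  omega

end

end Pool.Agent.Helper11.Stc
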